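import Pool.Agent.SYM.Cusp

/-!
# SYM/Orbit : the special member is not projective; the nilpotent orbit of its rotations
-/

set_option autoImplicit false
set_option linter.unusedSectionVars false

open Module Filter Topology

namespace Pool.Agent.SYM.Lat

namespace LData

variable {b : ℕ} {C : LData b} {α : Vec b} {D : Cusp C α}

namespace Cusp.Facts

section products

variable (hC : C.Facts) (hD : D.Facts)

include hC hD

theorem hαA : C.q α D.A = 0 := by rw [hC.symm, hD.hAα]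

theorem hαA0 : C.q α D.A0 = 0 := by rw [hC.symm, hD.hA0α]

theorem hA0A : C.q D.A0 D.A = 0 := by rw [hC.symm, hD.hAA0]

theorem hA'α : C.q D.A' α = 0 := by
  unfold Cusp.A'
  rw [C.q.map_add, C.q.map_smul, LinearMap.add_apply, LinearMap.smul_apply, hD.hA0α, hD.hαα]
  simp

theorem hαA' : C.q α D.A' = 0 := by rw [hC.symm, hA'α hC hD]

theorem hA'A : C.q D.A' D.A = 0 := by
  unfold Cusp.A'
  rw [C.q.map_add, C.q.map_smul, LinearMap.add_apply, LinearMap.smul_apply, hA0A hC hD,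
    hαA hC hD]
  simp

theorem hAA' : C.q D.A D.A' = 0 := by rw [hC.symm, hA'A hC hD]

theorem hA'A0 : C.q D.A' D.A0 = C.q D.A0 D.A0 := by
  unfold Cusp.A'
  rw [C.q.map_add, C.q.map_smul, LinearMap.add_apply, LinearMap.smul_apply, hαA0 hC hD]
  simp

theorem hA'A' : C.q D.A' D.A' = C.q D.A0 D.A0 := by
  have h : C.q D.A' D.A' = C.q (D.A0 + D.c • α) D.A' := rfl
  rw [h, C.q.map_add, C.q.map_smul, LinearMap.add_apply, LinearMap.smul_apply, hαA' hC hD,
    hC.symm D.A0 D.A', hA'A0 hC hD]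
  simp

theorem posA' : 0 < C.q D.A' D.A' := by
  rw [hA'A' hC hD]
  exact hD.posA0

theorem plane : C.PosPlane D.A' D.A := hC.per_pos _ _ _ hD.per

theorem kahω : C.q D.ω D.A' = 0 ∧ C.q D.ω D.A = 0 ∧ 0 < C.q D.ω D.ω := by
  have h := (hC.kahler_iff _ _ _ hD.per D.ω hD.kah D.ω).1 hD.kah
  exact ⟨h.1, h.2.1, h.2.2.1⟩

theorem orth {s : Vec b} (hs : s ∈ lattice b) (h : C.q s D.A' = 0) :
    C.q s D.A0 = 0 ∧ C.q s α = 0 :=
  irr_orth hC hD.hα hD.hA0 hD.irr hs h

/-- all classes `α + s ω` are Kähler classes of the special member -/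
theorem kahler_add {s : ℝ} (hs : 0 < s) : α + s • D.ω ∈ C.kahler D.j := by
  obtain ⟨h1, h2, h3⟩ := kahω hC hD
  refine (hC.kahler_iff _ _ _ hD.per D.ω hD.kah _).2 ⟨?_, ?_, ?_, ?_, ?_⟩
  · rw [C.q.map_add, C.q.map_smul, LinearMap.add_apply, LinearMap.smul_apply, hαA' hC hD, h1]
    simp
  · rw [C.q.map_add, C.q.map_smul, LinearMap.add_apply, LinearMap.smul_apply, hαA hC hD, h2]
    simp
  · simp only [map_add, map_smul, LinearMap.add_apply, LinearMap.smul_apply, smul_eq_mul, hD.hαα]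
    rw [hC.symm D.ω α]
    have h4 := hD.pos
    have h5 : 0 < s * C.q α D.ω := by positivity
    have h6 : 0 < s * (s * C.q D.ω D.ω) := by positivity
    linarith
  · rw [C.q.map_add, C.q.map_smul, LinearMap.add_apply, LinearMap.smul_apply, smul_eq_mul]
    have h4 := hD.pos
    positivity
  · intro t ht h4 h5 h6
    rw [map_add, map_smul, (orth hC hD (hC.wall_mem t ht) h4).2, zero_add, smul_eq_mul]
    positivity

theorem nef : C.Nef D.j α := by
  have h1 : Tendsto (fun n : ℕ => α + (1 / ((n : ℝ) + 1)) • D.ω) atTop (𝓝 (α + (0 : ℝ) • D.ω)) :=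
    tendsto_const_nhds.add (tendsto_one_div_add_atTop_nhds_zero_nat.smul_const D.ω)
  rw [zero_smul, add_zero] at h1
  refine mem_closure_of_tendsto h1 (Eventually.of_forall fun n => ?_)
  exact kahler_add hC hD (by positivity)

/-- the special member is not projective -/
theorem not_projective {K : Vec b} (hK : K ∈ lattice b) : K ∉ C.kahler D.j := by
  intro hKj
  obtain ⟨h1, h2, h3, -⟩ := (hC.kahler_iff _ _ _ hD.per D.ω hD.kah K).1 hKj
  have h4 := (orth hC hD hK h1).2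
  have h5 := hodge_pos hC (plane hC hD) h1 h2 h3 (hαA' hC hD) (hαA hC hD)
    (by rw [hC.symm]; exact h4) hD.hα0
  rw [hD.hαα] at h5
  exact lt_irrefl _ h5

/-- nef isotropic classes of the special member are proportional to `α` -/
theorem proportional {l : Vec b} (hl : l ∈ lattice b) (hl0 : l ≠ 0) (hll : C.q l l = 0)
    (hnef : C.Nef D.j l) : ∃ p r : ℕ, 0 < p ∧ 0 < r ∧ (p : ℝ) • l = (r : ℝ) • α := by
  obtain ⟨h1, h2, h3⟩ := nef_pos hC hD.per hnef hl0 hD.kah
  have h4 := (orth hC hD hl h1).2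
  have h5 : ∃ a : ℝ, l = a • α := by
    by_contra hcon
    push Not at hcon
    have := hodge_iso hC (plane hC hD) (hαA' hC hD) (hαA hC hD) hD.hαα hD.hα0 h1 h2 h4 hcon
    linarith
  obtain ⟨a, ha⟩ := h5
  have ha0 : 0 < a := by
    rw [ha, C.q.map_smul, LinearMap.smul_apply, smul_eq_mul] at h3
    exact pos_of_mul_pos_left h3 hD.pos.le
  obtain ⟨k, hk⟩ : ∃ k, α k ≠ 0 := by
    by_contra hcon
    push Not at hcon
    exact hD.hα0 (funext hcon)
  obtain ⟨m, hm⟩ := hD.hα k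
  obtain ⟨t, ht⟩ := hl k
  have hm0 : m ≠ 0 := by
    rintro rfl
    apply hk
    rw [hm]
    simp
  have h6 : (t : ℝ) = a * m := by
    rw [← ht, ← hm, ha]
    simp
  have ht0 : t ≠ 0 := by
    rintro rfl
    have hmr : (m : ℝ) ≠ 0 := by exact_mod_cast hm0
    have h7 : a * m = 0 := by rw [← h6]; simp
    rcases mul_eq_zero.1 h7 with h | h
    · exact ha0.ne' h
    · exact hmr h
  refine ⟨m.natAbs, t.natAbs, Int.natAbs_pos.2 hm0, Int.natAbs_pos.2 ht0, ?_⟩
  rw [ha, smul_smul]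
  congr 1
  rw [Nat.cast_natAbs, Nat.cast_natAbs, Int.cast_abs, Int.cast_abs, h6, abs_mul, abs_of_pos ha0]
  ring

end products

end Cusp.Facts

/-- the logarithm `N` of the monodromy: `N v = q(v, α) A₀ - q(v, A₀) α` -/
noncomputable def Cusp.N (D : Cusp C α) : Vec b →ₗ[ℝ] Vec b :=
  (C.q.flip α).smulRight D.A0 - (C.q.flip D.A0).smulRight α

/-- the isotropic class `ω' = ω - (q(ω) / 2 q(α, ω)) α` -/
noncomputable def Cusp.ω' (D : Cusp C α) : Vec b :=
  D.ω - (C.q D.ω D.ω / (2 * C.q α D.ω)) • α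

/-- the real part of `exp (z N) w`, `z = u + i y`, for `N³ = 0` -/
noncomputable def orbRe (N : Vec b →ₗ[ℝ] Vec b) (w : Vec b) (u y : ℝ) : Vec b :=
  w + u • N w + ((u ^ 2 - y ^ 2) / 2) • N (N w)

/-- the imaginary part of `exp (z N) w`, `z = u + i y`, for `N³ = 0` -/
noncomputable def orbIm (N : Vec b →ₗ[ℝ] Vec b) (w : Vec b) (u y : ℝ) : Vec b :=
  y • N w + (u * y) • N (N w)

namespace Cusp.Facts

variable (hC : C.Facts) (hD : D.Facts)

theorem N_apply (D : Cusp C α) (v : Vec b) : D.N v = C.q v α • D.A0 - C.q v D.A0 • α := by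
  simp [Cusp.N]

include hC in
theorem N_skew (v w : Vec b) : C.q (D.N v) w + C.q v (D.N w) = 0 := by
  rw [N_apply, N_apply]
  simp only [map_sub, map_smul, LinearMap.sub_apply, LinearMap.smul_apply, smul_eq_mul]
  rw [hC.symm D.A0 w, hC.symm α w]
  ring

include hC hD

theorem N_lattice {v : Vec b} (hv : v ∈ lattice b) : D.N v ∈ lattice b := by
  obtain ⟨m, hm⟩ := hC.integral v hv α hD.hα
  obtain ⟨l, hl⟩ := hC.integral v hv D.A0 hD.hA0
  rw [N_apply, hm, hl]
  exact (lattice b).sub_mem (lattice_smul hD.hA0 m) (lattice_smul hD.hα l)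

theorem N_α : D.N α = 0 := by
  rw [N_apply, hD.hαα, hαA0 hC hD]
  simp

theorem N_A : D.N D.A = 0 := by
  rw [N_apply, hD.hAα, hD.hAA0]
  simp

theorem N_A0 : D.N D.A0 = -(C.q D.A0 D.A0) • α := by
  rw [N_apply, hD.hA0α]
  simp

theorem N_A' : D.N D.A' = -(C.q D.A0 D.A0) • α := by
  rw [N_apply, hA'α hC hD, hA'A0 hC hD]
  simp

theorem N_cube (v : Vec b) : D.N (D.N (D.N v)) = 0 := by
  have h1 : D.N (D.N v) = C.q v α • D.N D.A0 := by
    rw [N_apply D v, map_sub, map_smul, map_smul, N_α hC hD, smul_zero, sub_zero]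
  rw [h1, N_A0 hC hD, map_smul, map_smul, N_α hC hD]
  simp

theorem ω'_α : C.q D.ω' α = C.q α D.ω := by
  unfold Cusp.ω'
  rw [C.q.map_sub, C.q.map_smul, LinearMap.sub_apply, LinearMap.smul_apply, hD.hαα,
    hC.symm D.ω α]
  simp

theorem ω'_A' : C.q D.ω' D.A' = 0 := by
  unfold Cusp.ω'
  rw [C.q.map_sub, C.q.map_smul, LinearMap.sub_apply, LinearMap.smul_apply,
    (kahω hC hD).1, hαA' hC hD]
  simp

theorem ω'_A : C.q D.ω' D.A = 0 := by
  unfold Cusp.ω'
  rw [C.q.map_sub, C.q.map_smul, LinearMap.sub_apply, LinearMap.smul_apply,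
    (kahω hC hD).2.1, hαA hC hD]
  simp

theorem ω'_iso : C.q D.ω' D.ω' = 0 := by
  have h := hD.pos
  unfold Cusp.ω'
  simp only [map_sub, map_smul, LinearMap.sub_apply, LinearMap.smul_apply, smul_eq_mul, hD.hαα]
  rw [hC.symm D.ω α]
  field_simp
  ring

theorem ω'_A0 : C.q D.ω' D.A0 = -(D.c * C.q α D.ω) := by
  have h := ω'_A' hC hD
  unfold Cusp.A' at h
  rw [map_add, map_smul, ω'_α hC hD, smul_eq_mul] at h
  linarith

theorem N_ω' : D.N D.ω' = C.q α D.ω • D.A' := by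
  rw [N_apply, ω'_α hC hD, ω'_A0 hC hD, Cusp.A', smul_add, smul_smul, neg_smul, sub_neg_eq_add,
    mul_comm D.c]

theorem NN_ω' : D.N (D.N D.ω') = -(C.q α D.ω * C.q D.A0 D.A0) • α := by
  rw [N_ω' hC hD, map_smul, N_A' hC hD, smul_smul]
  congr 1
  ring

/-- `Re exp (z N) ω'` -/
theorem orbRe_eq (u y : ℝ) : orbRe D.N D.ω' u y =
    D.ω' + (u * C.q α D.ω) • D.A' - ((u ^ 2 - y ^ 2) / 2 * (C.q α D.ω * C.q D.A0 D.A0)) • α := by
  rw [orbRe, NN_ω' hC hD, N_ω' hC hD, smul_smul, smul_smul, mul_neg, neg_smul,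
    ← sub_eq_add_neg]

/-- `Im exp (z N) ω'` -/
theorem orbIm_eq (u y : ℝ) : orbIm D.N D.ω' u y =
    (y * C.q α D.ω) • D.A' - (u * y * (C.q α D.ω * C.q D.A0 D.A0)) • α := by
  rw [orbIm, NN_ω' hC hD, N_ω' hC hD, smul_smul, smul_smul, mul_neg, neg_smul,
    ← sub_eq_add_neg]

/-- `1 / s`, as a function of `y` -/
noncomputable def invS (D : Cusp C α) (y : ℝ) : ℝ :=
  y ^ 2 * (C.q α D.ω * C.q D.A0 D.A0) / 2 - C.q D.ω D.ω / (2 * C.q α D.ω)

/-- the period of the rotation: `exp (i y N) ω' = (1 / s) (α + s ω) + i y q(α, ω) A'` -/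
theorem orb_rotation (y : ℝ) : orbRe D.N D.ω' 0 y = D.ω + (invS D y) • α ∧
    orbIm D.N D.ω' 0 y = (y * C.q α D.ω) • D.A' := by
  constructor
  · rw [orbRe_eq hC hD, Cusp.ω', invS]
    simp only [zero_mul, zero_smul, add_zero, sub_smul]
    rw [show ((0 : ℝ) ^ 2 - y ^ 2) / 2 * (C.q α D.ω * C.q D.A0 D.A0) =
      -(y ^ 2 * (C.q α D.ω * C.q D.A0 D.A0) / 2) by ring, neg_smul]
    abel
  · rw [orbIm_eq hC hD]
    simp

theorem q_re_re (u y : ℝ) : C.q (orbRe D.N D.ω' u y) (orbRe D.N D.ω' u y) =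
    y ^ 2 * (C.q α D.ω ^ 2 * C.q D.A0 D.A0) := by
  rw [orbRe_eq hC hD]
  simp only [map_add, map_sub, map_smul, LinearMap.add_apply, LinearMap.sub_apply,
    LinearMap.smul_apply, smul_eq_mul, hD.hαα, ω'_iso hC hD, ω'_A' hC hD, ω'_α hC hD,
    hC.symm α D.ω', hC.symm D.A' D.ω', hαA' hC hD, hA'α hC hD, hA'A' hC hD]
  ring

theorem q_im_im (u y : ℝ) : C.q (orbIm D.N D.ω' u y) (orbIm D.N D.ω' u y) =
    y ^ 2 * (C.q α D.ω ^ 2 * C.q D.A0 D.A0) := by
  rw [orbIm_eq hC hD]
  simp only [map_sub, map_smul, LinearMap.sub_apply,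
    LinearMap.smul_apply, smul_eq_mul, hD.hαα, hαA' hC hD, hA'α hC hD, hA'A' hC hD]
  ring

theorem q_re_im (u y : ℝ) : C.q (orbRe D.N D.ω' u y) (orbIm D.N D.ω' u y) = 0 := by
  rw [orbRe_eq hC hD, orbIm_eq hC hD]
  simp only [map_add, map_sub, map_smul, LinearMap.add_apply, LinearMap.sub_apply,
    LinearMap.smul_apply, smul_eq_mul, hD.hαα, ω'_A' hC hD, ω'_α hC hD, hαA' hC hD,
    hA'α hC hD, hA'A' hC hD]
  ring

theorem q_re_A (u y : ℝ) : C.q (orbRe D.N D.ω' u y) D.A = 0 := by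
  rw [orbRe_eq hC hD]
  simp only [map_add, map_sub, map_smul, LinearMap.add_apply, LinearMap.sub_apply,
    LinearMap.smul_apply, smul_eq_mul, ω'_A hC hD, hαA hC hD, hA'A hC hD]
  ring

theorem q_im_A (u y : ℝ) : C.q (orbIm D.N D.ω' u y) D.A = 0 := by
  rw [orbIm_eq hC hD]
  simp only [map_sub, map_smul, LinearMap.sub_apply,
    LinearMap.smul_apply, smul_eq_mul, hαA hC hD, hA'A hC hD]
  ring

theorem q_re_α (u y : ℝ) : C.q (orbRe D.N D.ω' u y) α = C.q α D.ω := by
  rw [orbRe_eq hC hD]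
  simp only [map_add, map_sub, map_smul, LinearMap.add_apply, LinearMap.sub_apply,
    LinearMap.smul_apply, smul_eq_mul, ω'_α hC hD, hD.hαα, hA'α hC hD]
  ring

theorem q_im_α (u y : ℝ) : C.q (orbIm D.N D.ω' u y) α = 0 := by
  rw [orbIm_eq hC hD]
  simp only [map_sub, map_smul, LinearMap.sub_apply,
    LinearMap.smul_apply, smul_eq_mul, hD.hαα, hA'α hC hD]
  ring

theorem orb_plane (u : ℝ) {y : ℝ} (hy : 0 < y) :
    C.PosPlane (orbRe D.N D.ω' u y) (orbIm D.N D.ω' u y) := by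
  intro s t hst
  have h1 := q_re_re hC hD u y
  have h2 := q_im_im hC hD u y
  have h3 := q_re_im hC hD u y
  have h4 : C.q (orbIm D.N D.ω' u y) (orbRe D.N D.ω' u y) = 0 := by rw [hC.symm, h3]
  have e : C.q (s • orbRe D.N D.ω' u y + t • orbIm D.N D.ω' u y)
      (s • orbRe D.N D.ω' u y + t • orbIm D.N D.ω' u y) =
      (s ^ 2 + t ^ 2) * (y ^ 2 * (C.q α D.ω ^ 2 * C.q D.A0 D.A0)) := by
    simp only [map_add, map_smul, LinearMap.add_apply, LinearMap.smul_apply, smul_eq_mul, h1, h2,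
      h3, h4]
    ring
  rw [e]
  have h5 : 0 < s ^ 2 + t ^ 2 := by
    rcases hst with h | h <;> positivity
  have h6 := hD.pos
  have h7 := hD.posA0
  positivity

/-- no wall meets the nilpotent orbit -/
theorem no_wall : ∃ y₀ : ℝ, 0 < y₀ ∧ ∀ u y : ℝ, y₀ ≤ y → ∀ s ∈ C.S, C.q s D.A = 0 →
    C.q s (orbRe D.N D.ω' u y) = 0 → C.q s (orbIm D.N D.ω' u y) = 0 → False := by
  obtain ⟨K, hK⟩ := hC.wall_bound D.A hD.hA hD.posA
  have hA0 := hD.posA0
  have ha := hD.pos
  refine ⟨(|K| + 1) / C.q D.A0 D.A0 + 1, by positivity, ?_⟩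
  intro u y hy s hs hsA hre him
  have hy1 : 1 ≤ y := le_trans (by
    have : 0 ≤ (|K| + 1) / C.q D.A0 D.A0 := by positivity
    linarith) hy
  have hy0 : 0 < y := by linarith
  have hyK : |K| < y ^ 2 * C.q D.A0 D.A0 := by
    have h1 : (|K| + 1) / C.q D.A0 D.A0 ≤ y := by linarith
    rw [div_le_iff₀ hA0] at h1
    have h2 : y * C.q D.A0 D.A0 ≤ y ^ 2 * C.q D.A0 D.A0 := by
      apply mul_le_mul_of_nonneg_right _ hA0.le
      nlinarith
    linarith
  set a : ℝ := C.q α D.ω with ha'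
  set k : ℝ := C.q D.A0 D.A0 with hk
  set R : Vec b := orbRe D.N D.ω' u y with hR
  set M : Vec b := orbIm D.N D.ω' u y with hM
  have hRR : C.q R R = y ^ 2 * (a ^ 2 * k) := q_re_re hC hD u y
  have hRα : C.q R α = a := q_re_α hC hD u y
  -- the vector `s + t (α - R / (y² a k))`
  obtain ⟨d, hd⟩ := hC.integral s (hC.wall_mem s hs) α hD.hα
  set e : ℝ := 1 / (y ^ 2 * k) with he
  have hepos : 0 < e := by positivity
  set v : Vec b := s + (d / e) • (α - (1 / (y ^ 2 * a * k)) • R) with hv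
  have hαR : C.q α R = a := by rw [hC.symm, hRα]
  have hαM : C.q α M = 0 := by rw [hC.symm]; exact q_im_α hC hD u y
  have hRM : C.q R M = 0 := q_re_im hC hD u y
  have hRA : C.q R D.A = 0 := q_re_A hC hD u y
  have hMA : C.q M D.A = 0 := q_im_A hC hD u y
  have hsα : C.q s α = d := hd
  have hαs : C.q α s = d := by rw [hC.symm]; exact hd
  have hRs : C.q R s = 0 := by rw [hC.symm]; exact hre
  have hvR : C.q v R = 0 := by
    rw [hv]
    simp only [map_add, map_sub, map_smul, LinearMap.add_apply, LinearMap.sub_apply,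
      LinearMap.smul_apply, smul_eq_mul, hre, hαR, hRR]
    field_simp
    ring
  have hvM : C.q v M = 0 := by
    rw [hv]
    simp only [map_add, map_sub, map_smul, LinearMap.add_apply, LinearMap.sub_apply,
      LinearMap.smul_apply, smul_eq_mul, him, hαM, hRM]
    ring
  have hvA : C.q v D.A = 0 := by
    rw [hv]
    simp only [map_add, map_sub, map_smul, LinearMap.add_apply, LinearMap.sub_apply,
      LinearMap.smul_apply, smul_eq_mul, hsA, hαA hC hD, hRA]
    ring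
  have hvv : C.q v v = C.q s s + d ^ 2 / e := by
    rw [hv]
    simp only [map_add, map_sub, map_smul, LinearMap.add_apply, LinearMap.sub_apply,
      LinearMap.smul_apply, smul_eq_mul, hre, hαR, hRα, hRR, hsα, hαs, hRs, hD.hαα]
    rw [he]
    field_simp
    ring
  have hle : C.q v v ≤ 0 := by
    by_cases hv0 : v = 0
    · rw [hv0]
      simp
    · exact (hodge_pos hC (orb_plane hC hD u hy0) (by rw [hC.symm]; exact hRA)
        (by rw [hC.symm]; exact hMA) hD.posA hvR hvM hvA hv0).le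
  have hd0 : d = 0 := by
    by_contra hne
    have h1 : (1 : ℝ) ≤ (d : ℝ) ^ 2 := by
      have h2 : (1 : ℤ) ≤ d ^ 2 := by
        have h3 : 0 < d ^ 2 := by positivity
        omega
      exact_mod_cast h2
    have h2 : y ^ 2 * k ≤ (d : ℝ) ^ 2 / e := by
      rw [he, div_div_eq_mul_div, div_one]
      have : 0 ≤ y ^ 2 * k := by positivity
      nlinarith
    have h3 := hK s hs hsA
    have h4 := le_abs_self K
    linarith
  -- `s` is of type `(1,1)` on the special member and orthogonal to `ω`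
  have hsα0 : C.q s α = 0 := by rw [hsα, hd0]; simp
  have hsA' : C.q s D.A' = 0 := by
    have h1 : C.q s M = y * a * C.q s D.A' := by
      rw [hM, orbIm_eq hC hD, map_sub, map_smul, map_smul, hsα0]
      simp [ha']
    rw [him] at h1
    have h2 : y * a ≠ 0 := by positivity
    rcases mul_eq_zero.1 h1.symm with h | h
    · exact absurd h h2
    · exact h
  have hsω : C.q s D.ω = 0 := by
    have h1 : C.q s R = C.q s D.ω := by
      rw [hR, orbRe_eq hC hD, map_sub, map_add, map_smul, map_smul, hsα0, hsA', Cusp.ω', map_sub,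
        map_smul, hsα0]
      simp
    rw [← h1]
    exact hre
  exact hD.wall s hs hsA' hsA hsω

/-- a linear map which kills `A` and the image of `N` kills `α` and `A'` -/
theorem restriction {V : Type*} [AddCommGroup V] [Module ℝ V] (r : Vec b →ₗ[ℝ] V)
    (hN : ∀ v, r (D.N v) = 0) : r α = 0 ∧ r D.A' = 0 := by
  have h1 := hN D.A0
  rw [N_A0 hC hD, map_smul] at h1
  have h2 := hN D.ω'
  rw [N_ω' hC hD, map_smul] at h2
  constructor
  · rcases smul_eq_zero.1 h1 with h | h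
    · have := hD.posA0
      linarith
    · exact h
  · rcases smul_eq_zero.1 h2 with h | h
    · have := hD.pos
      linarith
    · exact h

end Cusp.Facts

end LData

end Pool.Agent.SYM.Lat
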