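import Pool.Agent.SYM.Pub
import Pool.Agent.SYM.Orbit

/-!
# SYM/LatMain : the lattice part, for the data of `Fam`
-/

set_option autoImplicit false

open Module Filter Topology

namespace Pool.Agent.SYM.Fam

variable {n b : ℕ} (C : Fam n b)

/-- The lattice data of a `Fam`. -/
def toLat (hL : C.LatticeAxioms) : Lat.LData b where
  q := LinearMap.mk₂ ℝ C.q hL.q_add hL.q_smul
    (fun x y z => by rw [hL.symm, hL.q_add, hL.symm y, hL.symm z])
    (fun c x y => by rw [hL.symm, hL.q_smul, hL.symm y]; rfl)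
  S := C.S
  I := C.I
  per := C.per
  kahler := C.kahler

theorem toLat_q (hL : C.LatticeAxioms) (x y : Vec b) : (C.toLat hL).q x y = C.q x y := rfl

theorem toLat_gram (hL : C.LatticeAxioms) (x y A x' y' B : Vec b) :
    (C.toLat hL).gram x y A x' y' B = (C.gram x y A x' y' B).det := by
  rw [Lat.LData.gram, Matrix.det_fin_three, Matrix.det_fin_three]
  rfl

theorem toLat_facts (hL : C.LatticeAxioms) (hK : C.KahlerAxioms) : (C.toLat hL).Facts where
  symm := hL.symm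
  integral := fun x hx y hy => hL.integral x y hx hy
  signature := hL.signature
  wall_mem := fun s hs => (hK.wall s hs).1
  wall_sq := fun s hs => (hK.wall s hs).2
  wall_bound := fun A hA hpos => hK.wall_bound A hA hpos
  per_exists := hK.per_exists
  per_pos := hK.per_pos
  kahler_nonempty := hK.kahler_nonempty
  kahler_iff := by
    intro i x y hp A hA B
    refine (hK.kahler_iff i x y hp A hA B).trans ?_
    constructor
    · rintro ⟨⟨h1, h2⟩, h3, h4, h5⟩
      exact ⟨h1, h2, h3, h4, fun s hs hsx hsy => h5 s hs ⟨hsx, hsy⟩⟩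
    · rintro ⟨h1, h2, h3, h4, h5⟩
      exact ⟨⟨h1, h2⟩, h3, h4, fun s hs hs' => h5 s hs hs'.1 hs'.2⟩
  period := by
    intro i x y hp A hA x' y' B hpos h1 h2 h3 h4 h5
    rw [C.toLat_gram hL] at h4
    exact hK.period i x y hp A hA x' y' B hpos ⟨h1, h2⟩ h3 h4
      (fun s hs hs' => h5 s hs hs'.1 hs'.2)

/-- The special member and the rotations of its hyperkähler structures. -/
theorem lat_main (hL : C.LatticeAxioms) (hK : C.KahlerAxioms)
    (hY : ∀ i x y κ, C.per i x y → κ ∈ C.kahler i → C.q x y = 0 → C.q x x = C.q κ κ →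
      C.q y y = C.q κ κ → ∃ h, C.mem h = i ∧ C.cls h 0 = κ ∧ C.cls h 1 = x ∧ C.cls h 2 = y)
    {i : C.I} {α : Vec b} (hα : IsIntegral α) (hα0 : α ≠ 0) (hαα : C.q α α = 0)
    (hnef : C.Nef i α) :
    ∃ (A A₀ ω : Vec b) (j : C.I) (y₀ : ℝ) (h : ℕ → C.HK) (y t : ℕ → ℝ),
      IsIntegral A ∧ IsIntegral A₀ ∧ C.q α A = 0 ∧ C.q α A₀ = 0 ∧ C.q A A₀ = 0 ∧
      0 < C.q A A ∧ 0 < C.q A₀ A₀ ∧ C.q ω ω = 0 ∧ C.q ω A = 0 ∧ 0 < C.q α ω ∧
      C.Nef j α ∧ ¬ C.Projective j ∧
      (∀ l, IsIntegral l → l ≠ 0 → C.q l l = 0 → C.Nef j l →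
        ∃ p r : ℕ, 1 ≤ p ∧ 1 ≤ r ∧ (p : ℝ) • l = (r : ℝ) • α) ∧
      (∀ u y, y₀ ≤ y → ∀ s ∈ C.S, C.q s A = 0 →
        ¬ C.Type11 (C.orbRe α A₀ ω u y) (C.orbIm α A₀ ω u y) s) ∧
      Tendsto y atTop atTop ∧
      ∀ k, C.mem (h k) = j ∧ 0 < t k ∧ C.cls (h k) 0 = C.orbRe α A₀ ω 0 (y k) ∧
        C.cls (h k) 1 = t k • A ∧ C.cls (h k) 2 = -C.orbIm α A₀ ω 0 (y k) := by
  have hF := C.toLat_facts hL hK
  obtain ⟨D, hD⟩ := Lat.LData.exists_cusp hF i (α := α) hα hα0 hαα hnef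
  obtain ⟨y₀, hy₀, hwall⟩ := Lat.LData.Cusp.Facts.no_wall hF hD
  have hN : ∀ x, C.nil α D.A0 x = D.N x := by
    intro x
    rw [Lat.LData.Cusp.Facts.N_apply]
    change C.q α x • D.A0 - C.q D.A0 x • α = C.q x α • D.A0 - C.q x D.A0 • α
    rw [hL.symm α x, hL.symm D.A0 x]
  have hRe : ∀ u y, C.orbRe α D.A0 D.ω' u y = Lat.LData.orbRe D.N D.ω' u y := by
    intro u y
    rw [Fam.orbRe, Lat.LData.orbRe, hN, hN]
  have hIm : ∀ u y, C.orbIm α D.A0 D.ω' u y = Lat.LData.orbIm D.N D.ω' u y := by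
    intro u y
    rw [Fam.orbIm, Lat.LData.orbIm, hN, hN]
  -- the parameter `y`
  have ha : 0 < C.q α D.ω := hD.pos
  have hk : 0 < C.q D.A0 D.A0 := hD.posA0
  have hA : 0 < C.q D.A D.A := hD.posA
  set a : ℝ := C.q α D.ω with ha'
  set κ₀ : ℝ := C.q D.A0 D.A0 with hκ₀
  set c₀ : ℝ := C.q D.ω D.ω with hc₀
  set Y : ℝ := |c₀| / (a * (a * κ₀)) + 1 with hY'
  have hYpos : 0 < Y := by positivity
  have hinv : ∀ y, Y ≤ y → 0 < Lat.LData.Cusp.Facts.invS D y := by
    intro y hy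
    have e : Lat.LData.Cusp.Facts.invS D y = y ^ 2 * (a * κ₀) / 2 - c₀ / (2 * a) := rfl
    rw [e, sub_pos, div_lt_div_iff₀ (by positivity) (by norm_num)]
    have h1 : 1 ≤ y := le_trans (by
      have : 0 ≤ |c₀| / (a * (a * κ₀)) := by positivity
      linarith) hy
    have h2 : |c₀| / (a * (a * κ₀)) < y := by linarith
    rw [div_lt_iff₀ (by positivity)] at h2
    have h3 := le_abs_self c₀
    have h4 : y * (a * (a * κ₀)) ≤ y ^ 2 * (a * (a * κ₀)) := by
      apply mul_le_mul_of_nonneg_right _ (by positivity)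
      nlinarith
    nlinarith
  -- the hyperkähler structures
  have hex : ∀ y, Y ≤ y → ∃ h : C.HK, ∃ t : ℝ, C.mem h = D.j ∧ 0 < t ∧
      C.cls h 0 = C.orbRe α D.A0 D.ω' 0 y ∧ C.cls h 1 = t • D.A ∧
      C.cls h 2 = -C.orbIm α D.A0 D.ω' 0 y := by
    intro y hy
    have hypos : 0 < y := lt_of_lt_of_le hYpos hy
    obtain ⟨hre, him⟩ := Lat.LData.Cusp.Facts.orb_rotation hF hD y
    have hs := hinv y hy
    set s : ℝ := Lat.LData.Cusp.Facts.invS D y with hs'
    have hkah : C.orbRe α D.A0 D.ω' 0 y ∈ C.kahler D.j := by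
      rw [hRe, hre]
      have h1 := Lat.LData.Cusp.Facts.kahler_add hF hD (inv_pos.2 hs)
      have h2 : D.ω + s • α = s • (α + s⁻¹ • D.ω) := by
        rw [smul_add, smul_smul, mul_inv_cancel₀ hs.ne', one_smul, add_comm]
      rw [h2]
      set B : Vec b := α + s⁻¹ • D.ω with hB
      have h3 := (hF.kahler_iff _ _ _ hD.per B h1 B).1 h1
      refine (hF.kahler_iff _ _ _ hD.per B h1 _).2 ⟨?_, ?_, ?_, ?_, ?_⟩
      · rw [(C.toLat hL).q.map_smul, LinearMap.smul_apply, h3.1, smul_zero]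
      · rw [(C.toLat hL).q.map_smul, LinearMap.smul_apply, h3.2.1, smul_zero]
      · rw [(C.toLat hL).q.map_smul, LinearMap.smul_apply, map_smul, smul_eq_mul, smul_eq_mul]
        have := h3.2.2.1
        positivity
      · rw [(C.toLat hL).q.map_smul, LinearMap.smul_apply, smul_eq_mul]
        have := h3.2.2.1
        positivity
      · intro w hw hw1 hw2 hw3
        rw [map_smul, smul_eq_mul]
        positivity
    have hqq : C.q (C.orbRe α D.A0 D.ω' 0 y) (C.orbRe α D.A0 D.ω' 0 y) =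
        y ^ 2 * (a ^ 2 * κ₀) := by
      rw [hRe]
      exact Lat.LData.Cusp.Facts.q_re_re hF hD 0 y
    set t : ℝ := y * a * Real.sqrt (κ₀ / C.q D.A D.A) with ht
    have htpos : 0 < t := by positivity
    have htt : t ^ 2 * C.q D.A D.A = y ^ 2 * (a ^ 2 * κ₀) := by
      rw [ht, mul_pow, Real.sq_sqrt (by positivity)]
      field_simp
    have hper : C.per D.j (t • D.A) (-C.orbIm α D.A0 D.ω' 0 y) := by
      have h1 := hK.per_basis D.j D.A' D.A hD.per 0 t (-(y * a)) 0 (by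
        have : 0 < t * (y * a) := by positivity
        linarith)
      have e1 : (0 : ℝ) • D.A' + t • D.A = t • D.A := by rw [zero_smul, zero_add]
      have e2 : (-(y * a)) • D.A' + (0 : ℝ) • D.A = -C.orbIm α D.A0 D.ω' 0 y := by
        rw [zero_smul, add_zero, hIm, him, neg_smul]
        rfl
      rw [e1, e2] at h1
      exact h1
    have hAA' : C.q D.A D.A' = 0 := Lat.LData.Cusp.Facts.hAA' hF hD
    have hA'A' : C.q D.A' D.A' = κ₀ := Lat.LData.Cusp.Facts.hA'A' hF hD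
    obtain ⟨h, h1, h2, h3, h4⟩ := hY D.j (t • D.A) (-C.orbIm α D.A0 D.ω' 0 y)
      (C.orbRe α D.A0 D.ω' 0 y) hper hkah (by
        have h5 : C.q D.A (C.orbIm α D.A0 D.ω' 0 y) = 0 := by
          rw [hL.symm, hIm]
          exact Lat.LData.Cusp.Facts.q_im_A hF hD 0 y
        have h6 : (C.toLat hL).q (t • D.A) (-C.orbIm α D.A0 D.ω' 0 y) = 0 := by
          rw [(C.toLat hL).q.map_smul, LinearMap.smul_apply, map_neg, C.toLat_q hL, h5]
          simp
        exact h6) (by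
        rw [hqq]
        have h6 : (C.toLat hL).q (t • D.A) (t • D.A) = t ^ 2 * C.q D.A D.A := by
          rw [(C.toLat hL).q.map_smul, LinearMap.smul_apply, map_smul, C.toLat_q hL, smul_eq_mul,
            smul_eq_mul]
          ring
        rw [← htt]
        exact h6) (by
        rw [hqq]
        have h6 : (C.toLat hL).q (-C.orbIm α D.A0 D.ω' 0 y) (-C.orbIm α D.A0 D.ω' 0 y) =
            (C.toLat hL).q (C.orbIm α D.A0 D.ω' 0 y) (C.orbIm α D.A0 D.ω' 0 y) := by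
          rw [(C.toLat hL).q.map_neg, LinearMap.neg_apply, map_neg, neg_neg]
        refine Eq.trans h6 ?_
        rw [hIm]
        exact Lat.LData.Cusp.Facts.q_im_im hF hD 0 y)
    exact ⟨h, t, h1, htpos, h2, h3, h4⟩
  choose h t hh using fun k : ℕ => hex (Y + k) (by
    have : (0 : ℝ) ≤ k := Nat.cast_nonneg k
    linarith)
  refine ⟨D.A, D.A0, D.ω', D.j, y₀, h, fun k => Y + k, t, hD.hA, hD.hA0,
    Lat.LData.Cusp.Facts.hαA hF hD, Lat.LData.Cusp.Facts.hαA0 hF hD, hD.hAA0, hA, hk,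
    Lat.LData.Cusp.Facts.ω'_iso hF hD, Lat.LData.Cusp.Facts.ω'_A hF hD, ?_,
    Lat.LData.Cusp.Facts.nef hF hD, ?_, ?_, ?_, ?_, hh⟩
  · rw [hL.symm]
    have := Lat.LData.Cusp.Facts.ω'_α hF hD
    have h1 : C.q D.ω' α = a := this
    rw [h1]
    exact ha
  · rintro ⟨K, hK1, hK2⟩
    exact Lat.LData.Cusp.Facts.not_projective hF hD hK2 hK1
  · intro l hl hl0 hll hln
    exact Lat.LData.Cusp.Facts.proportional hF hD hl hl0 hll hln
  · intro u y hy s hs hsA hty
    have h1 := hty.1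
    have h2 := hty.2
    rw [hRe] at h1
    rw [hIm] at h2
    exact hwall u y hy s hs hsA h1 h2
  · exact tendsto_atTop_add_const_left _ _ tendsto_natCast_atTop_atTop

end Pool.Agent.SYM.Fam
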