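import Mathlib

/-!
# SYM/LagComplex : a subspace that is Lagrangian for `ω_J` and `ω_K` is `I`-complex

`W` is a real vector space of finite dimension with a non-degenerate symmetric form `g` that is
definite (an inner product), `J`, `K` are `g`-isometries, `J² = -1`, `I = J K`, `V ⊆ W` has half the
dimension and the forms `g(J u, v)`, `g(K u, v)` vanish on `V`. Then `I V ⊆ V`.
-/

set_option autoImplicit false

open Module

namespace Pool.Agent.SYM

section Inner

variable {W : Type*} [NormedAddCommGroup W] [InnerProductSpace ℝ W] [FiniteDimensional ℝ W]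

theorem complex_of_lagrangian (I J K : W →ₗ[ℝ] W) (hJJ : ∀ x, J (J x) = -x)
    (hI : ∀ x, I x = J (K x)) (V : Submodule ℝ W) (hV : finrank ℝ W = 2 * finrank ℝ V)
    (hωJ : ∀ u ∈ V, ∀ v ∈ V, inner ℝ (J u) v = 0)
    (hωK : ∀ u ∈ V, ∀ v ∈ V, inner ℝ (K u) v = 0) : ∀ v ∈ V, I v ∈ V := by
  have hinj : Function.Injective J := by
    intro x y hxy
    have h : J (J x) = J (J y) := by rw [hxy]
    rw [hJJ, hJJ] at h
    exact neg_injective h
  have hsub : V.map J ≤ Vᗮ := by
    rintro _ ⟨u, hu, rfl⟩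
    rw [Submodule.mem_orthogonal']
    exact fun v hv => hωJ u hu v hv
  have hdim : finrank ℝ (V.map J) = finrank ℝ V :=
    (LinearEquiv.finrank_eq (Submodule.equivMapOfInjective J hinj V)).symm
  have hperp : finrank ℝ V + finrank ℝ Vᗮ = finrank ℝ W := V.finrank_add_finrank_orthogonal
  have heq : V.map J = Vᗮ := Submodule.eq_of_le_of_finrank_eq hsub (by omega)
  intro v hv
  have hK : K v ∈ Vᗮ := by
    rw [Submodule.mem_orthogonal']
    exact fun u hu => hωK v hv u hu
  rw [← heq] at hK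
  obtain ⟨u, hu, hJu⟩ := hK
  rw [hI, ← hJu, hJJ]
  exact V.neg_mem hu

end Inner

/-- The same for a positive definite symmetric bilinear form given as a plain function. -/
theorem complex_of_lagrangian' {W : Type*} [AddCommGroup W] [Module ℝ W] [FiniteDimensional ℝ W]
    (g : W →ₗ[ℝ] W →ₗ[ℝ] ℝ) (hsymm : ∀ x y, g x y = g y x) (hpos : ∀ x, x ≠ 0 → 0 < g x x)
    (I J K : W →ₗ[ℝ] W) (hJJ : ∀ x, J (J x) = -x)
    (hI : ∀ x, I x = J (K x)) (V : Submodule ℝ W) (hV : finrank ℝ W = 2 * finrank ℝ V)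
    (hωJ : ∀ u ∈ V, ∀ v ∈ V, g (J u) v = 0)
    (hωK : ∀ u ∈ V, ∀ v ∈ V, g (K u) v = 0) : ∀ v ∈ V, I v ∈ V := by
  have hinj : Function.Injective J := by
    intro x y hxy
    have h : J (J x) = J (J y) := by rw [hxy]
    rw [hJJ, hJJ] at h
    exact neg_injective h
  have hnd : LinearMap.BilinForm.Nondegenerate g := by
    constructor
    · intro x hx
      by_contra h
      exact (hpos x h).ne' (hx x)
    · intro x hx
      by_contra h
      exact (hpos x h).ne' (hx x)
  have hrefl : LinearMap.BilinForm.IsRefl g := fun x y h => by rw [hsymm]; exact h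
  set P : Submodule ℝ W := LinearMap.BilinForm.orthogonal g V with hP
  have hmem : ∀ x, x ∈ P ↔ ∀ v ∈ V, g v x = 0 := fun x => LinearMap.BilinForm.mem_orthogonal_iff
  have hsub : V.map J ≤ P := by
    rintro _ ⟨u, hu, rfl⟩
    rw [hmem]
    intro v hv
    rw [hsymm]
    exact hωJ u hu v hv
  have hdim : finrank ℝ (V.map J) = finrank ℝ V :=
    (LinearEquiv.finrank_eq (Submodule.equivMapOfInjective J hinj V)).symm
  have hperp : finrank ℝ P = finrank ℝ W - finrank ℝ V :=
    LinearMap.BilinForm.finrank_orthogonal hnd V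
  have heq : V.map J = P := Submodule.eq_of_le_of_finrank_eq hsub (by omega)
  intro v hv
  have hK : K v ∈ P := by
    rw [hmem]
    intro u hu
    rw [hsymm]
    exact hωK v hv u hu
  rw [← heq] at hK
  obtain ⟨u, hu, hJu⟩ := hK
  rw [hI, ← hJu, hJJ]
  exact V.neg_mem hu

end Pool.Agent.SYM
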