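import Pool.Agent.SYM.Pub
import Pool.Agent.SYM.LagComplex

/-!
# SYM/Second : from the two-sided bound on large balls of the chart to the Lagrangian torus
-/

set_option autoImplicit false

open MeasureTheory Set Filter Topology Module

namespace Pool.Agent.SYM

variable {n : ℕ}

/-- The linear maps of a linear hyperkähler structure. -/
theorem FlatTriple.bundle {o : Fin 3 → CV n → CV n → ℝ} (ho : FlatTriple o) :
    ∃ (g : CV n →ₗ[ℝ] CV n →ₗ[ℝ] ℝ) (Q : Fin 3 → CV n →ₗ[ℝ] CV n),
      (∀ u v, g u v = g v u) ∧ (∀ u, u ≠ 0 → 0 < g u u) ∧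
      (∀ a u, Q a (Q a u) = -u) ∧ (∀ u, Q 0 u = Q 1 (Q 2 u)) ∧
      (∀ u, Q 1 u = Complex.I • u) ∧ (∀ a u v, g (Q a u) (Q a v) = g u v) ∧
      ∀ a u v, o a u v = g (Q a u) v := by
  obtain ⟨g, Q, h, ho⟩ := ho
  refine ⟨LinearMap.mk₂ ℝ g h.g_add h.g_smul
    (fun u v w => by rw [h.g_symm, h.g_add, h.g_symm v, h.g_symm w])
    (fun c u v => by rw [h.g_symm, h.g_smul, h.g_symm v]; rfl),
    fun a => { toFun := Q a, map_add' := h.Q_add a, map_smul' := h.Q_smul a },
    h.g_symm, h.g_pos, h.Q_sq, h.I_eq, h.J_eq, h.isometry, ho⟩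

theorem FlatTriple.self_zero {o : Fin 3 → CV n → CV n → ℝ} (ho : FlatTriple o) (a : Fin 3)
    (u : CV n) : o a u u = 0 := by
  obtain ⟨g, Q, hs, hp, hQ, -, -, hiso, ho⟩ := ho.bundle
  have h1 : g (Q a u) u = - g (Q a u) u := by
    have h2 := hiso a (Q a u) u
    rw [hQ, map_neg, LinearMap.neg_apply, hs u (Q a u)] at h2
    linarith
  rw [ho]
  linarith

theorem IsHKTripleOn.translate {U : Set (CV n)} {τ : Fin 3 → CV n → CV n → CV n → ℝ}
    (hτ : IsHKTripleOn U τ) (w : CV n) (r : ℝ) (hw : Metric.ball w r ⊆ U) :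
    IsHKTripleOn (Metric.ball 0 r) (fun c u => τ c (w + u)) := by
  have hmem : ∀ u ∈ Metric.ball (0 : CV n) r, w + u ∈ U := by
    intro u hu
    apply hw
    rw [Metric.mem_ball, dist_eq_norm, add_sub_cancel_left]
    rwa [mem_ball_zero_iff] at hu
  refine ⟨fun u hu => hτ.triple _ (hmem u hu), fun a u v => ?_, fun a u hu x y z => ?_⟩
  · exact (hτ.smooth a u v).comp (contDiff_const.add contDiff_id).contDiffOn hmem
  · have h := hτ.closed a (w + u) (hmem u hu) x y z
    have e1 : ∀ x y : CV n, fderiv ℝ (fun z => τ a (w + z) x y) u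
        = fderiv ℝ (fun z => τ a z x y) (w + u) := fun x y =>
      fderiv_comp_add_left (f := fun z => τ a z x y) w
    rw [e1, e1, e1]
    exact h

theorem finrank_CV (n : ℕ) : finrank ℝ (CV n) = 2 * (2 * n) := by
  rw [Module.finrank_pi_fintype]
  simp [Complex.finrank_real_complex, mul_comm]

noncomputable def imagEquiv (n : ℕ) : (Fin (2 * n) → ℝ) ≃ₗ[ℝ] imagSpace n where
  toFun x := ⟨fun j => (x j : ℂ) * Complex.I, fun j => by simp⟩
  invFun v := fun j => ((v : CV n) j).im
  left_inv x := by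
    funext j
    simp
  right_inv v := by
    apply Subtype.ext
    funext j
    apply Complex.ext
    · simp [v.2 j]
    · simp
  map_add' x y := by
    apply Subtype.ext
    funext j
    simp [add_mul]
  map_smul' c x := by
    apply Subtype.ext
    funext j
    simp [mul_assoc]

theorem finrank_imagSpace (n : ℕ) : finrank ℝ (imagSpace n) = 2 * n := by
  rw [← (imagEquiv n).finrank_eq]
  simp

theorem imagSpace_sum {u : CV n} (hu : u ∈ imagSpace n) :
    u = ∑ j, (u j).im • (Complex.I • basisVec n j) := by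
  funext i
  rw [Finset.sum_apply]
  rw [Finset.sum_eq_single i]
  · apply Complex.ext
    · simp [basisVec, hu i]
    · simp [basisVec]
  · intro j _ hji
    simp [basisVec, hji.symm]
  · intro h
    exact absurd (Finset.mem_univ _) h

theorem norm_I_basisVec (j : Fin (2 * n)) : ‖Complex.I • basisVec n j‖ = 1 := by
  rw [norm_smul, Complex.norm_I, one_mul, basisVec]
  simp [Pi.norm_single]

theorem period_point_mem (w : CV n) (j l : Fin (2 * n)) (hjl : j ≠ l) {s t : ℝ}
    (hs : s ∈ Icc (0 : ℝ) (2 * Real.pi)) (ht : t ∈ Icc (0 : ℝ) (2 * Real.pi)) :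
    w + ((s : ℂ) * Complex.I) • basisVec n j + ((t : ℂ) * Complex.I) • basisVec n l
      ∈ Metric.ball w 8 := by
  have hpi : 2 * Real.pi < 8 := by
    have := Real.pi_lt_d2
    linarith
  rw [Metric.mem_ball, dist_eq_norm, add_assoc, add_sub_cancel_left]
  refine (pi_norm_lt_iff (by norm_num)).2 fun i => ?_
  rw [Pi.add_apply, Pi.smul_apply, Pi.smul_apply, basisVec, basisVec, Pi.single_apply,
    Pi.single_apply]
  by_cases h1 : i = j
  · subst h1
    rw [if_pos rfl, if_neg hjl]
    simp only [smul_eq_mul, mul_one, mul_zero, add_zero, norm_mul, Complex.norm_I,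
      Complex.norm_real, Real.norm_eq_abs]
    rw [abs_of_nonneg hs.1]
    exact lt_of_le_of_lt hs.2 hpi
  · rw [if_neg h1]
    by_cases h2 : i = l
    · subst h2
      rw [if_pos rfl]
      simp only [smul_eq_mul, mul_one, mul_zero, zero_add, norm_mul, Complex.norm_I,
        Complex.norm_real, Real.norm_eq_abs]
      rw [abs_of_nonneg ht.1]
      exact lt_of_le_of_lt ht.2 hpi
    · rw [if_neg h2]
      simp

/-- If a form without periods is close to a constant form, then the constant form is small on the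
tangent space of the torus. -/
theorem const_le_of_period {τ : CV n → CV n → CV n → ℝ} {o : CV n → CV n → ℝ} {w : CV n} {ε : ℝ}
    {j l : Fin (2 * n)} (hjl : j ≠ l)
    (hc : ContinuousOn (fun z => τ z (Complex.I • basisVec n j) (Complex.I • basisVec n l))
      (Metric.ball w 8))
    (hτ : ∀ z ∈ Metric.ball w 8, ∀ u v, |τ z u v - o u v| ≤ ε * ‖u‖ * ‖v‖)
    (hp : period τ w j l = 0) :
    |o (Complex.I • basisVec n j) (Complex.I • basisVec n l)| ≤ ε := by
  set S : Set (ℝ × ℝ) := Icc (0 : ℝ) (2 * Real.pi) ×ˢ Icc (0 : ℝ) (2 * Real.pi) with hS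
  set c := o (Complex.I • basisVec n j) (Complex.I • basisVec n l) with hcdef
  set F : ℝ × ℝ → CV n := fun p =>
    w + ((p.1 : ℂ) * Complex.I) • basisVec n j + ((p.2 : ℂ) * Complex.I) • basisVec n l with hF
  have hFc : Continuous F := by
    rw [hF]
    fun_prop
  have hSF : MapsTo F S (Metric.ball w 8) := fun p hp => period_point_mem w j l hjl hp.1 hp.2
  have hcomp : IsCompact S := isCompact_Icc.prod isCompact_Icc
  have hfc : ContinuousOn (fun p => τ (F p) (Complex.I • basisVec n j)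
      (Complex.I • basisVec n l)) S := hc.comp hFc.continuousOn hSF
  have hint := hfc.integrableOn_compact (μ := volume) hcomp
  have hSm : MeasurableSet S := measurableSet_Icc.prod measurableSet_Icc
  have hvol : (volume : Measure (ℝ × ℝ)).real S = (2 * Real.pi) ^ 2 := by
    rw [hS, Measure.volume_eq_prod, measureReal_def, Measure.prod_prod, Real.volume_Icc]
    rw [ENNReal.toReal_mul, ENNReal.toReal_ofReal (by have := Real.pi_pos; linarith)]
    ring
  have hfin : volume S ≠ ⊤ := hcomp.measure_lt_top.ne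
  have h1 : ∫ p in S, (τ (F p) (Complex.I • basisVec n j) (Complex.I • basisVec n l) - c)
      = - ((2 * Real.pi) ^ 2 * c) := by
    rw [integral_sub hint (integrableOn_const hfin)]
    have h2 : ∫ p in S, τ (F p) (Complex.I • basisVec n j) (Complex.I • basisVec n l) = 0 := hp
    rw [h2, setIntegral_const, hvol, smul_eq_mul, zero_sub]
  have h3 : ‖∫ p in S, (τ (F p) (Complex.I • basisVec n j) (Complex.I • basisVec n l) - c)‖
      ≤ ε * (volume : Measure (ℝ × ℝ)).real S := by
    refine norm_setIntegral_le_of_norm_le_const hcomp.measure_lt_top fun p hp => ?_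
    rw [Real.norm_eq_abs]
    have h4 := hτ (F p) (hSF hp) (Complex.I • basisVec n j) (Complex.I • basisVec n l)
    rwa [norm_I_basisVec, norm_I_basisVec, mul_one, mul_one] at h4
  rw [h1, norm_neg, norm_mul, hvol, Real.norm_eq_abs, Real.norm_eq_abs,
    abs_of_pos (by have := Real.pi_pos; positivity), mul_comm ε] at h3
  exact le_of_mul_le_mul_left h3 (by have := Real.pi_pos; positivity)

namespace Fam

variable {b : ℕ} {C : Fam n b}

/-- The core gives, on balls of the chart with radii tending to infinity, a bound for the metric;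
since `ω_J` and `ω_K` have no periods on the tori of the chart, the limit is a constant
hyperkähler triple for which these tori are complex Lagrangian for `I`. -/
theorem LogModel.exists_torus (hC : C.MetricAxioms) (Q : C.LogModel) (h : ℕ → C.HK) (A : Vec b)
    (N : Vec b → Vec b) (B a : ℝ) (hF : Q.Facts h A N B a)
    (hres : ∀ k j l, Q.res k (C.cls (h k) 1) j l = 0 ∧ Q.res k (C.cls (h k) 2) j l = 0)
    (hcore : ∃ K : ℝ, ∀ r : ℝ, 0 < r → ∀ᶠ k in atTop, ∃ w ∈ Q.deg.W k,
      Metric.ball w r ⊆ Q.deg.U k ∧ ∀ u ∈ Metric.ball w r, Q.deg.G k u ≤ K) :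
    ∃ k, C.LagTorus (C.mem (h k)) := by
  obtain ⟨K, hK⟩ := hcore
  have hex : ∀ j : ℕ, ∃ k w, Metric.ball w ((j : ℝ) + 1) ⊆ Q.deg.U k ∧
      ∀ u ∈ Metric.ball w ((j : ℝ) + 1), Q.deg.G k u ≤ K := by
    intro j
    obtain ⟨k, w, -, h1, h2⟩ := (hK ((j : ℝ) + 1) (by positivity)).exists
    exact ⟨k, w, h1, h2⟩
  choose k w hU hG using hex
  have hmem : ∀ j : ℕ, ∀ u ∈ Metric.ball (0 : CV n) ((j : ℝ) + 1),
      w j + u ∈ Metric.ball (w j) ((j : ℝ) + 1) := by
    intro j u hu
    rw [Metric.mem_ball, dist_eq_norm, add_sub_cancel_left]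
    rwa [mem_ball_zero_iff] at hu
  have htri : ∀ j, IsHKTripleOn (Q.deg.U j) (Q.om j) := fun j =>
    hC.chart_facts _ _ _ _ (hF.chart j)
  obtain ⟨o, ho, s, hs, hconv⟩ := hC.liouville K a hF.facts.a_pos (fun j => (j : ℝ) + 1)
    (tendsto_atTop_add_const_right _ _ tendsto_natCast_atTop_atTop)
    (fun j c u => Q.om (k j) c (w j + u))
    (fun j => (htri (k j)).translate (w j) _ (hU j))
    (fun j u hu v => by
      refine (hF.G_bound (k j) _ (hU j (hmem j u hu)) v).trans ?_
      exact mul_le_mul_of_nonneg_right (hG j _ (hmem j u hu)) (by positivity))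
    (fun j u hu => hF.vol_low (k j) _ (hU j (hmem j u hu)))
  -- closeness on the ball of radius 8
  have hclose : ∀ ε : ℝ, 0 < ε → ∃ j, Metric.ball (w j) 8 ⊆ Q.deg.U (k j) ∧
      ∀ z ∈ Metric.ball (w j) 8, ∀ c u v, |Q.om (k j) c z u v - o c u v| ≤ ε * ‖u‖ * ‖v‖ := by
    intro ε hε
    obtain ⟨j, hj1, hj2⟩ := ((hconv 8 ε hε).and (eventually_ge_atTop 8)).exists
    refine ⟨s j, ?_, fun z hz c u v => ?_⟩
    · refine Subset.trans (Metric.ball_subset_ball ?_) (hU (s j))
      have h1 : j ≤ s j := hs.id_le j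
      have h2 : (8 : ℝ) ≤ (s j : ℝ) := by exact_mod_cast hj2.trans h1
      linarith
    · have h1 := hj1 (z - w (s j)) (by
        rw [mem_ball_zero_iff, ← dist_eq_norm]
        exact hz) c u v
      rwa [add_sub_cancel] at h1
  have hper : ∀ j : ℕ, Metric.ball (w j) 8 ⊆ Q.deg.U (k j) → ∀ i l, i ≠ l →
      period (Q.om (k j) 1) (w j) i l = 0 ∧ period (Q.om (k j) 2) (w j) i l = 0 := by
    intro j hj i l hil
    have hw : w j ∈ Q.deg.U (k j) := hj (Metric.mem_ball_self (by norm_num))
    rw [hF.res_om (k j) 1 (w j) hw i l hil, hF.res_om (k j) 2 (w j) hw i l hil]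
    exact hres (k j) i l
  -- the constant forms vanish on the tangent space of the torus
  have hzero : ∀ c : Fin 3, c = 1 ∨ c = 2 → ∀ i l : Fin (2 * n),
      o c (Complex.I • basisVec n i) (Complex.I • basisVec n l) = 0 := by
    intro c hc i l
    by_cases hil : i = l
    · subst hil
      exact ho.self_zero c _
    · have hle : ∀ ε : ℝ, 0 < ε →
          |o c (Complex.I • basisVec n i) (Complex.I • basisVec n l)| ≤ ε := by
        intro ε hε
        obtain ⟨j, hj1, hj2⟩ := hclose ε hε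
        refine const_le_of_period (τ := Q.om (k j) c) hil ?_ (fun z hz u v => hj2 z hz c u v) ?_
        · exact ((htri (k j)).smooth c _ _).continuousOn.mono hj1
        · rcases hc with rfl | rfl
          · exact (hper j hj1 i l hil).1
          · exact (hper j hj1 i l hil).2
      have h0 : |o c (Complex.I • basisVec n i) (Complex.I • basisVec n l)| ≤ 0 :=
        le_of_forall_pos_le_add fun ε hε => by
          rw [zero_add]
          exact hle ε hε
      exact abs_nonpos_iff.1 h0
  obtain ⟨g, J, hsy, hp, hJ, hI, hJ1, hiso, hoJ⟩ := ho.bundle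
  have hlag : ∀ c : Fin 3, c = 1 ∨ c = 2 → ∀ u ∈ imagSpace n, ∀ v ∈ imagSpace n,
      g (J c u) v = 0 := by
    intro c hc u hu v hv
    rw [imagSpace_sum hu, imagSpace_sum hv]
    simp only [map_sum, LinearMap.sum_apply, map_smul, LinearMap.smul_apply]
    refine Finset.sum_eq_zero fun i _ => ?_
    rw [Finset.sum_eq_zero, smul_zero]
    intro l _
    rw [← hoJ, hzero c hc l i, smul_zero]
  have hIV : ∀ v ∈ imagSpace n, J 0 v ∈ imagSpace n :=
    complex_of_lagrangian' g hsy hp (J 0) (J 1) (J 2) (hJ 1) hI (imagSpace n)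
      (by rw [finrank_CV, finrank_imagSpace]) (hlag 1 (Or.inl rfl)) (hlag 2 (Or.inr rfl))
  obtain ⟨ε, hε, htor⟩ := hC.torus o ho
    (fun u hu v hv => ⟨by rw [hoJ]; exact hlag 1 (Or.inl rfl) u hu v hv,
      by rw [hoJ]; exact hlag 2 (Or.inr rfl) u hu v hv⟩)
    (fun u hu => ⟨J 0 u, hIV u hu, fun x => by
      rw [hoJ, hoJ, ← hJ1, hiso]⟩)
  obtain ⟨j, hj1, hj2⟩ := hclose ε hε
  exact ⟨k j, htor (h (k j)) (Q.deg.φ (k j)) (Q.deg.U (k j)) (Q.om (k j)) (w j) (hF.chart (k j))
    hj1 hj2 (hper j hj1)⟩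

end Fam

end Pool.Agent.SYM
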