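import Mathlib

/-!
# SYM/SegAvg : averages of a function over short segments

`G ≥ 0` measurable on a real vector space `E` of finite dimension, `A + B_r ⊆ Q`. Then
`∫_{w ∈ A} ∫_{v ∈ B_r} ∫_0^1 G(w + s v) ds dv dw ≤ μ(B_r) ∫_Q G`. So off a subset of `A` of measure
at most `(∫_Q G) / K` the average over `v ∈ B_r` of `∫_0^1 G(w + s v) ds` is at most `K`, and then
for at least half of the `v` in `B_r` one has `∫_0^1 G(w + s v) ds < 2 K`, hence also
`∫_0^1 √G(w + s v) ds < √(2 K)`.
-/

set_option autoImplicit false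

open MeasureTheory Metric Set Filter Module
open scoped ENNReal Topology

namespace Pool.Agent.SYM

variable {E : Type*} [NormedAddCommGroup E] [NormedSpace ℝ E] [FiniteDimensional ℝ E]
  [MeasurableSpace E] [BorelSpace E]

/-- The integral of `G` over the segment from `w` to `w + v`, with parameter in `[0, 1]`. -/
noncomputable def segFrom (G : E → ℝ≥0∞) (w v : E) : ℝ≥0∞ :=
  ∫⁻ s in Icc (0 : ℝ) 1, G (w + s • v)

theorem measurable_segFrom3 {G : E → ℝ≥0∞} (hG : Measurable G) :
    Measurable fun p : (E × E) × ℝ => G (p.1.1 + p.2 • p.1.2) := by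
  refine hG.comp ?_
  exact (measurable_fst.comp measurable_fst).add
    (measurable_snd.smul (measurable_snd.comp measurable_fst))

theorem measurable_segFrom {G : E → ℝ≥0∞} (hG : Measurable G) :
    Measurable fun p : E × E => segFrom G p.1 p.2 :=
  (measurable_segFrom3 hG).lintegral_prod_right'

/-- The average over `v ∈ B_r` of the integral of `G` over `[w, w + v]`, times `μ(B_r)`. -/
noncomputable def segAvg (μ : Measure E) (G : E → ℝ≥0∞) (r : ℝ) (w : E) : ℝ≥0∞ :=
  ∫⁻ v in ball (0 : E) r, segFrom G w v ∂μ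

theorem measurable_segAvg (μ : Measure E) [μ.IsAddHaarMeasure] {G : E → ℝ≥0∞}
    (hG : Measurable G) (r : ℝ) : Measurable fun w => segAvg μ G r w :=
  (measurable_segFrom hG).lintegral_prod_right'

omit [NormedSpace ℝ E] [FiniteDimensional ℝ E] in
theorem shift_le (μ : Measure E) [μ.IsAddHaarMeasure] {G : E → ℝ≥0∞}
    {A Q : Set E} (hA : MeasurableSet A) (hQ : MeasurableSet Q) (u : E)
    (hu : ∀ w ∈ A, w + u ∈ Q) :
    ∫⁻ w in A, G (w + u) ∂μ ≤ ∫⁻ z in Q, G z ∂μ := by
  calc ∫⁻ w in A, G (w + u) ∂μ = ∫⁻ w, A.indicator (fun w => G (w + u)) w ∂μ := by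
        rw [lintegral_indicator hA]
    _ ≤ ∫⁻ w, (Q.indicator G) (w + u) ∂μ := by
        refine lintegral_mono fun w => ?_
        by_cases hw : w ∈ A
        · rw [indicator_of_mem hw, indicator_of_mem (hu w hw)]
        · rw [indicator_of_notMem hw]
          exact bot_le
    _ = ∫⁻ w, Q.indicator G w ∂μ := lintegral_add_right_eq_self (fun z => Q.indicator G z) u
    _ = ∫⁻ z in Q, G z ∂μ := by rw [lintegral_indicator hQ]

/-- **Averages over segments.** -/
theorem lintegral_segAvg_le (μ : Measure E) [μ.IsAddHaarMeasure] {G : E → ℝ≥0∞}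
    (hG : Measurable G) {A Q : Set E} (hA : MeasurableSet A) (hQ : MeasurableSet Q) {r : ℝ}
    (hr : ∀ w ∈ A, ∀ v : E, ‖v‖ < r → w + v ∈ Q) :
    ∫⁻ w in A, segAvg μ G r w ∂μ ≤ μ (ball (0 : E) r) * ∫⁻ z in Q, G z ∂μ := by
  have h3 := measurable_segFrom3 hG
  calc ∫⁻ w in A, segAvg μ G r w ∂μ
      = ∫⁻ p, segFrom G p.1 p.2 ∂((μ.restrict A).prod (μ.restrict (ball (0 : E) r))) :=
        (lintegral_prod _ (measurable_segFrom hG).aemeasurable).symm
    _ = ∫⁻ s in Icc (0 : ℝ) 1, ∫⁻ p, G (p.1 + s • p.2)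
          ∂((μ.restrict A).prod (μ.restrict (ball (0 : E) r))) :=
        lintegral_lintegral_swap (f := fun (p : E × E) (s : ℝ) => G (p.1 + s • p.2))
          h3.aemeasurable
    _ ≤ ∫⁻ _ in Icc (0 : ℝ) 1, μ (ball (0 : E) r) * ∫⁻ z in Q, G z ∂μ := by
        refine setLIntegral_mono' measurableSet_Icc fun s hs => ?_
        have hmeas : Measurable fun p : E × E => G (p.1 + s • p.2) :=
          hG.comp (measurable_fst.add (measurable_snd.const_smul s))
        rw [lintegral_prod_symm _ hmeas.aemeasurable]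
        calc ∫⁻ v in ball (0 : E) r, ∫⁻ w in A, G (w + s • v) ∂μ ∂μ
            ≤ ∫⁻ _ in ball (0 : E) r, ∫⁻ z in Q, G z ∂μ ∂μ := by
              refine setLIntegral_mono' measurableSet_ball fun v hv => ?_
              refine shift_le μ hA hQ (s • v) fun w hw => hr w hw _ ?_
              rw [mem_ball_zero_iff] at hv
              calc ‖s • v‖ = s * ‖v‖ := by rw [norm_smul, Real.norm_of_nonneg hs.1]
                _ ≤ 1 * ‖v‖ := by gcongr; exact hs.2
                _ < r := by linarith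
          _ = μ (ball (0 : E) r) * ∫⁻ z in Q, G z ∂μ := by
              rw [setLIntegral_const, mul_comm]
    _ = μ (ball (0 : E) r) * ∫⁻ z in Q, G z ∂μ := by
        rw [setLIntegral_const]
        simp

/-- **Most points are good.** The set of the points `w` of `A` for which the average over
`v ∈ B_r` of `∫_0^1 G(w + s v) ds` is greater than `K` has measure at most `(∫_Q G) / K`. -/
theorem bad_segAvg (μ : Measure E) [μ.IsAddHaarMeasure] {G : E → ℝ≥0∞}
    (hG : Measurable G) {A Q : Set E} (hA : MeasurableSet A) (hQ : MeasurableSet Q) {r : ℝ}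
    (hr0 : 0 < r) (hr : ∀ w ∈ A, ∀ v : E, ‖v‖ < r → w + v ∈ Q) (K : ℝ≥0∞) :
    K * μ {w ∈ A | K * μ (ball (0 : E) r) < segAvg μ G r w} ≤ ∫⁻ z in Q, G z ∂μ := by
  have h0 : μ (ball (0 : E) r) ≠ 0 := (measure_ball_pos μ 0 hr0).ne'
  have h1 : μ (ball (0 : E) r) ≠ ∞ := measure_ball_lt_top.ne
  have h := mul_meas_ge_le_lintegral₀ (μ := μ.restrict A)
    (measurable_segAvg μ hG r).aemeasurable (K * μ (ball (0 : E) r))
  rw [Measure.restrict_apply (measurableSet_le measurable_const (measurable_segAvg μ hG r))] at h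
  have h2 := h.trans (lintegral_segAvg_le μ hG hA hQ hr)
  have h3 : μ (ball (0 : E) r) * (K * μ {w ∈ A | K * μ (ball (0 : E) r) < segAvg μ G r w}) ≤
      μ (ball (0 : E) r) * ∫⁻ z in Q, G z ∂μ := by
    refine le_trans ?_ h2
    calc μ (ball (0 : E) r) * (K * μ {w ∈ A | K * μ (ball (0 : E) r) < segAvg μ G r w})
        = K * μ (ball (0 : E) r) * μ {w ∈ A | K * μ (ball (0 : E) r) < segAvg μ G r w} := by
          ring
      _ ≤ _ := by
          gcongr
          intro w hw
          exact ⟨hw.2.le, hw.1⟩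
  exact (ENNReal.mul_le_mul_iff_right h0 h1).1 h3

/-- **Half of the segments are good.** If the average over `v ∈ B_r` of `∫_0^1 G(w + s v) ds` is at
most `K` then the `v ∈ B_r` with `∫_0^1 G(w + s v) ds ≥ 2 K` fill at most half of `B_r`. -/
theorem half_segments (μ : Measure E) [μ.IsAddHaarMeasure] {G : E → ℝ≥0∞} (hG : Measurable G)
    {r : ℝ} {K : ℝ≥0∞} (hK0 : K ≠ 0) (hK : K ≠ ∞) {w : E}
    (hw : segAvg μ G r w ≤ K * μ (ball (0 : E) r)) :
    2 * μ {v ∈ ball (0 : E) r | 2 * K ≤ segFrom G w v} ≤ μ (ball (0 : E) r) := by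
  have hmeas : Measurable fun v => segFrom G w v :=
    (measurable_segFrom hG).comp measurable_prodMk_left
  have h := mul_meas_ge_le_lintegral₀ (μ := μ.restrict (ball (0 : E) r)) hmeas.aemeasurable
    (2 * K)
  rw [Measure.restrict_apply (measurableSet_le measurable_const hmeas)] at h
  have h2 := h.trans hw
  have h3 : K * (2 * μ {v ∈ ball (0 : E) r | 2 * K ≤ segFrom G w v}) ≤
      K * μ (ball (0 : E) r) := by
    refine le_trans ?_ h2
    calc K * (2 * μ {v ∈ ball (0 : E) r | 2 * K ≤ segFrom G w v})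
        = 2 * K * μ {v ∈ ball (0 : E) r | 2 * K ≤ segFrom G w v} := by ring
      _ ≤ _ := by
          gcongr
          intro v hv
          exact ⟨hv.2, hv.1⟩
  exact (ENNReal.mul_le_mul_iff_right hK0 hK).1 h3

/-- The set of the good `v` has at least half of the measure of the ball. -/
theorem half_segments_good (μ : Measure E) [μ.IsAddHaarMeasure] {G : E → ℝ≥0∞}
    (hG : Measurable G) {r : ℝ} {K : ℝ≥0∞} (hK0 : K ≠ 0) (hK : K ≠ ∞) {w : E}
    (hw : segAvg μ G r w ≤ K * μ (ball (0 : E) r)) :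
    μ (ball (0 : E) r) ≤ 2 * μ {v ∈ ball (0 : E) r | segFrom G w v < 2 * K} := by
  have h1 : μ (ball (0 : E) r) ≠ ∞ := measure_ball_lt_top.ne
  have hmeas : Measurable fun v => segFrom G w v :=
    (measurable_segFrom hG).comp measurable_prodMk_left
  have hbad := half_segments μ hG hK0 hK hw
  set S := {v ∈ ball (0 : E) r | 2 * K ≤ segFrom G w v} with hS
  set S' := {v ∈ ball (0 : E) r | segFrom G w v < 2 * K} with hS'
  have hSm : MeasurableSet S :=
    measurableSet_ball.inter (measurableSet_le measurable_const hmeas)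
  have hU : ball (0 : E) r ⊆ S ∪ S' := by
    intro v hv
    rcases le_or_gt (2 * K) (segFrom G w v) with h | h
    · exact Or.inl ⟨hv, h⟩
    · exact Or.inr ⟨hv, h⟩
  have hsum : μ (ball (0 : E) r) ≤ μ S + μ S' := (measure_mono hU).trans (measure_union_le _ _)
  have h2 : 2 * μ (ball (0 : E) r) ≤ μ (ball (0 : E) r) + 2 * μ S' := by
    calc 2 * μ (ball (0 : E) r) ≤ 2 * (μ S + μ S') := by gcongr
      _ = 2 * μ S + 2 * μ S' := by ring
      _ ≤ _ := by gcongr
  rw [two_mul] at h2
  exact (ENNReal.add_le_add_iff_left h1).1 h2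

/-- The integral of `√G` over a segment is at most the square root of the integral of `G`. -/
theorem segFrom_sqrt_le {G : E → ℝ≥0∞} (hG : Measurable G) (w v : E) :
    segFrom (fun x => G x ^ (1 / 2 : ℝ)) w v ≤ segFrom G w v ^ (1 / 2 : ℝ) := by
  have hline : Measurable fun s : ℝ => G (w + s • v) :=
    hG.comp (measurable_const.add (measurable_id.smul_const v))
  have h := ENNReal.lintegral_mul_le_Lp_mul_Lq (volume.restrict (Icc (0 : ℝ) 1))
    Real.HolderConjugate.two_two (f := fun s => G (w + s • v) ^ (1 / 2 : ℝ)) (g := fun _ => 1)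
    (hline.pow_const _).aemeasurable aemeasurable_const
  have h1 : ∫⁻ s in Icc (0 : ℝ) 1, (G (w + s • v) ^ (1 / 2 : ℝ)) ^ (2 : ℝ) =
      ∫⁻ s in Icc (0 : ℝ) 1, G (w + s • v) := by
    refine lintegral_congr fun s => ?_
    rw [← ENNReal.rpow_mul]
    norm_num
  have h2 : (∫⁻ s in Icc (0 : ℝ) 1, (1 : ℝ≥0∞) ^ (2 : ℝ)) ^ (1 / (2 : ℝ)) = 1 := by
    simp
  rw [h1, h2, mul_one] at h
  refine le_trans (le_of_eq ?_) h
  simp [segFrom]

end Pool.Agent.SYM
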