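import Pool.Agent.SYM.HermB
import Pool.Agent.SYC.Gram

/-!
# SYM/HermC : traces, inverse matrices and determinants

Bounds for `|Z⁻¹|` and lower bounds for the Gram determinant of `dy_1, ..., dy_m` from
`|dζ_j + ∂y_j|² ≤ A θ`.
-/

set_option autoImplicit false

open Matrix
open scoped ComplexOrder ComplexConjugate

namespace Pool.Agent.SYM

section trace

variable {ι : Type*} [Fintype ι]

theorem trace_re_nonneg {M : Matrix ι ι ℂ} (hM : M.PosSemidef) : 0 ≤ M.trace.re :=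
  (Complex.nonneg_iff.1 hM.trace_nonneg).1

/-- `|tr L| ≤ A tr T` if `-A T ≤ L ≤ A T`. -/
theorem abs_trace_le {A : ℝ} {T L : Matrix ι ι ℂ} (hp : (((A : ℝ) : ℂ) • T + L).PosSemidef)
    (hm : (((A : ℝ) : ℂ) • T - L).PosSemidef) : |L.trace.re| ≤ A * T.trace.re := by
  have h1 := trace_re_nonneg hp
  have h2 := trace_re_nonneg hm
  rw [Matrix.trace_add, Matrix.trace_smul, smul_eq_mul, Complex.add_re,
    Complex.re_ofReal_mul] at h1
  rw [Matrix.trace_sub, Matrix.trace_smul, smul_eq_mul, Complex.sub_re,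
    Complex.re_ofReal_mul] at h2
  rw [abs_le]
  constructor <;> linarith

theorem trace_sqForm (ξ : ι → ℂ) : (sqForm ξ).trace.re = ∑ k, ‖ξ k‖ ^ 2 := by
  rw [Matrix.trace, Complex.re_sum]
  refine Finset.sum_congr rfl fun k _ => ?_
  rw [Matrix.diag_apply, sqForm, Matrix.vecMulVec_apply, Pi.star_apply, Complex.star_def,
    ← Complex.normSq_eq_conj_mul_self, Complex.ofReal_re, Complex.normSq_eq_norm_sq]

/-- `|ξ|² ≤ A tr T` if `|ξ(v)|² ≤ A T(v)`. -/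
theorem norm_sq_le_trace {A : ℝ} {T : Matrix ι ι ℂ} {ξ : ι → ℂ}
    (h : (((A : ℝ) : ℂ) • T - sqForm ξ).PosSemidef) : ∑ k, ‖ξ k‖ ^ 2 ≤ A * T.trace.re := by
  have h2 := trace_re_nonneg h
  rw [Matrix.trace_sub, Matrix.trace_smul, smul_eq_mul, Complex.sub_re,
    Complex.re_ofReal_mul, trace_sqForm] at h2
  linarith

theorem norm_le_of_sum_sq {ξ : ι → ℂ} {c : ℝ} (h : ∑ k, ‖ξ k‖ ^ 2 ≤ c) (k : ι) :
    ‖ξ k‖ ≤ Real.sqrt c := by
  refine Real.le_sqrt_of_sq_le (le_trans ?_ h)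
  exact Finset.single_le_sum (f := fun k => ‖ξ k‖ ^ 2) (fun _ _ => sq_nonneg _)
    (Finset.mem_univ k)

end trace

section inverse

variable {ι : Type*} [Fintype ι] [DecidableEq ι]

/-- The entries of the inverse matrix. -/
theorem norm_inv_entry_le {Z : Matrix ι ι ℂ} {R a : ℝ} (ha : 0 < a) (hZ : a ≤ ‖Z.det‖)
    (hR : ∀ i j, ‖Z i j‖ ≤ R) (i j : ι) :
    ‖Z⁻¹ i j‖ ≤ (Fintype.card ι).factorial * (max R 1) ^ Fintype.card ι / a := by
  have h1 : ‖Z.adjugate i j‖ ≤ (Fintype.card ι).factorial * (max R 1) ^ Fintype.card ι := by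
    rw [Matrix.adjugate_apply]
    have h := Matrix.det_le (A := Z.updateRow j (Pi.single i 1))
      (abv := IsAbsoluteValue.toAbsoluteValue (norm : ℂ → ℝ)) (x := max R 1) ?_
    · simpa [nsmul_eq_mul] using h
    · intro k l
      change ‖Z.updateRow j (Pi.single i 1) k l‖ ≤ max R 1
      rw [Matrix.updateRow_apply]
      split_ifs with hk
      · by_cases hl : l = i
        · subst hl
          simp
        · rw [Pi.single_eq_of_ne hl]
          simp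
      · exact (hR k l).trans (le_max_left _ _)
  have hd : 0 < ‖Z.det‖ := lt_of_lt_of_le ha hZ
  rw [Matrix.inv_def, Matrix.smul_apply, smul_eq_mul, norm_mul, Ring.inverse_eq_inv', norm_inv]
  rw [inv_mul_eq_div]
  exact div_le_div₀ (by positivity) h1 ha hZ

/-- The Hilbert-Schmidt norm of the inverse matrix. -/
theorem sum_norm_inv_sq_le {Z : Matrix ι ι ℂ} {R a : ℝ} (ha : 0 < a) (hZ : a ≤ ‖Z.det‖)
    (hR : ∀ i j, ‖Z i j‖ ≤ R) :
    ∑ i, ∑ j, ‖Z⁻¹ i j‖ ^ 2 ≤ (Fintype.card ι : ℝ) ^ 2 *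
      ((Fintype.card ι).factorial * (max R 1) ^ Fintype.card ι / a) ^ 2 := by
  calc ∑ i, ∑ j, ‖Z⁻¹ i j‖ ^ 2 ≤ ∑ _i : ι, ∑ _j : ι,
        ((Fintype.card ι).factorial * (max R 1) ^ Fintype.card ι / a) ^ 2 := by
        refine Finset.sum_le_sum fun i _ => Finset.sum_le_sum fun j _ => ?_
        exact pow_le_pow_left₀ (norm_nonneg _) (norm_inv_entry_le ha hZ hR i j) 2
    _ = _ := by
        simp only [Finset.sum_const, Finset.card_univ, nsmul_eq_mul]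
        ring

end inverse

section gram

variable {m : ℕ}

/-- **`G ≤ K`.** If `|Y_{j+1}|² ≤ C`, `tr T ≤ 1`, `|Z_j + Y_{j+1}|² ≤ A T` and `|det Z| ≥ a` then
the entries of `Z` are bounded. -/
theorem norm_entry_le_of {A C : ℝ} (hA : 0 ≤ A) {T : Matrix (Fin m) (Fin m) ℂ}
    {Z : Matrix (Fin m) (Fin m) ℂ} {Y : Fin m → Fin m → ℂ} (hT : T.trace.re ≤ 1)
    (hr : ∀ j, (((A : ℝ) : ℂ) • T - sqForm (Z j + Y j)).PosSemidef)
    (hY : ∀ j, ∑ k, ‖Y j k‖ ^ 2 ≤ C) (i j : Fin m) : ‖Z i j‖ ≤ Real.sqrt A + Real.sqrt C := by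
  have h1 : ∑ k, ‖(Z i + Y i) k‖ ^ 2 ≤ A := by
    refine (norm_sq_le_trace (hr i)).trans ?_
    nlinarith
  have h2 := norm_le_of_sum_sq h1 j
  have h3 := norm_le_of_sum_sq (hY i) j
  calc ‖Z i j‖ = ‖(Z i + Y i) j - Y i j‖ := by rw [Pi.add_apply, add_sub_cancel_right]
    _ ≤ ‖(Z i + Y i) j‖ + ‖Y i j‖ := norm_sub_le _ _
    _ ≤ _ := add_le_add h2 h3

/-- **Lower bound of the Gram determinant.** -/
theorem exists_tau (m : ℕ) (A C a : ℝ) (hA : 0 < A) (_hC : 0 ≤ C) (ha : 0 < a) :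
    ∃ τ : ℝ, 0 < τ ∧ τ ≤ 1 ∧ ∀ (T Z : Matrix (Fin m) (Fin m) ℂ) (Y : Fin m → Fin m → ℂ),
      T.trace.re ≤ τ → (∀ j, (((A : ℝ) : ℂ) • T - sqForm (Z j + Y j)).PosSemidef) →
      (∀ j, ∑ k, ‖Y j k‖ ^ 2 ≤ C) → a ≤ ‖Z.det‖ → a / 2 ≤ ‖(Matrix.of Y).det‖ := by
  set M : ℝ := Real.sqrt A + Real.sqrt C with hM
  have hM0 : 0 ≤ M := by positivity
  set B : ℝ := m.factorial * m * M ^ (m - 1) with hB
  have hB0 : 0 ≤ B := by positivity
  refine ⟨min 1 ((a / (2 * (B + 1))) ^ 2 / A), by positivity, min_le_left _ _, ?_⟩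
  intro T Z Y hT hr hY hZ
  have hT1 : T.trace.re ≤ 1 := hT.trans (min_le_left _ _)
  have hZe := norm_entry_le_of hA.le hT1 hr hY
  have hδ : ∀ i j, ‖(Matrix.of Y) i j - (-Z) i j‖ ≤ a / (2 * (B + 1)) := by
    intro i j
    have h1 : ∑ k, ‖(Z i + Y i) k‖ ^ 2 ≤ (a / (2 * (B + 1))) ^ 2 := by
      refine (norm_sq_le_trace (hr i)).trans ?_
      calc A * T.trace.re ≤ A * ((a / (2 * (B + 1))) ^ 2 / A) :=
            mul_le_mul_of_nonneg_left (hT.trans (min_le_right _ _)) hA.le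
        _ = _ := by field_simp
    have h2 := norm_le_of_sum_sq h1 j
    rw [Real.sqrt_sq (by positivity)] at h2
    rw [Matrix.of_apply, Matrix.neg_apply, sub_neg_eq_add, add_comm]
    exact h2
  have h1 := SYC.norm_det_sub_det_le (Matrix.of Y) (-Z) M (a / (2 * (B + 1))) hM0
    (fun i j => (norm_le_of_sum_sq (hY i) j).trans (by
      rw [hM]
      linarith [Real.sqrt_nonneg A]))
    (fun i j => by
      rw [Matrix.neg_apply, norm_neg]
      exact hZe i j) hδ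
  rw [← hB] at h1
  have h2 : B * (a / (2 * (B + 1))) ≤ a / 2 := by
    rw [mul_div_assoc', div_le_div_iff₀ (by positivity) (by positivity)]
    nlinarith
  have h3 : ‖(-Z).det‖ = ‖Z.det‖ := by
    rw [Matrix.det_neg, norm_mul, norm_pow, norm_neg, norm_one, one_pow, one_mul]
  have h4 : ‖(-Z).det‖ - ‖(Matrix.of Y).det‖ ≤ ‖(Matrix.of Y).det - (-Z).det‖ := by
    rw [norm_sub_rev]
    exact norm_sub_norm_le _ _
  rw [h3] at h4
  linarith

/-- The Gram matrix `(Y_i · Y_j^*)` has determinant `|det Y|²`. -/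
theorem norm_det_gram (Y : Fin m → Fin m → ℂ) :
    ‖Matrix.det (fun i j : Fin m => ∑ k, Y i k * conj (Y j k))‖ = ‖(Matrix.of Y).det‖ ^ 2 := by
  have e : (fun i j : Fin m => ∑ k, Y i k * conj (Y j k)) = (Matrix.of Y) * (Matrix.of Y)ᴴ := by
    ext i j
    rw [Matrix.mul_apply]
    rfl
  rw [e, Matrix.det_mul, Matrix.det_conjTranspose, norm_mul, norm_star, sq]

end gram

end Pool.Agent.SYM
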