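import Pool.Agent.SYM.V3P.HKD

/-!
# SYM/Triple : hyperkähler triples on open subsets of `ℂ^{2n}`
-/

set_option autoImplicit false

open MeasureTheory Set Filter Topology

namespace Pool.Agent.SYM

/-- The standard basis vectors of `ℂ^{2n}`. -/
noncomputable def basisVec (n : ℕ) (j : Fin (2 * n)) : CV n := Pi.single j 1

/-- `g` is a scalar product on `ℂ^{2n}` and `Q 0 = I`, `Q 1 = J`, `Q 2 = K` is a linear
hyperkähler structure whose `J` is multiplication by `i`: real linear isometries with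
`I² = J² = K² = -1` and `I = J K`. -/
structure IsHKStructure {n : ℕ} (g : CV n → CV n → ℝ) (Q : Fin 3 → CV n → CV n) : Prop where
  g_add : ∀ u v w, g (u + v) w = g u w + g v w
  g_smul : ∀ (c : ℝ) u v, g (c • u) v = c * g u v
  g_symm : ∀ u v, g u v = g v u
  g_pos : ∀ u, u ≠ 0 → 0 < g u u
  Q_add : ∀ a u v, Q a (u + v) = Q a u + Q a v
  Q_smul : ∀ a (c : ℝ) u, Q a (c • u) = c • Q a u
  Q_sq : ∀ a u, Q a (Q a u) = -u
  I_eq : ∀ u, Q 0 u = Q 1 (Q 2 u)
  J_eq : ∀ u, Q 1 u = Complex.I • u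
  isometry : ∀ a u v, g (Q a u) (Q a v) = g u v

/-- `o 0, o 1, o 2` are the Kähler forms `ω_I, ω_J, ω_K` of a linear hyperkähler structure
`(g, I, J, K)` on `ℂ^{2n}` whose complex structure `J` is multiplication by `i`:
`ω_I(u, v) = g(I u, v)` etc. -/
def FlatTriple {n : ℕ} (o : Fin 3 → CV n → CV n → ℝ) : Prop :=
  ∃ (g : CV n → CV n → ℝ) (Q : Fin 3 → CV n → CV n),
    IsHKStructure g Q ∧ ∀ a u v, o a u v = g (Q a u) v

/-- The density of the volume form of the triple with respect to Lebesgue measure: the determinant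
of the hermitian matrix of `g` for `J`. -/
noncomputable def volDensity {n : ℕ} (o : Fin 3 → CV n → CV n → ℝ) : ℝ :=
  ‖Matrix.det (fun j l : Fin (2 * n) =>
    ((o 1 (basisVec n j) (Complex.I • basisVec n l) : ℝ) : ℂ) +
      ((o 1 (basisVec n j) (basisVec n l) : ℝ) : ℂ) * Complex.I)‖

/-- `τ a w u v` is the value at the point `w` on the vectors `u, v` of the `a`-th form of a
hyperkähler triple (with `J` = multiplication by `i`) on the open set `B ⊆ ℂ^{2n}`: the forms are
smooth and closed, and form a linear triple at each point. -/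
structure IsHKTripleOn {n : ℕ} (B : Set (CV n)) (τ : Fin 3 → CV n → CV n → CV n → ℝ) : Prop where
  triple : ∀ w ∈ B, FlatTriple (fun a => τ a w)
  smooth : ∀ a u v, ContDiffOn ℝ (⊤ : ℕ∞) (fun w => τ a w u v) B
  closed : ∀ a, ∀ w ∈ B, ∀ u v x,
    fderiv ℝ (fun z => τ a z u v) w x + fderiv ℝ (fun z => τ a z v x) w u +
      fderiv ℝ (fun z => τ a z x u) w v = 0

/-- The theorem of Riebesehl and Schulz (a Kähler metric on `ℂ^m` which is uniformly equivalent to
the euclidean one and whose volume form is the square of a holomorphic function is constant), with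
the interior estimates of Evans and Krylov: hyperkähler triples on balls with radii `r_j → ∞` with
`g ≤ K` and volume density `≥ a > 0` converge, after passing to a subsequence, uniformly on bounded
sets to a constant triple. -/
def LiouvilleTheorem (n : ℕ) : Prop :=
  ∀ (K a : ℝ), 0 < a → ∀ (r : ℕ → ℝ), Tendsto r atTop atTop →
    ∀ (τ : ℕ → Fin 3 → CV n → CV n → CV n → ℝ),
      (∀ j, IsHKTripleOn (Metric.ball 0 (r j)) (τ j)) →
      (∀ j, ∀ w ∈ Metric.ball (0 : CV n) (r j), ∀ v, τ j 1 w v (Complex.I • v) ≤ K * ‖v‖ ^ 2) →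
      (∀ j, ∀ w ∈ Metric.ball (0 : CV n) (r j), a ≤ volDensity (fun a => τ j a w)) →
      ∃ o : Fin 3 → CV n → CV n → ℝ, FlatTriple o ∧ ∃ s : ℕ → ℕ, StrictMono s ∧
        ∀ R ε : ℝ, 0 < ε → ∀ᶠ j in atTop, ∀ w ∈ Metric.ball (0 : CV n) R, ∀ a u v,
          |τ (s j) a w u v - o a u v| ≤ ε * ‖u‖ * ‖v‖

/-- The integral of the form `τ` over the real 2-torus `{w + i s e_j + i t e_l}`,
`0 ≤ s, t ≤ 2π`. -/
noncomputable def period {n : ℕ} (τ : CV n → CV n → CV n → ℝ) (w : CV n)
    (j l : Fin (2 * n)) : ℝ :=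
  ∫ p in Icc (0 : ℝ) (2 * Real.pi) ×ˢ Icc (0 : ℝ) (2 * Real.pi),
    τ (w + ((p.1 : ℂ) * Complex.I) • basisVec n j + ((p.2 : ℂ) * Complex.I) • basisVec n l)
      (Complex.I • basisVec n j) (Complex.I • basisVec n l)

/-- The tangent space `i ℝ^{2n}` of the tori `{Re w = const}`. -/
def imagSpace (n : ℕ) : Submodule ℝ (CV n) where
  carrier := {v | ∀ j, (v j).re = 0}
  add_mem' := by
    intro u v hu hv j
    simp only [Pi.add_apply, Complex.add_re]
    rw [hu j, hv j, add_zero]
  zero_mem' := by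
    intro j
    simp
  smul_mem' := by
    intro c v hv j
    simp only [Pi.smul_apply, Complex.real_smul, Complex.mul_re, Complex.ofReal_re,
      Complex.ofReal_im, zero_mul, sub_zero]
    rw [hv j, mul_zero]

end Pool.Agent.SYM
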