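import Pool.Agent.SYM.SingData

/-!
Moser iteration on the regular part, from the Sobolev inequality of Guo, Phong, Song and Sturm for
functions with compact support.
-/

open MeasureTheory Set Filter
open scoped ENNReal Topology ContDiff

namespace Pool.Agent.SYM

namespace Reg

theorem fatou_int {α : Type*} [MeasurableSpace α] {μ : Measure α} {f : ℕ → α → ℝ} {g : α → ℝ}
    {E : ℝ} {e : ℕ → ℝ}
    (hi : ∀ j, Integrable (f j) μ) (h0 : ∀ j x, 0 ≤ f j x)
    (hg : ∀ x, Tendsto (fun j => f j x) atTop (𝓝 (g x)))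
    (hE : ∀ j, ∫ x, f j x ∂μ ≤ e j) (he : Tendsto e atTop (𝓝 E)) :
    Integrable g μ ∧ ∫ x, g x ∂μ ≤ E := by
  have g0 : ∀ x, 0 ≤ g x := fun x => ge_of_tendsto' (hg x) (fun j => h0 j x)
  have hm : AEStronglyMeasurable g μ :=
    aestronglyMeasurable_of_tendsto_ae atTop (fun j => (hi j).1) (ae_of_all _ hg)
  have E0 : 0 ≤ E := ge_of_tendsto' he (fun j => (integral_nonneg (h0 j)).trans (hE j))
  have key : ∫⁻ x, ENNReal.ofReal (g x) ∂μ ≤ ENNReal.ofReal E := by
    calc ∫⁻ x, ENNReal.ofReal (g x) ∂μ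
        = ∫⁻ x, liminf (fun j => ENNReal.ofReal (f j x)) atTop ∂μ := by
          refine lintegral_congr (fun x => ?_)
          exact (((ENNReal.continuous_ofReal.tendsto _).comp (hg x)).liminf_eq).symm
      _ ≤ liminf (fun j => ∫⁻ x, ENNReal.ofReal (f j x) ∂μ) atTop :=
          lintegral_liminf_le' (fun j => (hi j).1.aemeasurable.ennreal_ofReal)
      _ ≤ liminf (fun j => ENNReal.ofReal (e j)) atTop := by
          refine liminf_le_liminf (Eventually.of_forall fun j => ?_)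
          rw [← ofReal_integral_eq_lintegral_ofReal (hi j) (ae_of_all _ (h0 j))]
          exact ENNReal.ofReal_le_ofReal (hE j)
      _ = ENNReal.ofReal E := ((ENNReal.continuous_ofReal.tendsto _).comp he).liminf_eq
  have hint : Integrable g μ := by
    refine ⟨hm, ?_⟩
    rw [hasFiniteIntegral_iff_ofReal (ae_of_all _ g0)]
    exact key.trans_lt ENNReal.ofReal_lt_top
  refine ⟨hint, ?_⟩
  rw [integral_eq_lintegral_of_nonneg_ae (ae_of_all _ g0) hm]
  calc (∫⁻ x, ENNReal.ofReal (g x) ∂μ).toReal ≤ (ENNReal.ofReal E).toReal :=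
        ENNReal.toReal_mono ENNReal.ofReal_ne_top key
    _ = E := ENNReal.toReal_ofReal E0

variable (D : Reg)

/-- Symmetry, bilinearity and Leibniz rule for `gr`. -/
structure Leibniz : Prop where
  mul : ∀ f ∈ D.sm, ∀ h ∈ D.sm, (fun x => f x * h x) ∈ D.sm
  cs_mul : ∀ χ ∈ D.cs, ∀ f ∈ D.sm, (fun x => χ x * f x) ∈ D.cs
  gr_symm : ∀ f ∈ D.sm, ∀ h ∈ D.sm, ∀ x, D.gr f h x = D.gr h f x
  gr_sub : ∀ f ∈ D.sm, ∀ h ∈ D.sm, ∀ k ∈ D.sm, ∀ x,
    D.gr (fun z => f z - h z) k x = D.gr f k x - D.gr h k x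
  gr_mul : ∀ f ∈ D.sm, ∀ h ∈ D.sm, ∀ k ∈ D.sm, ∀ x,
    D.gr (fun z => f z * h z) k x = f x * D.gr h k x + h x * D.gr f k x

/-- The Sobolev inequality of Guo, Phong, Song and Sturm, for smooth functions with compact support
in the regular part. -/
def Sobolev : Prop :=
  ∃ q K : ℝ, 1 < q ∧ ∀ χ ∈ D.cs,
    (∫ x, |χ x| ^ (2 * q) ∂D.vol) ^ (1 / q) ≤
      K * (∫ x, D.gr χ χ x ∂D.vol + ∫ x, χ x ^ 2 ∂D.vol)

variable {D}

theorem Calculus.smul_sm (hC : D.Calculus) {f : D.X → ℝ} (hf : f ∈ D.sm) (c : ℝ) :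
    (fun z => c * f z) ∈ D.sm :=
  hC.comp univ (fun t => c * t) isOpen_univ (by fun_prop) f hf (fun _ => mem_univ _)

theorem Calculus.cs_integrable (hC : D.Calculus) {χ : D.X → ℝ} (hχ : χ ∈ D.cs) :
    Integrable χ D.vol := by
  have := hC.cs_int χ hχ (fun _ => (1 : ℝ)) continuous_const
  simpa using this

theorem two_abs_le {m a b : ℝ} (ha : 0 ≤ a) (hb : 0 ≤ b) (h : m ^ 2 ≤ a * b) :
    2 * |m| ≤ a + b := by
  have h1 : (2 * m) ^ 2 ≤ (a + b) ^ 2 := by nlinarith [sq_nonneg (a - b)]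
  have h2 := abs_le_of_sq_le_sq h1 (by positivity)
  rwa [abs_mul, abs_two] at h2

/-- Cauchy-Schwarz -/
theorem gr_sq_le (hC : D.Calculus) (hL : D.Leibniz) {f h : D.X → ℝ} (hf : f ∈ D.sm)
    (hh : h ∈ D.sm) (x : D.X) : D.gr f h x ^ 2 ≤ D.gr f f x * D.gr h h x := by
  have key : ∀ c : ℝ, 0 ≤ D.gr h h x * (c * c) + (-2 * D.gr f h x) * c + D.gr f f x := by
    intro c
    have hch := hC.smul_sm hh c
    have hs := hC.sm_sub f hf _ hch
    have h0 := hC.gr_nonneg _ hs x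
    have e1 := hL.gr_sub f hf _ hch _ hs x
    have e2 : D.gr f (fun z => f z - c * h z) x = D.gr f f x - c * D.gr f h x := by
      rw [hL.gr_symm f hf _ hs x, hL.gr_sub f hf _ hch f hf x, hL.gr_symm _ hch f hf x,
        hC.gr_smul f hf h hh c x]
    have e3 : D.gr (fun z => c * h z) (fun z => f z - c * h z) x =
        c * D.gr f h x - c * (c * D.gr h h x) := by
      rw [hL.gr_symm _ hch _ hs x, hL.gr_sub f hf _ hch _ hch x, hC.gr_smul f hf h hh c x,
        hC.gr_smul _ hch h hh c x, hL.gr_symm _ hch h hh x, hC.gr_smul h hh h hh c x]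
    rw [e1, e2, e3] at h0
    linarith
  have := discrim_le_zero key
  rw [discrim] at this
  linarith

theorem abs_gr_le (hC : D.Calculus) (hL : D.Leibniz) {f h : D.X → ℝ} (hf : f ∈ D.sm)
    (hh : h ∈ D.sm) {ε : ℝ} (hε : 0 < ε) (x : D.X) :
    2 * |D.gr f h x| ≤ ε * D.gr f f x + ε⁻¹ * D.gr h h x := by
  refine two_abs_le (mul_nonneg hε.le (hC.gr_nonneg f hf x))
    (mul_nonneg (inv_pos.2 hε).le (hC.gr_nonneg h hh x)) ?_
  have := gr_sq_le hC hL hf hh x
  have e : ε * D.gr f f x * (ε⁻¹ * D.gr h h x) = D.gr f f x * D.gr h h x := by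
    field_simp
  rw [e]
  exact this

theorem gr_mul_le (hC : D.Calculus) (hL : D.Leibniz) {f h : D.X → ℝ} (hf : f ∈ D.sm)
    (hh : h ∈ D.sm) (x : D.X) :
    D.gr (fun z => f z * h z) (fun z => f z * h z) x ≤
      2 * (f x ^ 2 * D.gr h h x) + 2 * (h x ^ 2 * D.gr f f x) := by
  have hm := hL.mul f hf h hh
  have e1 := hL.gr_mul f hf h hh _ hm x
  have e2 : D.gr h (fun z => f z * h z) x = f x * D.gr h h x + h x * D.gr f h x := by
    rw [hL.gr_symm h hh _ hm x, hL.gr_mul f hf h hh h hh x]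
  have e3 : D.gr f (fun z => f z * h z) x = f x * D.gr f h x + h x * D.gr f f x := by
    rw [hL.gr_symm f hf _ hm x, hL.gr_mul f hf h hh f hf x, hL.gr_symm h hh f hf x]
  rw [e1, e2, e3]
  have h1 := gr_sq_le hC hL hf hh x
  have h2 := two_abs_le (m := f x * h x * D.gr f h x) (a := f x ^ 2 * D.gr h h x)
    (b := h x ^ 2 * D.gr f f x) (mul_nonneg (sq_nonneg _) (hC.gr_nonneg h hh x))
    (mul_nonneg (sq_nonneg _) (hC.gr_nonneg f hf x)) (by
      have : 0 ≤ (f x * h x) ^ 2 * (D.gr f f x * D.gr h h x - D.gr f h x ^ 2) :=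
        mul_nonneg (sq_nonneg _) (by linarith)
      nlinarith)
  have h3 := le_abs_self (f x * h x * D.gr f h x)
  nlinarith

/-! ### Cut-off functions -/

/-- `1` for `t ≤ 1` and `0` for `2 ≤ t` -/
noncomputable def bump (k : ℝ) (t : ℝ) : ℝ := Real.smoothTransition (2 - t / k)

theorem bump_contDiff (k : ℝ) : ContDiff ℝ ∞ (bump k) := by
  have h1 : ContDiff ℝ ∞ (fun t : ℝ => 2 - t / k) := by fun_prop
  exact (Real.smoothTransition.contDiff (n := ⊤)).comp h1

theorem bump_nonneg (k t : ℝ) : 0 ≤ bump k t := Real.smoothTransition.nonneg _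

theorem bump_le_one (k t : ℝ) : bump k t ≤ 1 := Real.smoothTransition.le_one _

theorem bump_eq_one {k t : ℝ} (hk : 0 < k) (h : t ≤ k) : bump k t = 1 := by
  refine Real.smoothTransition.one_of_one_le ?_
  have : t / k ≤ 1 := (div_le_one hk).2 h
  linarith

theorem bump_eq_zero {k t : ℝ} (hk : 0 < k) (h : 2 * k ≤ t) : bump k t = 0 := by
  refine Real.smoothTransition.zero_of_nonpos ?_
  have : 2 ≤ t / k := (le_div_iff₀ hk).2 h
  linarith

theorem bump_deriv (k t : ℝ) :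
    deriv (bump k) t = - (deriv Real.smoothTransition (2 - t / k) / k) := by
  have h1 : HasDerivAt Real.smoothTransition (deriv Real.smoothTransition (2 - t / k))
      (2 - t / k) :=
    ((Real.smoothTransition.contDiff (n := ⊤)).differentiable (by simp)).differentiableAt.hasDerivAt
  have h2 : HasDerivAt (fun t : ℝ => 2 - t / k) (-(1 / k)) t := by
    have := ((hasDerivAt_id t).div_const k).const_sub 2
    simpa using this
  have h3 := (h1.comp t h2).deriv
  have e : (Real.smoothTransition ∘ fun t : ℝ => 2 - t / k) = bump k := rfl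
  rw [e] at h3
  rw [h3]
  ring

theorem exists_bump_bound : ∃ B : ℝ, 0 ≤ B ∧ ∀ k : ℝ, 0 < k → ∀ t : ℝ,
    deriv (bump k) t ≤ 0 ∧ (deriv (bump k) t) ^ 2 ≤ B / k ^ 2 := by
  have hd : Differentiable ℝ Real.smoothTransition :=
    (Real.smoothTransition.contDiff (n := ⊤)).differentiable (by simp)
  have hc : Continuous (deriv Real.smoothTransition) :=
    (Real.smoothTransition.contDiff (n := ⊤)).continuous_deriv (by simp)
  obtain ⟨B, hB⟩ := isCompact_Icc.exists_bound_of_continuousOn (s := Icc (0 : ℝ) 1)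
    hc.continuousOn
  have hB0 : 0 ≤ B := (norm_nonneg _).trans (hB 0 (by simp))
  have hall : ∀ s, |deriv Real.smoothTransition s| ≤ B := by
    intro s
    by_cases hs : s ∈ Icc (0 : ℝ) 1
    · exact hB s hs
    · have h0 : deriv Real.smoothTransition s = 0 := by
        rw [mem_Icc, not_and_or, not_le, not_le] at hs
        rcases hs with hs | hs
        · have : Real.smoothTransition =ᶠ[𝓝 s] fun _ => 0 := by
            filter_upwards [Iio_mem_nhds hs] with y hy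
            exact Real.smoothTransition.zero_of_nonpos (le_of_lt hy)
          rw [this.deriv_eq]; simp
        · have : Real.smoothTransition =ᶠ[𝓝 s] fun _ => 1 := by
            filter_upwards [Ioi_mem_nhds hs] with y hy
            exact Real.smoothTransition.one_of_one_le (le_of_lt hy)
          rw [this.deriv_eq]; simp
      rw [h0, abs_zero]; exact hB0
  refine ⟨B ^ 2, by positivity, fun k hk t => ⟨?_, ?_⟩⟩
  · rw [bump_deriv]
    have := Real.smoothTransition.monotone.deriv_nonneg (x := 2 - t / k)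
    have := div_nonneg this hk.le
    linarith
  · rw [bump_deriv, neg_sq, div_pow]
    refine div_le_div_of_nonneg_right ?_ (by positivity)
    rw [← sq_abs]
    exact pow_le_pow_left₀ (abs_nonneg _) (hall _) 2

/-- `W = log (-φ)` -/
theorem log_contDiffOn : ContDiffOn ℝ ∞ (fun t : ℝ => Real.log (-t)) (Iio 0) := by
  refine ContDiffOn.log (by fun_prop) (fun x hx => ?_)
  have : x < 0 := hx
  linarith

variable {φ : D.X → ℝ}

theorem exists_cut (hC : D.Calculus) (hP : D.Pole φ) :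
    ∃ (χ : ℕ → D.X → ℝ) (E : ℝ), 0 ≤ E ∧ (∀ j, χ j ∈ D.cs) ∧ (∀ j x, 0 ≤ χ j x) ∧
      (∀ j x, χ j x ≤ 1) ∧ (∀ x, Tendsto (fun j => χ j x) atTop (𝓝 1)) ∧
      ∀ j : ℕ, ∫ x, D.gr (χ j) (χ j) x ∂D.vol ≤ E / ((j : ℝ) + 1) ^ 2 := by
  obtain ⟨B, hB0, hB⟩ := exists_bump_bound
  have hφ0 : ∀ x, φ x ∈ Iio (0 : ℝ) := fun x => lt_of_le_of_lt (hP.le x) (by norm_num)
  set W : D.X → ℝ := fun x => Real.log (-(φ x)) with hW
  have hWs : W ∈ D.sm := hC.comp (Iio 0) _ isOpen_Iio log_contDiffOn φ hP.sm hφ0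
  let χ : ℕ → D.X → ℝ := fun j x => bump ((j : ℝ) + 1) (W x)
  have hk : ∀ j : ℕ, (0 : ℝ) < (j : ℝ) + 1 := fun j => by positivity
  have hχ : ∀ j, χ j ∈ D.cs := by
    intro j
    refine hP.cpt (Iio 0) (fun t => bump ((j : ℝ) + 1) (Real.log (-t))) isOpen_Iio
      ((bump_contDiff _).comp_contDiffOn log_contDiffOn) hφ0
      ⟨Real.exp (2 * ((j : ℝ) + 1)), fun t ht h => ?_⟩
    refine bump_eq_zero (hk j) ?_
    rw [← Real.log_exp (2 * ((j : ℝ) + 1))]
    exact Real.log_le_log (Real.exp_pos _) (by linarith)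
  have hgr : ∀ j, ∀ h ∈ D.sm, ∀ x, D.gr (χ j) h x = deriv (bump ((j : ℝ) + 1)) (W x) * D.gr W h x :=
    fun j h hh x => (hC.gr_comp univ (bump ((j : ℝ) + 1)) isOpen_univ
      (bump_contDiff _).contDiffOn W hWs (fun _ => mem_univ _) h hh x).1
  have hgr2 : ∀ j, ∀ x, D.gr (χ j) (χ j) x =
      (deriv (bump ((j : ℝ) + 1)) (W x)) ^ 2 * D.gr W W x := by
    intro j x
    rw [hgr j _ (hC.cs_sm (hχ j)) x, (hC.gr_comp univ (bump ((j : ℝ) + 1)) isOpen_univ
      (bump_contDiff _).contDiffOn W hWs (fun _ => mem_univ _) W hWs x).2]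
    ring
  have hlapW : ∀ x, D.gr W W x = D.lap φ x / φ x - D.lap W x := by
    intro x
    have h1 := hC.lap_comp (Iio 0) _ isOpen_Iio log_contDiffOn φ hP.sm hφ0 x
    have h2 := (hC.gr_comp (Iio 0) _ isOpen_Iio log_contDiffOn φ hP.sm hφ0 W hWs x).1
    have h3 := (hC.gr_comp (Iio 0) _ isOpen_Iio log_contDiffOn φ hP.sm hφ0 φ hP.sm x).2
    have hx : φ x ≠ 0 := ne_of_lt (hφ0 x)
    have d1 : ∀ t : ℝ, deriv (fun t : ℝ => Real.log (-t)) t = t⁻¹ := by
      intro t
      have : (fun t : ℝ => Real.log (-t)) = Real.log := by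
        funext t; exact Real.log_neg_eq_log t
      rw [this, Real.deriv_log]
    have d2 : deriv (deriv (fun t : ℝ => Real.log (-t))) (φ x) = -(φ x ^ 2)⁻¹ := by
      have : deriv (fun t : ℝ => Real.log (-t)) = fun t => t⁻¹ := funext d1
      rw [this, deriv_inv]
    rw [d1] at h1 h2 h3
    rw [d2] at h1
    change D.lap W x = _ at h1
    change D.gr W W x = _ at h2
    change D.gr φ W x = _ at h3
    rw [h1, h2, h3]
    field_simp
    ring
  have hφc : Continuous φ := hC.sm_cont φ hP.sm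
  have hlc : Continuous (D.lap φ) := hC.sm_cont _ (hC.lap_sm φ hP.sm)
  have hdc : Continuous (fun x => D.lap φ x / φ x) :=
    hlc.div hφc (fun x => ne_of_lt (hφ0 x))
  have hlW : Continuous (D.lap W) := hC.sm_cont _ (hC.lap_sm W hWs)
  have hgc : Continuous (D.gr W W) := hC.sm_cont _ (hC.gr_sm W hWs W hWs)
  set E0 : ℝ := ∫ x, |D.lap φ x| ∂D.vol with hE0
  have hE00 : 0 ≤ E0 := integral_nonneg (fun x => abs_nonneg _)
  have hbound : ∀ j, ∫ x, χ j x * D.gr W W x ∂D.vol ≤ E0 := by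
    intro j
    have e1 : ∫ x, χ j x * D.gr W W x ∂D.vol =
        ∫ x, χ j x * (D.lap φ x / φ x) ∂D.vol - ∫ x, χ j x * D.lap W x ∂D.vol := by
      rw [← integral_sub (hC.cs_int _ (hχ j) _ hdc) (hC.cs_int _ (hχ j) _ hlW)]
      refine integral_congr_ae (ae_of_all _ fun x => ?_)
      simp only [hlapW x]
      ring
    have e2 : ∫ x, χ j x * D.lap W x ∂D.vol = - ∫ x, D.gr (χ j) W x ∂D.vol :=
      hC.stokes _ (hχ j) _ hWs
    have e3 : ∫ x, D.gr (χ j) W x ∂D.vol ≤ 0 := by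
      refine integral_nonpos (fun x => ?_)
      simp only [Pi.zero_apply]
      rw [hgr j W hWs x]
      exact mul_nonpos_of_nonpos_of_nonneg (hB _ (hk j) _).1 (hC.gr_nonneg W hWs x)
    have e4 : ∫ x, χ j x * (D.lap φ x / φ x) ∂D.vol ≤ E0 := by
      refine integral_mono (hC.cs_int _ (hχ j) _ hdc) hP.lap_int.abs (fun x => ?_)
      have hx : (1 : ℝ) ≤ |φ x| := by
        rw [abs_of_neg (hφ0 x)]
        have := hP.le x
        linarith
      calc χ j x * (D.lap φ x / φ x) ≤ |χ j x * (D.lap φ x / φ x)| := le_abs_self _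
        _ = |χ j x| * (|D.lap φ x| / |φ x|) := by rw [abs_mul, abs_div]
        _ ≤ 1 * (|D.lap φ x| / 1) := by
            refine mul_le_mul ?_ ?_ (by positivity) (by norm_num)
            · rw [abs_of_nonneg (bump_nonneg _ _)]
              exact bump_le_one _ _
            · exact div_le_div_of_nonneg_left (abs_nonneg _) (by norm_num) hx
        _ = |D.lap φ x| := by ring
    rw [e1, e2]
    linarith
  have hlim : ∀ x, Tendsto (fun j => χ j x) atTop (𝓝 1) := by
    intro x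
    refine tendsto_const_nhds.congr' ?_
    obtain ⟨N, hN⟩ := exists_nat_ge (W x)
    filter_upwards [eventually_ge_atTop N] with j hj
    refine (bump_eq_one (hk j) ?_).symm
    have : (N : ℝ) ≤ j := by exact_mod_cast hj
    linarith
  obtain ⟨hWi, -⟩ := fatou_int (μ := D.vol) (f := fun j x => χ j x * D.gr W W x)
    (g := D.gr W W) (E := E0) (e := fun _ => E0)
    (fun j => hC.cs_int _ (hχ j) _ hgc)
    (fun j x => mul_nonneg (bump_nonneg _ _) (hC.gr_nonneg W hWs x))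
    (fun x => by simpa using (hlim x).mul_const (D.gr W W x))
    hbound tendsto_const_nhds
  have hEW : 0 ≤ ∫ x, D.gr W W x ∂D.vol := integral_nonneg (hC.gr_nonneg W hWs)
  refine ⟨χ, B * ∫ x, D.gr W W x ∂D.vol, mul_nonneg hB0 hEW, hχ,
    fun j x => bump_nonneg _ _, fun j x => bump_le_one _ _, hlim, fun j => ?_⟩
  have e : B * (∫ x, D.gr W W x ∂D.vol) / ((j : ℝ) + 1) ^ 2 =
      ∫ x, B / ((j : ℝ) + 1) ^ 2 * D.gr W W x ∂D.vol := by
    rw [integral_const_mul]; ring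
  rw [e]
  refine integral_mono_of_nonneg (ae_of_all _ fun x => ?_) (hWi.const_mul _)
    (ae_of_all _ fun x => ?_)
  · exact hC.gr_nonneg _ (hC.cs_sm (hχ j)) x
  · simp only [hgr2 j x]
    exact mul_le_mul_of_nonneg_right (hB _ (hk j) _).2 (hC.gr_nonneg W hWs x)

/-! ### Truncation -/

/-- `t ↦ T t / (T + t)` -/
noncomputable def tr (T t : ℝ) : ℝ := T * t / (T + t)

theorem tr_pos {T t : ℝ} (hT : 0 < T) (ht : 0 < t) : 0 < tr T t := by
  unfold tr; positivity

theorem tr_le_self {T t : ℝ} (hT : 0 < T) (ht : 0 < t) : tr T t ≤ t := by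
  unfold tr
  rw [div_le_iff₀ (by positivity)]
  nlinarith

theorem tr_le {T t : ℝ} (hT : 0 < T) (ht : 0 < t) : tr T t ≤ T := by
  unfold tr
  rw [div_le_iff₀ (by positivity)]
  nlinarith

theorem tr_hasDerivAt {T t : ℝ} (hT : 0 < T) (ht : 0 < t) :
    HasDerivAt (tr T) (T ^ 2 / (T + t) ^ 2) t := by
  have h1 : HasDerivAt (fun t : ℝ => T * t) T t := by
    simpa using (hasDerivAt_id t).const_mul T
  have h2 : HasDerivAt (fun t : ℝ => T + t) 1 t := by
    simpa using (hasDerivAt_id t).const_add T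
  have h3 := h1.div h2 (by positivity)
  have e : (T * (T + t) - T * t * 1) / (T + t) ^ 2 = T ^ 2 / (T + t) ^ 2 := by ring
  rw [e] at h3
  exact h3

theorem tr_contDiffOn {T : ℝ} (hT : 0 < T) : ContDiffOn ℝ ∞ (tr T) (Ioi 0) := by
  unfold tr
  refine ContDiffOn.div (by fun_prop) (by fun_prop) (fun x hx => ?_)
  have : (0 : ℝ) < x := hx
  positivity

theorem tr_rpow_contDiffOn {T : ℝ} (hT : 0 < T) (p : ℝ) :
    ContDiffOn ℝ ∞ (fun t => tr T t ^ p) (Ioi 0) :=
  (tr_contDiffOn hT).rpow_const_of_ne (fun x hx => (tr_pos hT hx).ne')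

theorem tr_rpow_deriv {T t : ℝ} (hT : 0 < T) (ht : 0 < t) (p : ℝ) :
    deriv (fun t => tr T t ^ p) t = T ^ 2 / (T + t) ^ 2 * p * tr T t ^ (p - 1) :=
  ((tr_hasDerivAt hT ht).rpow_const (Or.inl (tr_pos hT ht).ne')).deriv

theorem tr_tendsto {t : ℝ} (ht : 0 < t) :
    Tendsto (fun n : ℕ => tr ((n : ℝ) + 1) t) atTop (𝓝 t) := by
  have h1 : Tendsto (fun n : ℕ => ((n : ℝ) + 1)) atTop atTop :=
    tendsto_atTop_add_const_right _ _ tendsto_natCast_atTop_atTop
  have h2 : Tendsto (fun n : ℕ => t / ((n : ℝ) + 1)) atTop (𝓝 0) := h1.const_div_atTop t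
  have h3 : Tendsto (fun n : ℕ => t / (1 + t / ((n : ℝ) + 1))) atTop (𝓝 (t / (1 + 0))) :=
    Tendsto.div tendsto_const_nhds (tendsto_const_nhds.add h2) (by norm_num)
  have e : (fun n : ℕ => tr ((n : ℝ) + 1) t) = fun n : ℕ => t / (1 + t / ((n : ℝ) + 1)) := by
    funext n
    have hn : (0 : ℝ) < (n : ℝ) + 1 := by positivity
    unfold tr
    field_simp
  rw [e]
  simpa using h3

/-- derivative comparison: `(H')² ≤ p² G'` for `H = F ^ p`, `G = F ^ (2 p - 1)` -/
theorem tr_deriv_sq_le {T t p : ℝ} (hT : 0 < T) (ht : 0 < t) (hp : 1 ≤ p) :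
    deriv (fun t => tr T t ^ p) t ^ 2 ≤ p ^ 2 * deriv (fun t => tr T t ^ (2 * p - 1)) t := by
  rw [tr_rpow_deriv hT ht, tr_rpow_deriv hT ht]
  have hF := tr_pos hT ht
  have e1 : (tr T t ^ (p - 1)) ^ 2 = tr T t ^ (2 * p - 1 - 1) := by
    rw [← Real.rpow_natCast, ← Real.rpow_mul hF.le]
    congr 1
    push_cast
    ring
  have hd0 : 0 ≤ T ^ 2 / (T + t) ^ 2 := by positivity
  have hd1 : T ^ 2 / (T + t) ^ 2 ≤ 1 := by
    rw [div_le_one (by positivity)]
    exact pow_le_pow_left₀ hT.le (by linarith) 2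
  have e2 : (T ^ 2 / (T + t) ^ 2 * p * tr T t ^ (p - 1)) ^ 2 =
      (T ^ 2 / (T + t) ^ 2) * (T ^ 2 / (T + t) ^ 2) * (p ^ 2 * tr T t ^ (2 * p - 1 - 1)) := by
    rw [← e1]; ring
  rw [e2]
  have hr : 0 ≤ p ^ 2 * tr T t ^ (2 * p - 1 - 1) :=
    mul_nonneg (sq_nonneg _) (Real.rpow_nonneg hF.le _)
  calc (T ^ 2 / (T + t) ^ 2) * (T ^ 2 / (T + t) ^ 2) * (p ^ 2 * tr T t ^ (2 * p - 1 - 1))
      ≤ (T ^ 2 / (T + t) ^ 2) * (2 * p - 1) * (p ^ 2 * tr T t ^ (2 * p - 1 - 1)) := by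
        refine mul_le_mul_of_nonneg_right (mul_le_mul_of_nonneg_left ?_ hd0) hr
        linarith
    _ = p ^ 2 * (T ^ 2 / (T + t) ^ 2 * (2 * p - 1) * tr T t ^ (2 * p - 1 - 1)) := by ring

/-! ### One step of the iteration -/

section step

variable {u : D.X → ℝ} {C p E : ℝ} {χ : ℕ → D.X → ℝ}

theorem rpow_cont (hC : D.Calculus) (hu : u ∈ D.sm) (h1 : ∀ x, 1 ≤ u x) (r : ℝ) :
    Continuous (fun x => u x ^ r) :=
  (hC.sm_cont u hu).rpow_const (fun x => Or.inl (by have := h1 x; linarith))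

theorem tr_sm (hC : D.Calculus) (hu : u ∈ D.sm) (h1 : ∀ x, 1 ≤ u x) {T : ℝ} (hT : 0 < T)
    (r : ℝ) : (fun x => tr T (u x) ^ r) ∈ D.sm :=
  hC.comp (Ioi 0) (fun t => tr T t ^ r) isOpen_Ioi (tr_rpow_contDiffOn hT r) u hu
    (fun x => by have := h1 x; exact lt_of_lt_of_le zero_lt_one this)

theorem int_gr_cut (hC : D.Calculus) (hL : D.Leibniz) (hu : u ∈ D.sm)
    (hgu : Integrable (D.gr u u) D.vol) (hχ : ∀ j, χ j ∈ D.cs)
    (hE : ∀ j : ℕ, ∫ x, D.gr (χ j) (χ j) x ∂D.vol ≤ E / ((j : ℝ) + 1) ^ 2) (j : ℕ) :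
    2 * ∫ x, |D.gr (χ j) u x| ∂D.vol ≤ (E + ∫ x, D.gr u u x ∂D.vol) / ((j : ℝ) + 1) := by
  have hk : (0 : ℝ) < (j : ℝ) + 1 := by positivity
  have hs := hC.cs_sm (hχ j)
  have i1 : Integrable (D.gr (χ j) (χ j)) D.vol := hC.cs_integrable (hC.cs_gr _ (hχ j) _ hs)
  have i2 : Integrable (D.gr (χ j) u) D.vol := hC.cs_integrable (hC.cs_gr _ (hχ j) _ hu)
  calc 2 * ∫ x, |D.gr (χ j) u x| ∂D.vol = ∫ x, 2 * |D.gr (χ j) u x| ∂D.vol := by
        rw [integral_const_mul]
    _ ≤ ∫ x, (((j : ℝ) + 1) * D.gr (χ j) (χ j) x + ((j : ℝ) + 1)⁻¹ * D.gr u u x) ∂D.vol := by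
        refine integral_mono (i2.abs.const_mul 2)
          ((i1.const_mul _).add (hgu.const_mul _)) (fun x => ?_)
        exact abs_gr_le hC hL hs hu hk x
    _ = ((j : ℝ) + 1) * ∫ x, D.gr (χ j) (χ j) x ∂D.vol +
          ((j : ℝ) + 1)⁻¹ * ∫ x, D.gr u u x ∂D.vol := by
        rw [integral_add (i1.const_mul _) (hgu.const_mul _), integral_const_mul,
          integral_const_mul]
    _ ≤ ((j : ℝ) + 1) * (E / ((j : ℝ) + 1) ^ 2) + ((j : ℝ) + 1)⁻¹ * ∫ x, D.gr u u x ∂D.vol := by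
        have := mul_le_mul_of_nonneg_left (hE j) hk.le
        linarith
    _ = (E + ∫ x, D.gr u u x ∂D.vol) / ((j : ℝ) + 1) := by
        field_simp

theorem energy (hC : D.Calculus) (hL : D.Leibniz) (hu : u ∈ D.sm) (h1 : ∀ x, 1 ≤ u x)
    (hC0 : 0 ≤ C) (hlap : ∀ x, - (C * u x) ≤ D.lap u x)
    (hgu : Integrable (D.gr u u) D.vol) (hχ : ∀ j, χ j ∈ D.cs) (hχ0 : ∀ j x, 0 ≤ χ j x)
    (hχ1 : ∀ j x, χ j x ≤ 1)
    (hE : ∀ j : ℕ, ∫ x, D.gr (χ j) (χ j) x ∂D.vol ≤ E / ((j : ℝ) + 1) ^ 2)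
    (hp : 1 ≤ p) (hint : Integrable (fun x => u x ^ (2 * p)) D.vol) {T : ℝ} (hT : 0 < T)
    (j : ℕ) :
    ∫ x, χ j x * D.gr (fun z => tr T (u z) ^ p) (fun z => tr T (u z) ^ p) x ∂D.vol ≤
      p ^ 2 * (C * ∫ x, u x ^ (2 * p) ∂D.vol +
        T ^ (2 * p - 1) * ((E + ∫ x, D.gr u u x ∂D.vol) / ((j : ℝ) + 1))) := by
  have hu0 : ∀ x, 0 < u x := fun x => lt_of_lt_of_le zero_lt_one (h1 x)
  have hs := hC.cs_sm (hχ j)
  set G : D.X → ℝ := fun x => tr T (u x) ^ (2 * p - 1) with hG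
  set H : D.X → ℝ := fun x => tr T (u x) ^ p with hH
  have hGs : G ∈ D.sm := tr_sm hC hu h1 hT _
  have hHs : H ∈ D.sm := tr_sm hC hu h1 hT _
  have hG0 : ∀ x, 0 ≤ G x := fun x => Real.rpow_nonneg (tr_pos hT (hu0 x)).le _
  have hGT : ∀ x, G x ≤ T ^ (2 * p - 1) := fun x =>
    Real.rpow_le_rpow (tr_pos hT (hu0 x)).le (tr_le hT (hu0 x)) (by linarith)
  have hGu : ∀ x, G x * u x ≤ u x ^ (2 * p) := by
    intro x
    have a1 : G x ≤ u x ^ (2 * p - 1) :=
      Real.rpow_le_rpow (tr_pos hT (hu0 x)).le (tr_le_self hT (hu0 x)) (by linarith)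
    calc G x * u x ≤ u x ^ (2 * p - 1) * u x := mul_le_mul_of_nonneg_right a1 (hu0 x).le
      _ = u x ^ (2 * p) := by
          rw [← Real.rpow_add_one (hu0 x).ne']
          congr 1
          ring
  -- `gr G u`, `gr H H`
  have gG : ∀ x, D.gr G u x = deriv (fun t => tr T t ^ (2 * p - 1)) (u x) * D.gr u u x :=
    fun x => (hC.gr_comp (Ioi 0) (fun t => tr T t ^ (2 * p - 1)) isOpen_Ioi
      (tr_rpow_contDiffOn hT _) u hu (fun x => hu0 x) u hu x).1
  have gH : ∀ x, D.gr H H x = deriv (fun t => tr T t ^ p) (u x) ^ 2 * D.gr u u x := by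
    intro x
    have a1 := (hC.gr_comp (Ioi 0) (fun t => tr T t ^ p) isOpen_Ioi
      (tr_rpow_contDiffOn hT _) u hu (fun x => hu0 x) H hHs x).1
    have a2 := (hC.gr_comp (Ioi 0) (fun t => tr T t ^ p) isOpen_Ioi
      (tr_rpow_contDiffOn hT _) u hu (fun x => hu0 x) u hu x).2
    change D.gr H H x = _ at a1
    change D.gr u H x = _ at a2
    rw [a1, a2]
    ring
  have gHG : ∀ x, D.gr H H x ≤ p ^ 2 * D.gr G u x := by
    intro x
    rw [gG, gH, ← mul_assoc]
    exact mul_le_mul_of_nonneg_right (tr_deriv_sq_le hT (hu0 x) hp) (hC.gr_nonneg u hu x)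
  have cG : Continuous G := hC.sm_cont G hGs
  have clap : Continuous (D.lap u) := hC.sm_cont _ (hC.lap_sm u hu)
  have cgG : Continuous (D.gr G u) := hC.sm_cont _ (hC.gr_sm G hGs u hu)
  have cgH : Continuous (D.gr H H) := hC.sm_cont _ (hC.gr_sm H hHs H hHs)
  have hgc : D.gr (χ j) u ∈ D.cs := hC.cs_gr _ (hχ j) _ hu
  have ig : Integrable (D.gr (χ j) u) D.vol := hC.cs_integrable hgc
  have i1 : Integrable (fun x => χ j x * D.gr G u x) D.vol := hC.cs_int _ (hχ j) _ cgG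
  have i2 : Integrable (fun x => D.gr (χ j) u x * G x) D.vol := hC.cs_int _ hgc _ cG
  have i3 : Integrable (fun x => χ j x * (G x * D.lap u x)) D.vol :=
    hC.cs_int _ (hχ j) _ (cG.mul clap)
  -- Stokes
  have st : ∫ x, χ j x * D.gr G u x ∂D.vol =
      - ∫ x, χ j x * (G x * D.lap u x) ∂D.vol - ∫ x, D.gr (χ j) u x * G x ∂D.vol := by
    have a1 := hC.stokes _ (hL.cs_mul _ (hχ j) G hGs) u hu
    have a2 : ∫ x, D.gr (fun z => χ j z * G z) u x ∂D.vol =
        ∫ x, (χ j x * D.gr G u x + D.gr (χ j) u x * G x) ∂D.vol := by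
      refine integral_congr_ae (ae_of_all _ fun x => ?_)
      simp only
      rw [hL.gr_mul _ hs G hGs u hu x]
      ring
    have a3 : ∫ x, (χ j x * G x) * D.lap u x ∂D.vol =
        ∫ x, χ j x * (G x * D.lap u x) ∂D.vol :=
      integral_congr_ae (ae_of_all _ fun x => by simp only; ring)
    rw [a2, integral_add i1 i2] at a1
    rw [a3] at a1
    linarith
  have b1 : - ∫ x, χ j x * (G x * D.lap u x) ∂D.vol ≤ C * ∫ x, u x ^ (2 * p) ∂D.vol := by
    rw [← integral_neg, ← integral_const_mul]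
    refine integral_mono i3.neg (hint.const_mul C) (fun x => ?_)
    have c1 := mul_le_mul_of_nonneg_left (hlap x) (mul_nonneg (hχ0 j x) (hG0 x))
    have c2 : 0 ≤ G x * u x := mul_nonneg (hG0 x) (hu0 x).le
    have c3 : χ j x * (G x * u x) ≤ u x ^ (2 * p) :=
      (mul_le_of_le_one_left c2 (hχ1 j x)).trans (hGu x)
    have c4 := mul_le_mul_of_nonneg_left c3 hC0
    simp only
    nlinarith
  have b2 : - ∫ x, D.gr (χ j) u x * G x ∂D.vol ≤
      T ^ (2 * p - 1) * ((E + ∫ x, D.gr u u x ∂D.vol) / ((j : ℝ) + 1)) := by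
    have c0 : - ∫ x, D.gr (χ j) u x * G x ∂D.vol ≤
        T ^ (2 * p - 1) * ∫ x, |D.gr (χ j) u x| ∂D.vol := by
      rw [← integral_neg, ← integral_const_mul]
      refine integral_mono i2.neg (ig.abs.const_mul _) (fun x => ?_)
      simp only
      calc - (D.gr (χ j) u x * G x) ≤ |D.gr (χ j) u x * G x| := neg_le_abs _
        _ = G x * |D.gr (χ j) u x| := by
            rw [abs_mul, abs_of_nonneg (hG0 x), mul_comm]
        _ ≤ T ^ (2 * p - 1) * |D.gr (χ j) u x| :=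
            mul_le_mul_of_nonneg_right (hGT x) (abs_nonneg _)
    have c1 := int_gr_cut hC hL hu hgu hχ hE j
    have c2 : 0 ≤ ∫ x, |D.gr (χ j) u x| ∂D.vol := integral_nonneg (fun x => abs_nonneg _)
    refine c0.trans (mul_le_mul_of_nonneg_left (by linarith) ?_)
    positivity
  calc ∫ x, χ j x * D.gr H H x ∂D.vol ≤ ∫ x, p ^ 2 * (χ j x * D.gr G u x) ∂D.vol := by
        refine integral_mono (hC.cs_int _ (hχ j) _ cgH) (i1.const_mul _) (fun x => ?_)
        have := mul_le_mul_of_nonneg_left (gHG x) (hχ0 j x)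
        simp only
        linarith
    _ = p ^ 2 * ∫ x, χ j x * D.gr G u x ∂D.vol := integral_const_mul _ _
    _ ≤ _ := by
        refine mul_le_mul_of_nonneg_left ?_ (sq_nonneg p)
        rw [st]
        linarith

theorem sobolev_step (hC : D.Calculus) (hL : D.Leibniz) (hu : u ∈ D.sm) (h1 : ∀ x, 1 ≤ u x)
    (hC0 : 0 ≤ C) (hlap : ∀ x, - (C * u x) ≤ D.lap u x)
    (hgu : Integrable (D.gr u u) D.vol) (hχ : ∀ j, χ j ∈ D.cs) (hχ0 : ∀ j x, 0 ≤ χ j x)
    (hχ1 : ∀ j x, χ j x ≤ 1) (hlim : ∀ x, Tendsto (fun j => χ j x) atTop (𝓝 1))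
    (hE : ∀ j : ℕ, ∫ x, D.gr (χ j) (χ j) x ∂D.vol ≤ E / ((j : ℝ) + 1) ^ 2)
    {q K : ℝ} (hq : 1 < q) (hK : 0 ≤ K)
    (hS : ∀ χ ∈ D.cs, (∫ x, |χ x| ^ (2 * q) ∂D.vol) ^ (1 / q) ≤
      K * (∫ x, D.gr χ χ x ∂D.vol + ∫ x, χ x ^ 2 ∂D.vol))
    (hp : 1 ≤ p) (hint : Integrable (fun x => u x ^ (2 * p)) D.vol) :
    Integrable (fun x => u x ^ (2 * p * q)) D.vol ∧
      ∫ x, u x ^ (2 * p * q) ∂D.vol ≤
        (K * (2 * C + 1) * p ^ 2 * ∫ x, u x ^ (2 * p) ∂D.vol) ^ q := by
  have hu0 : ∀ x, 0 < u x := fun x => lt_of_lt_of_le zero_lt_one (h1 x)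
  have hq0 : 0 < q := by linarith
  have hp0 : 0 < p := by linarith
  set I : ℝ := ∫ x, u x ^ (2 * p) ∂D.vol with hI
  have hI0 : 0 ≤ I := integral_nonneg (fun x => Real.rpow_nonneg (hu0 x).le _)
  set EU : ℝ := ∫ x, D.gr u u x ∂D.vol with hEU
  have inner : ∀ T : ℝ, 0 < T →
      Integrable (fun x => tr T (u x) ^ (2 * p * q)) D.vol ∧
      ∫ x, tr T (u x) ^ (2 * p * q) ∂D.vol ≤ (K * (2 * C + 1) * p ^ 2 * I) ^ q := by
    intro T hT
    have ht0 : ∀ x, 0 < tr T (u x) := fun x => tr_pos hT (hu0 x)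
    set H : D.X → ℝ := fun x => tr T (u x) ^ p with hH
    have hHs : H ∈ D.sm := tr_sm hC hu h1 hT _
    have hH0 : ∀ x, 0 ≤ H x := fun x => Real.rpow_nonneg (ht0 x).le _
    have hHT : ∀ x, H x ≤ T ^ p := fun x =>
      Real.rpow_le_rpow (ht0 x).le (tr_le hT (hu0 x)) (by linarith)
    have hHu : ∀ x, H x ^ 2 ≤ u x ^ (2 * p) := by
      intro x
      have a1 : H x ≤ u x ^ p :=
        Real.rpow_le_rpow (ht0 x).le (tr_le_self hT (hu0 x)) (by linarith)
      calc H x ^ 2 ≤ (u x ^ p) ^ 2 := pow_le_pow_left₀ (hH0 x) a1 2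
        _ = u x ^ (2 * p) := by
            rw [← Real.rpow_natCast, ← Real.rpow_mul (hu0 x).le]
            congr 1
            push_cast
            ring
    let e : ℕ → ℝ := fun j => (K * ((2 * (p ^ 2 * (C * I +
        T ^ (2 * p - 1) * ((E + EU) / ((j : ℝ) + 1)))) +
        2 * (T ^ p) ^ 2 * (E / ((j : ℝ) + 1) ^ 2)) + I)) ^ q
    have he : Tendsto e atTop (𝓝 ((K * ((2 * (p ^ 2 * (C * I +
        T ^ (2 * p - 1) * 0)) + 2 * (T ^ p) ^ 2 * 0) + I)) ^ q)) := by
      have hk : Tendsto (fun j : ℕ => ((j : ℝ) + 1)) atTop atTop :=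
        tendsto_atTop_add_const_right _ _ tendsto_natCast_atTop_atTop
      have l1 : Tendsto (fun j : ℕ => (E + EU) / ((j : ℝ) + 1)) atTop (𝓝 0) :=
        hk.const_div_atTop _
      have l2 : Tendsto (fun j : ℕ => E / ((j : ℝ) + 1) ^ 2) atTop (𝓝 0) :=
        Tendsto.const_div_atTop (tendsto_pow_atTop (two_ne_zero) |>.comp hk) _
      refine Tendsto.rpow_const ?_ (Or.inr hq0.le)
      exact ((((((l1.const_mul _).const_add _).const_mul _).const_mul 2).add
        (l2.const_mul _)).add_const I).const_mul K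
    have he' : (K * ((2 * (p ^ 2 * (C * I +
        T ^ (2 * p - 1) * 0)) + 2 * (T ^ p) ^ 2 * 0) + I)) ^ q ≤
        (K * (2 * C + 1) * p ^ 2 * I) ^ q := by
      refine Real.rpow_le_rpow (by positivity) ?_ hq0.le
      have hp2 : (1 : ℝ) ≤ p ^ 2 := one_le_pow₀ hp
      have : 0 ≤ K * I * (p ^ 2 - 1) := mul_nonneg (mul_nonneg hK hI0) (by linarith)
      nlinarith
    have hcs : ∀ j, (fun x => χ j x * H x) ∈ D.cs := fun j => hL.cs_mul _ (hχ j) H hHs
    have habs : ∀ j x, |χ j x * H x| ^ (2 * q) = (χ j x * H x) ^ (2 * q) := by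
      intro j x
      rw [abs_of_nonneg (mul_nonneg (hχ0 j x) (hH0 x))]
    have hfi : ∀ j, Integrable (fun x => (χ j x * H x) ^ (2 * q)) D.vol := by
      intro j
      have c1 : Continuous (fun x => (χ j x * H x) ^ (2 * q - 1)) :=
        (hC.sm_cont _ (hC.cs_sm (hcs j))).rpow_const (fun x => Or.inr (by linarith))
      have c2 := hC.cs_int _ (hcs j) _ c1
      refine c2.congr (ae_of_all _ fun x => ?_)
      have c3 : 0 ≤ χ j x * H x := mul_nonneg (hχ0 j x) (hH0 x)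
      rcases c3.eq_or_lt with c4 | c4
      · simp only
        rw [← c4, zero_mul, Real.zero_rpow (by linarith)]
      · simp only
        rw [mul_comm, ← Real.rpow_add_one c4.ne']
        congr 1
        ring
    have hgt : ∀ x, Tendsto (fun j => (χ j x * H x) ^ (2 * q)) atTop
        (𝓝 (tr T (u x) ^ (2 * p * q))) := by
      intro x
      have c1 : Tendsto (fun j => χ j x * H x) atTop (𝓝 (1 * H x)) := (hlim x).mul_const _
      have c2 := c1.rpow_const (p := 2 * q) (Or.inr (by linarith))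
      have c3 : (1 * H x) ^ (2 * q) = tr T (u x) ^ (2 * p * q) := by
        rw [one_mul, hH, ← Real.rpow_mul (ht0 x).le]
        congr 1
        ring
      rwa [c3] at c2
    have hbd : ∀ j, ∫ x, (χ j x * H x) ^ (2 * q) ∂D.vol ≤ e j := by
      intro j
      have hsj := hC.cs_sm (hχ j)
      have s1 := hS _ (hcs j)
      simp only [habs] at s1
      have n0 : 0 ≤ ∫ x, (χ j x * H x) ^ (2 * q) ∂D.vol :=
        integral_nonneg (fun x => Real.rpow_nonneg (mul_nonneg (hχ0 j x) (hH0 x)) _)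
      have cgH : Continuous (D.gr H H) := hC.sm_cont _ (hC.gr_sm H hHs H hHs)
      have iχ : Integrable (D.gr (χ j) (χ j)) D.vol :=
        hC.cs_integrable (hC.cs_gr _ (hχ j) _ hsj)
      have iH : Integrable (fun x => χ j x * D.gr H H x) D.vol := hC.cs_int _ (hχ j) _ cgH
      have t1 : ∫ x, D.gr (fun z => χ j z * H z) (fun z => χ j z * H z) x ∂D.vol ≤
          2 * (p ^ 2 * (C * I + T ^ (2 * p - 1) * ((E + EU) / ((j : ℝ) + 1)))) +
          2 * (T ^ p) ^ 2 * (E / ((j : ℝ) + 1) ^ 2) := by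
        have a1 : ∫ x, D.gr (fun z => χ j z * H z) (fun z => χ j z * H z) x ∂D.vol ≤
            ∫ x, (2 * (χ j x * D.gr H H x) + 2 * (T ^ p) ^ 2 * D.gr (χ j) (χ j) x) ∂D.vol := by
          refine integral_mono (hC.cs_integrable (hC.cs_gr _ (hcs j) _ (hC.cs_sm (hcs j))))
            ((iH.const_mul 2).add (iχ.const_mul _)) (fun x => ?_)
          have b1 := gr_mul_le hC hL hsj hHs x
          have b2 : χ j x ^ 2 * D.gr H H x ≤ χ j x * D.gr H H x := by
            refine mul_le_mul_of_nonneg_right ?_ (hC.gr_nonneg H hHs x)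
            have := mul_le_mul_of_nonneg_left (hχ1 j x) (hχ0 j x)
            nlinarith
          have b3 : H x ^ 2 * D.gr (χ j) (χ j) x ≤ (T ^ p) ^ 2 * D.gr (χ j) (χ j) x :=
            mul_le_mul_of_nonneg_right (pow_le_pow_left₀ (hH0 x) (hHT x) 2)
              (hC.gr_nonneg _ hsj x)
          simp only
          linarith
        rw [integral_add (iH.const_mul 2) (iχ.const_mul _), integral_const_mul,
          integral_const_mul] at a1
        have a2 := energy hC hL hu h1 hC0 hlap hgu hχ hχ0 hχ1 hE hp hint hT j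
        have a3 : 2 * (T ^ p) ^ 2 * ∫ x, D.gr (χ j) (χ j) x ∂D.vol ≤
            2 * (T ^ p) ^ 2 * (E / ((j : ℝ) + 1) ^ 2) :=
          mul_le_mul_of_nonneg_left (hE j) (by positivity)
        linarith
      have t2 : ∫ x, (χ j x * H x) ^ 2 ∂D.vol ≤ I := by
        refine integral_mono_of_nonneg (ae_of_all _ fun x => sq_nonneg _) hint
          (ae_of_all _ fun x => ?_)
        have b1 : χ j x * H x ≤ H x := mul_le_of_le_one_left (hH0 x) (hχ1 j x)
        exact (pow_le_pow_left₀ (mul_nonneg (hχ0 j x) (hH0 x)) b1 2).trans (hHu x)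
      have s2 : (∫ x, (χ j x * H x) ^ (2 * q) ∂D.vol) ^ (1 / q) ≤
          K * ((2 * (p ^ 2 * (C * I + T ^ (2 * p - 1) * ((E + EU) / ((j : ℝ) + 1)))) +
          2 * (T ^ p) ^ 2 * (E / ((j : ℝ) + 1) ^ 2)) + I) :=
        s1.trans (mul_le_mul_of_nonneg_left (by linarith) hK)
      have s3 := Real.rpow_le_rpow (Real.rpow_nonneg n0 _) s2 hq0.le
      rw [← Real.rpow_mul n0, one_div, inv_mul_cancel₀ hq0.ne', Real.rpow_one] at s3
      exact s3
    obtain ⟨r1, r2⟩ := fatou_int hfi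
      (fun j x => Real.rpow_nonneg (mul_nonneg (hχ0 j x) (hH0 x)) _) hgt hbd he
    exact ⟨r1, r2.trans he'⟩
  refine fatou_int (f := fun (n : ℕ) x => tr ((n : ℝ) + 1) (u x) ^ (2 * p * q))
    (e := fun _ => (K * (2 * C + 1) * p ^ 2 * I) ^ q)
    (fun n => (inner _ (by positivity)).1)
    (fun n x => Real.rpow_nonneg (tr_pos (by positivity) (hu0 x)).le _)
    (fun x => (tr_tendsto (hu0 x)).rpow_const (Or.inl (hu0 x).ne'))
    (fun n => (inner _ (by positivity)).2) tendsto_const_nhds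

end step

/-! ### The iteration -/

theorem summable_aux {q a b : ℝ} (hq : 1 < q) :
    Summable (fun k : ℕ => (a + b * k) / q ^ k) := by
  have hr : ‖q⁻¹‖ < 1 := by
    rw [Real.norm_of_nonneg (by positivity)]
    exact inv_lt_one_of_one_lt₀ hq
  have h1 : Summable (fun k : ℕ => (q⁻¹) ^ k) := summable_geometric_of_norm_lt_one hr
  have h2 : Summable (fun k : ℕ => (k : ℝ) ^ 1 * (q⁻¹) ^ k) :=
    summable_pow_mul_geometric_of_norm_lt_one 1 hr
  have h3 := (h1.mul_left a).add (h2.mul_left b)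
  refine h3.congr (fun k => ?_)
  rw [inv_pow]
  field_simp

theorem log_iter {q A : ℝ} (hq : 1 < q) (hA : 1 ≤ A) (I : ℕ → ℝ) (hI : ∀ k, 0 < I k)
    (hstep : ∀ k, I (k + 1) ≤ (A * (q ^ k) ^ 2 * I k) ^ q) :
    ∃ R : ℝ, 0 < R ∧ ∀ k, I k ≤ R ^ (q ^ k) := by
  have hq0 : 0 < q := by linarith
  let s : ℕ → ℝ := fun k => (Real.log A + 2 * Real.log q * k) / q ^ k
  have hs : Summable s := summable_aux hq
  have hs0 : ∀ k, 0 ≤ s k := fun k => by
    have h1 := Real.log_nonneg hA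
    have h2 := Real.log_nonneg hq.le
    positivity
  have hL : ∀ k, Real.log (I k) / q ^ k ≤ Real.log (I 0) + ∑ i ∈ Finset.range k, s i := by
    intro k
    induction k with
    | zero => simp
    | succ k ih =>
      rw [Finset.sum_range_succ]
      have h1 : Real.log (I (k + 1)) ≤ q * (Real.log A + 2 * Real.log q * k + Real.log (I k)) := by
        refine (Real.log_le_log (hI _) (hstep k)).trans (le_of_eq ?_)
        have hpos : 0 < A * (q ^ k) ^ 2 := by positivity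
        rw [Real.log_rpow (mul_pos hpos (hI k)), Real.log_mul hpos.ne' (hI k).ne',
          Real.log_mul (by positivity) (by positivity), Real.log_pow, Real.log_pow]
        push_cast
        ring
      have h2 : Real.log (I (k + 1)) / q ^ (k + 1) ≤ s k + Real.log (I k) / q ^ k := by
        have hqk : 0 < q ^ k := by positivity
        rw [div_le_iff₀ (by positivity)]
        refine h1.trans (le_of_eq ?_)
        simp only [s]
        field_simp
        ring
      linarith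
  have hS : ∀ k, ∑ i ∈ Finset.range k, s i ≤ ∑' i, s i := fun k =>
    hs.sum_le_tsum _ (fun i _ => hs0 i)
  refine ⟨Real.exp (Real.log (I 0) + ∑' i, s i), Real.exp_pos _, fun k => ?_⟩
  have hqk : 0 < q ^ k := by positivity
  have h1 := (hL k).trans (add_le_add_right (hS k) _)
  rw [div_le_iff₀ hqk] at h1
  rw [← Real.exp_mul, ← Real.exp_log (hI k)]
  exact Real.exp_le_exp.2 h1

theorem moser (hC : D.Calculus) (hL : D.Leibniz) (hP : D.Pole φ) (hS : D.Sobolev) : D.Moser := by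
  intro v hv hv0 hv2 hgv hlap
  obtain ⟨C₀, hC₀⟩ := hlap
  obtain ⟨q, K₀, hq, hK₀⟩ := hS
  obtain ⟨χ, E, hE0, hχ, hχ0, hχ1, hlim, hE⟩ := exists_cut hC hP
  by_cases hne : Nonempty D.X
  swap
  · exact ⟨0, fun x => (hne ⟨x⟩).elim⟩
  haveI := hC.fin
  haveI := hC.pos
  have hq0 : 0 < q := by linarith
  -- `u = v + 1`
  set u : D.X → ℝ := fun x => v x + 1 with hu
  have hsmooth : ContDiffOn ℝ ∞ (fun t : ℝ => t + 1) univ := by fun_prop
  have hus : u ∈ D.sm := hC.comp univ (fun t => t + 1) isOpen_univ hsmooth v hv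
    (fun _ => mem_univ _)
  have h1 : ∀ x, 1 ≤ u x := fun x => by have := hv0 x; simp only [hu]; linarith
  have hu0 : ∀ x, 0 < u x := fun x => lt_of_lt_of_le zero_lt_one (h1 x)
  have hd : ∀ t : ℝ, deriv (fun t : ℝ => t + 1) t = 1 := fun t => by
    simp
  have hgr : ∀ x, D.gr u u x = D.gr v v x := by
    intro x
    have a1 := (hC.gr_comp univ (fun t => t + 1) isOpen_univ hsmooth v hv
      (fun _ => mem_univ _) u hus x).1
    have a2 := (hC.gr_comp univ (fun t => t + 1) isOpen_univ hsmooth v hv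
      (fun _ => mem_univ _) v hv x).2
    change D.gr u u x = _ at a1
    change D.gr v u x = _ at a2
    rw [a1, a2, hd]
    ring
  have hlapu : ∀ x, D.lap u x = D.lap v x := by
    intro x
    have a1 := hC.lap_comp univ (fun t => t + 1) isOpen_univ hsmooth v hv
      (fun _ => mem_univ _) x
    change D.lap u x = _ at a1
    have e : deriv (fun t : ℝ => t + 1) = fun _ => (1 : ℝ) := funext hd
    rw [a1, e]
    simp
  set C : ℝ := |C₀| with hCdef
  have hC0 : 0 ≤ C := abs_nonneg _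
  have hlu : ∀ x, - (C * u x) ≤ D.lap u x := by
    intro x
    rw [hlapu]
    refine le_trans ?_ (hC₀ x)
    have a1 : C₀ * v x ≤ C * v x := mul_le_mul_of_nonneg_right (le_abs_self _) (hv0 x)
    have a2 : C * u x = C * v x + C := by simp only [hu]; ring
    linarith
  have hgu : Integrable (D.gr u u) D.vol := hgv.congr (ae_of_all _ fun x => (hgr x).symm)
  have hu2 : Integrable (fun x => u x ^ (2 * (q ^ 0))) D.vol := by
    have b1 : Integrable (fun x => 2 * v x ^ 2 + 2) D.vol :=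
      (hv2.const_mul 2).add (integrable_const 2)
    refine Integrable.mono' b1 (rpow_cont hC hus h1 _).aestronglyMeasurable
      (ae_of_all _ fun x => ?_)
    rw [pow_zero, mul_one, Real.norm_of_nonneg (Real.rpow_nonneg (hu0 x).le _)]
    have b2 : u x ^ (2 : ℝ) = u x ^ 2 := by norm_cast
    rw [b2]
    simp only [hu]
    nlinarith [sq_nonneg (v x - 1)]
  -- the constants
  set K : ℝ := |K₀| with hK
  have hK0 : 0 ≤ K := abs_nonneg _
  have hKS : ∀ χ ∈ D.cs, (∫ x, |χ x| ^ (2 * q) ∂D.vol) ^ (1 / q) ≤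
      K * (∫ x, D.gr χ χ x ∂D.vol + ∫ x, χ x ^ 2 ∂D.vol) := by
    intro χ hχ
    refine (hK₀ χ hχ).trans (mul_le_mul_of_nonneg_right (le_abs_self _) ?_)
    exact add_nonneg (integral_nonneg (hC.gr_nonneg χ (hC.cs_sm hχ)))
      (integral_nonneg (fun x => sq_nonneg _))
  set A : ℝ := max 1 (K * (2 * C + 1)) with hA
  let I : ℕ → ℝ := fun k => ∫ x, u x ^ (2 * q ^ k) ∂D.vol
  have hpk : ∀ k : ℕ, (1 : ℝ) ≤ q ^ k := fun k => one_le_pow₀ hq.le
  have hIint : ∀ k : ℕ, Integrable (fun x => u x ^ (2 * q ^ k)) D.vol := by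
    intro k
    induction k with
    | zero => exact hu2
    | succ k ih =>
      have := (sobolev_step hC hL hus h1 hC0 hlu hgu hχ hχ0 hχ1 hlim hE hq hK0 hKS (hpk k) ih).1
      have e : 2 * q ^ (k + 1) = 2 * q ^ k * q := by ring
      rw [e]
      exact this
  have hv0' : 0 < D.vol.real univ := by
    have : 0 < D.vol univ := isOpen_univ.measure_pos _ univ_nonempty
    exact ENNReal.toReal_pos this.ne' (measure_ne_top _ _)
  have hIpos : ∀ k, 0 < I k := by
    intro k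
    have a1 : D.vol.real univ ≤ I k := by
      have : ∫ x, (1 : ℝ) ∂D.vol ≤ I k := by
        refine integral_mono (integrable_const 1) (hIint k) (fun x => ?_)
        exact Real.one_le_rpow (h1 x) (by positivity)
      simpa using this
    linarith
  have hstep : ∀ k, I (k + 1) ≤ (A * (q ^ k) ^ 2 * I k) ^ q := by
    intro k
    have a1 := (sobolev_step hC hL hus h1 hC0 hlu hgu hχ hχ0 hχ1 hlim hE hq hK0 hKS (hpk k)
      (hIint k)).2
    have e : 2 * q ^ (k + 1) = 2 * q ^ k * q := by ring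
    have e2 : I (k + 1) = ∫ x, u x ^ (2 * q ^ k * q) ∂D.vol := by
      simp only [I]; rw [e]
    rw [e2]
    refine a1.trans (Real.rpow_le_rpow ?_ ?_ hq0.le)
    · have := hIpos k
      positivity
    · refine mul_le_mul_of_nonneg_right (mul_le_mul_of_nonneg_right (le_max_right _ _) ?_)
        (hIpos k).le
      positivity
  obtain ⟨R, hR0, hR⟩ := log_iter hq (le_max_left _ _) I hIpos hstep
  -- the set where `2 R < u²`
  have huc : Continuous u := hC.sm_cont u hus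
  let U : Set D.X := {x | 2 * R < u x ^ 2}
  have hUo : IsOpen U := isOpen_lt continuous_const (huc.pow 2)
  have hUm : ∀ k : ℕ, D.vol.real U ≤ (1 / 2 : ℝ) ^ (q ^ k) := by
    intro k
    have a1 : D.vol.real U * (2 * R) ^ (q ^ k) ≤ I k := by
      have b1 : (2 * R) ^ (q ^ k) * D.vol.real {x | (2 * R) ^ (q ^ k) ≤ u x ^ (2 * q ^ k)} ≤
          ∫ x, u x ^ (2 * q ^ k) ∂D.vol :=
        mul_meas_ge_le_integral_of_nonneg
          (ae_of_all _ fun x => Real.rpow_nonneg (hu0 x).le _) (hIint k) _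
      have b2 : D.vol.real U ≤ D.vol.real {x | (2 * R) ^ (q ^ k) ≤ u x ^ (2 * q ^ k)} := by
        refine measureReal_mono (fun x hx => ?_) (measure_ne_top _ _)
        have hx' : 2 * R < u x ^ 2 := hx
        have b3 := Real.rpow_le_rpow (by positivity) hx'.le (by positivity : 0 ≤ q ^ k)
        have b4 : (u x ^ 2) ^ (q ^ k) = u x ^ (2 * q ^ k) := by
          rw [← Real.rpow_natCast, ← Real.rpow_mul (hu0 x).le]
          norm_num
        rw [b4] at b3
        exact b3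
      have b5 : 0 ≤ (2 * R) ^ (q ^ k) := by positivity
      have b6 := mul_le_mul_of_nonneg_left b2 b5
      rw [mul_comm]
      exact b6.trans b1
    have a2 := a1.trans (hR k)
    have a3 : (2 * R) ^ (q ^ k) = 2 ^ (q ^ k) * R ^ (q ^ k) :=
      Real.mul_rpow (by norm_num) hR0.le
    have a4 : 0 < R ^ (q ^ k) := Real.rpow_pos_of_pos hR0 _
    rw [a3, ← mul_assoc] at a2
    have a5 : D.vol.real U * 2 ^ (q ^ k) ≤ 1 := by
      by_contra h
      have h' : 1 < D.vol.real U * 2 ^ (q ^ k) := not_le.1 h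
      have := mul_lt_mul_of_pos_right h' a4
      linarith
    rw [one_div, Real.inv_rpow (by norm_num), ← one_div, le_div_iff₀ (by positivity)]
    exact a5
  have hU0 : D.vol.real U = 0 := by
    have t1 : Tendsto (fun k : ℕ => q ^ k) atTop atTop := tendsto_pow_atTop_atTop_of_one_lt hq
    have t2 : Tendsto (fun k : ℕ => (1 / 2 : ℝ) ^ (q ^ k)) atTop (𝓝 0) :=
      (tendsto_rpow_atTop_of_base_lt_one _ (by norm_num) (by norm_num)).comp t1
    exact le_antisymm (ge_of_tendsto' t2 hUm) measureReal_nonneg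
  have hUe : U = ∅ := by
    have : D.vol U = 0 := by
      rwa [measureReal_eq_zero_iff (measure_ne_top _ _)] at hU0
    exact (hUo.measure_eq_zero_iff _).1 this
  refine ⟨2 * R, fun x => ?_⟩
  have hx : ¬ 2 * R < u x ^ 2 := fun h => by
    have : x ∈ U := h
    rw [hUe] at this
    exact this
  have a1 := not_lt.1 hx
  have a2 : u x ≤ u x ^ 2 := by nlinarith [h1 x]
  have a3 : v x = u x - 1 := by simp only [hu]; ring
  linarith

end Reg

end Pool.Agent.SYM
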