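import Pool.Agent.SYM.SingLip
import Pool.Agent.SYM.SingMoser

/-!
Bounded eigenfunctions of a singular Ricci-flat Kahler metric have bounded gradient (this is the
criterion of Honda for the `RCD(0, 2 n)` property of the completion of the regular part), from the
published facts `Calculus`, `Leibniz`, `Pole`, `Approx`, `Sobolev`.
-/

namespace Pool.Agent.SYM

namespace Reg

theorem lipschitz_of_sobolev {D : Reg} {φ : D.X → ℝ} (hC : D.Calculus) (hL : D.Leibniz)
    (hP : D.Pole φ) (hA : D.Approx) (hS : D.Sobolev) {f : D.X → ℝ} (hf : f ∈ D.sm) {M l : ℝ}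
    (hM : ∀ x, |f x| ≤ M) (hl : ∀ x, D.lap f x = - l * f x) :
    ∃ K, ∀ x, D.gr f f x ≤ K :=
  lipschitz hC hP hA (moser hC hL hP hS) hf hM hl

end Reg

end Pool.Agent.SYM
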