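import Mathlib

open MeasureTheory Set Filter
open scoped ENNReal Topology

namespace Pool.Agent.SYM

/-- finitely many Chebyshev inequalities at one point -/
theorem cheb {α : Type*} [MeasurableSpace α] (μ : Measure α) (W : Set α) (n : ℕ)
    (f : Fin n → α → ℝ≥0∞) (hf : ∀ j, AEMeasurable (f j) (μ.restrict W)) (b l : ℝ≥0∞)
    (hb : ∀ j, ∫⁻ w in W, f j w ∂μ ≤ b) (h : n * b < l * μ W) :
    ∃ w ∈ W, ∀ j, f j w < l := by
  by_contra hcon
  push Not at hcon
  have hsub : W ⊆ ⋃ j, {w | l ≤ f j w} := by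
    intro w hw
    obtain ⟨j, hj⟩ := hcon w hw
    exact mem_iUnion.2 ⟨j, hj⟩
  have h1 : μ W ≤ ∑ j, (μ.restrict W) {w | l ≤ f j w} := by
    calc μ W = (μ.restrict W) W := by rw [Measure.restrict_apply_self]
      _ ≤ (μ.restrict W) (⋃ j, {w | l ≤ f j w}) := measure_mono hsub
      _ ≤ ∑ j, (μ.restrict W) {w | l ≤ f j w} := measure_iUnion_fintype_le _ _
  have h2 : l * μ W ≤ n * b := by
    calc l * μ W ≤ l * ∑ j, (μ.restrict W) {w | l ≤ f j w} := by gcongr
      _ = ∑ j, l * (μ.restrict W) {w | l ≤ f j w} := by rw [Finset.mul_sum]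
      _ ≤ ∑ _j : Fin n, b := by
          refine Finset.sum_le_sum fun j _ => ?_
          exact (mul_meas_ge_le_lintegral₀ (hf j) l).trans (hb j)
      _ = n * b := by simp
  exact absurd h (not_lt.2 h2)

/-- segment lemma -/
theorem seg {E : Type*} [NormedAddCommGroup E] [NormedSpace ℝ E] [MeasurableSpace E]
    [BorelSpace E] [SecondCountableTopology E] (μ : Measure E) [SFinite μ] [μ.IsAddRightInvariant]
    (g : E → ℝ≥0∞) (hg : Measurable g) (W : Set E) (_hWm : MeasurableSet W) :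
    ∫⁻ w in W, (∫⁻ v in Metric.ball (0 : E) 1, ∫⁻ s in Icc (0 : ℝ) 1, g (w + s • v) ∂volume ∂μ) ∂μ
      ≤ μ (Metric.ball (0 : E) 1) * ∫⁻ w in Metric.thickening 1 W, g w ∂μ := by
  have hm : Measurable (fun p : E × E × ℝ => g (p.1 + p.2.2 • p.2.1)) :=
    hg.comp (by fun_prop)
  have e1 : ∀ w : E, (∫⁻ v in Metric.ball (0 : E) 1, ∫⁻ s in Icc (0 : ℝ) 1,
      g (w + s • v) ∂volume ∂μ) = ∫⁻ q, g (w + q.2 • q.1)
        ∂((μ.restrict (Metric.ball (0 : E) 1)).prod (volume.restrict (Icc (0 : ℝ) 1))) := by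
    intro w
    rw [lintegral_prod]
    exact (hg.comp (by fun_prop)).aemeasurable
  simp_rw [e1]
  rw [lintegral_lintegral_swap]
  · have hb : ∀ᵐ q ∂((μ.restrict (Metric.ball (0 : E) 1)).prod (volume.restrict (Icc (0 : ℝ) 1))),
        ∫⁻ w in W, g (w + q.2 • q.1) ∂μ ≤ ∫⁻ w in Metric.thickening 1 W, g w ∂μ := by
      have hq : ∀ᵐ q ∂((μ.restrict (Metric.ball (0 : E) 1)).prod
          (volume.restrict (Icc (0 : ℝ) 1))), q ∈ (Metric.ball (0 : E) 1) ×ˢ (Icc (0 : ℝ) 1) := by
        rw [Measure.prod_restrict]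
        exact ae_restrict_mem (measurableSet_ball.prod measurableSet_Icc)
      filter_upwards [hq] with q hq
      obtain ⟨h1, h2⟩ := hq
      have hn : ‖q.2 • q.1‖ < 1 := by
        rw [norm_smul, Real.norm_eq_abs, abs_of_nonneg h2.1]
        have h1' : ‖q.1‖ < 1 := by simpa using h1
        calc q.2 * ‖q.1‖ ≤ 1 * ‖q.1‖ := by gcongr; exact h2.2
          _ < 1 := by simpa using h1'
      have hT : MeasurableSet (Metric.thickening 1 W) := Metric.isOpen_thickening.measurableSet
      calc ∫⁻ w in W, g (w + q.2 • q.1) ∂μ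
          ≤ ∫⁻ w, (Metric.thickening 1 W).indicator g (w + q.2 • q.1) ∂μ := by
            rw [← lintegral_indicator _hWm]
            refine lintegral_mono fun w => ?_
            by_cases hw : w ∈ W
            · have hw' : w + q.2 • q.1 ∈ Metric.thickening 1 W := by
                rw [Metric.mem_thickening_iff]
                exact ⟨w, hw, by simpa [dist_eq_norm] using hn⟩
              simp [hw, hw']
            · simp [hw]
        _ = ∫⁻ w, (Metric.thickening 1 W).indicator g w ∂μ :=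
            lintegral_add_right_eq_self _ _
        _ = ∫⁻ w in Metric.thickening 1 W, g w ∂μ := lintegral_indicator hT _
    calc ∫⁻ q, ∫⁻ w in W, g (w + q.2 • q.1) ∂μ
          ∂((μ.restrict (Metric.ball (0 : E) 1)).prod (volume.restrict (Icc (0 : ℝ) 1)))
        ≤ ∫⁻ q, (∫⁻ w in Metric.thickening 1 W, g w ∂μ)
          ∂((μ.restrict (Metric.ball (0 : E) 1)).prod (volume.restrict (Icc (0 : ℝ) 1))) :=
          lintegral_mono_ae hb
      _ = μ (Metric.ball (0 : E) 1) * ∫⁻ w in Metric.thickening 1 W, g w ∂μ := by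
          rw [lintegral_const, mul_comm]
          congr 1
          rw [← Set.univ_prod_univ, Measure.prod_prod]
          simp
  · have : Measurable (fun p : E × (E × ℝ) => g (p.1 + p.2.2 • p.2.1)) := hm
    exact this.aemeasurable

end Pool.Agent.SYM
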