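import Pool.Agent.SYM.Lat

/-!
# SYM/Cusp : the choice of the special member and of the nilpotent orbit
-/

set_option autoImplicit false

open Module

namespace Pool.Agent.SYM.Lat

namespace LData

variable {b : ℕ} {C : LData b}

theorem lattice_smul {v : Vec b} (hv : v ∈ lattice b) (m : ℤ) : (m : ℝ) • v ∈ lattice b := by
  intro k
  obtain ⟨l, hl⟩ := hv k
  exact ⟨m * l, by rw [Pi.smul_apply, hl, smul_eq_mul]; push_cast; ring⟩

/-- every non-empty open set contains a rational vector -/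
theorem exists_rat {U : Set (Vec b)} (hU : IsOpen U) {x : Vec b} (hx : x ∈ U) :
    ∃ v ∈ lattice b, ∃ N : ℕ, 0 < N ∧ (N : ℝ)⁻¹ • v ∈ U := by
  obtain ⟨ε, hε, hball⟩ := Metric.isOpen_iff.1 hU x hx
  obtain ⟨N, hN⟩ := exists_nat_gt (ε⁻¹)
  have hNpos : (0 : ℝ) < N := lt_trans (inv_pos.2 hε) hN
  have hN0 : 0 < N := by exact_mod_cast hNpos
  refine ⟨fun k => (round ((N : ℝ) * x k) : ℝ), fun k => ⟨_, rfl⟩, N, hN0, hball ?_⟩
  rw [Metric.mem_ball, dist_eq_norm]
  refine (pi_norm_lt_iff hε).2 fun k => ?_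
  have h1 : ((N : ℝ)⁻¹ • (fun k => (round ((N : ℝ) * x k) : ℝ)) - x) k =
      -((N : ℝ)⁻¹ * ((N : ℝ) * x k - round ((N : ℝ) * x k))) := by
    simp only [Pi.sub_apply, Pi.smul_apply, smul_eq_mul]
    field_simp
    ring
  rw [h1, Real.norm_eq_abs, abs_neg, abs_mul, abs_of_pos (inv_pos.2 hNpos)]
  have h2 := abs_sub_round ((N : ℝ) * x k)
  have h3 : (N : ℝ)⁻¹ < ε := inv_lt_of_inv_lt₀ hε hN
  have h4 : (0 : ℝ) < (N : ℝ)⁻¹ := inv_pos.2 hNpos
  nlinarith

/-- a lattice vector which pairs non-trivially with a non-zero vector -/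
theorem exists_pair (hC : C.Facts) {α : Vec b} (hα0 : α ≠ 0) :
    ∃ w ∈ lattice b, C.q α w ≠ 0 := by
  classical
  obtain ⟨k, hk⟩ : ∃ k : Fin b, C.q α (Pi.single k 1) ≠ 0 := by
    by_contra hcon
    push Not at hcon
    have h0 : C.q α = 0 := (Pi.basisFun ℝ (Fin b)).ext fun k => by
      rw [Pi.basisFun_apply]
      exact hcon k
    exact hα0 (nondeg hC α fun y => by rw [h0]; rfl)
  refine ⟨Pi.single k 1, fun j => ?_, hk⟩
  by_cases hj : j = k
  · subst hj; exact ⟨1, by simp⟩
  · exact ⟨0, by simp [hj]⟩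

/-- two linear forms have a common zero on a space of dimension `3` -/
theorem exists_zero {W : Submodule ℝ (Vec b)} (hW : finrank ℝ W = 3)
    (f g : Vec b →ₗ[ℝ] ℝ) : ∃ z ∈ W, z ≠ 0 ∧ f z = 0 ∧ g z = 0 := by
  let F : W →ₗ[ℝ] (Fin 2 → ℝ) := LinearMap.pi ![f.comp W.subtype, g.comp W.subtype]
  have h1 := F.finrank_range_add_finrank_ker
  have h2 : finrank ℝ (LinearMap.range F) ≤ 2 := by
    have := Submodule.finrank_le (LinearMap.range F)
    simpa using this
  have h3 : 0 < finrank ℝ (LinearMap.ker F) := by omega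
  obtain ⟨z, hz⟩ := (finrank_pos_iff_exists_ne_zero (R := ℝ) (M := LinearMap.ker F)).1 h3
  have h4 : F z.1 = 0 := z.2
  refine ⟨z.1.1, z.1.2, ?_, ?_, ?_⟩
  · intro h
    apply hz
    apply Subtype.ext
    apply Subtype.ext
    exact h
  · have := congrFun h4 0
    simpa [F] using this
  · have := congrFun h4 1
    simpa [F] using this

/-- rational vectors `A`, `A₀` of positive square, orthogonal to each other and to `α` -/
theorem exists_pair_pos (hC : C.Facts) {α : Vec b} (hα : α ∈ lattice b) (hα0 : α ≠ 0)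
    (_hαα : C.q α α = 0) : ∃ A ∈ lattice b, ∃ A0 ∈ lattice b, C.q A α = 0 ∧ C.q A0 α = 0 ∧
      C.q A A0 = 0 ∧ 0 < C.q A A ∧ 0 < C.q A0 A0 := by
  obtain ⟨W, hW, hpos, -⟩ := hC.signature
  obtain ⟨w, hw, hd⟩ := exists_pair hC hα0
  obtain ⟨d, hd'⟩ := hC.integral α hα w hw
  -- the projection to `α^⊥`
  let p : Vec b →ₗ[ℝ] Vec b := (C.q α w) • LinearMap.id - (C.q α).smulRight w
  have hp : ∀ v, p v = C.q α w • v - C.q α v • w := fun v => by simp [p]
  have hpα : ∀ v, C.q (p v) α = 0 := by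
    intro v
    rw [hp, map_sub, map_smul, map_smul, LinearMap.sub_apply, LinearMap.smul_apply,
      LinearMap.smul_apply, smul_eq_mul, smul_eq_mul, hC.symm v α, hC.symm w α]
    ring
  have hplat : ∀ v ∈ lattice b, p v ∈ lattice b := by
    intro v hv
    obtain ⟨m, hm⟩ := hC.integral α hα v hv
    rw [hp, hd', hm]
    exact (lattice b).sub_mem (lattice_smul hv d) (lattice_smul hw m)
  have hpc : Continuous p := LinearMap.continuous_of_finiteDimensional p
  obtain ⟨x, hxW, hx0, hxα, -⟩ := exists_zero hW (C.q α) (C.q α)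
  have hpx : p x = C.q α w • x := by rw [hp, hxα, zero_smul, sub_zero]
  have hU : IsOpen {v : Vec b | 0 < C.q (p v) (p v)} :=
    isOpen_lt continuous_const (continuous_q_self.comp hpc)
  have hxU : x ∈ {v : Vec b | 0 < C.q (p v) (p v)} := by
    change 0 < C.q (p x) (p x)
    rw [hpx]
    simp only [map_smul, LinearMap.smul_apply, smul_eq_mul]
    have h1 := hpos x hxW hx0
    have h2 : 0 < (C.q α w) ^ 2 := by positivity
    nlinarith
  obtain ⟨v, hv, N, hN, hvU⟩ := exists_rat hU hxU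
  have hNr : (0 : ℝ) < N := by exact_mod_cast hN
  have hA : 0 < C.q (p v) (p v) := by
    have h1 : 0 < C.q (p ((N : ℝ)⁻¹ • v)) (p ((N : ℝ)⁻¹ • v)) := hvU
    simp only [map_smul, LinearMap.smul_apply, smul_eq_mul] at h1
    have h2 : (0 : ℝ) < (N : ℝ)⁻¹ := inv_pos.2 hNr
    by_contra hcon
    push Not at hcon
    nlinarith [mul_nonneg h2.le h2.le, mul_nonneg (mul_nonneg h2.le h2.le) (neg_nonneg.2 hcon)]
  set A : Vec b := p v with hAdef
  have hAlat : A ∈ lattice b := hplat v hv
  obtain ⟨a, ha⟩ := hC.integral A hAlat A hAlat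
  -- the projection to `⟨α, A⟩^⊥`
  let p2 : Vec b →ₗ[ℝ] Vec b := (C.q A A) • p - ((C.q A).comp p).smulRight A
  have hp2 : ∀ v, p2 v = C.q A A • p v - C.q A (p v) • A := fun v => by simp [p2]
  have hp2α : ∀ v, C.q (p2 v) α = 0 := by
    intro v
    rw [hp2, map_sub, map_smul, map_smul, LinearMap.sub_apply, LinearMap.smul_apply,
      LinearMap.smul_apply, smul_eq_mul, smul_eq_mul, hpα, hpα]
    ring
  have hp2A : ∀ v, C.q A (p2 v) = 0 := by
    intro v
    rw [hp2, map_sub, map_smul, map_smul, smul_eq_mul, smul_eq_mul]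
    ring
  have hp2lat : ∀ v ∈ lattice b, p2 v ∈ lattice b := by
    intro v hv
    obtain ⟨m, hm⟩ := hC.integral A hAlat (p v) (hplat v hv)
    rw [hp2, ha, hm]
    exact (lattice b).sub_mem (lattice_smul (hplat v hv) a) (lattice_smul hAlat m)
  have hp2c : Continuous p2 := LinearMap.continuous_of_finiteDimensional p2
  obtain ⟨z, hzW, hz0, hzα, hzA⟩ := exists_zero hW (C.q α) (C.q A)
  have hpz : p2 z = (C.q A A * C.q α w) • z := by
    rw [hp2, hp, hzα, zero_smul, sub_zero, map_smul, hzA, smul_zero, zero_smul, sub_zero,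
      smul_smul]
  have hU2 : IsOpen {v : Vec b | 0 < C.q (p2 v) (p2 v)} :=
    isOpen_lt continuous_const (continuous_q_self.comp hp2c)
  have hzU : z ∈ {v : Vec b | 0 < C.q (p2 v) (p2 v)} := by
    change 0 < C.q (p2 z) (p2 z)
    rw [hpz]
    simp only [map_smul, LinearMap.smul_apply, smul_eq_mul]
    have h1 := hpos z hzW hz0
    have h2 : 0 < (C.q A A * C.q α w) * (C.q A A * C.q α w) := by
      exact mul_self_pos.2 (mul_ne_zero hA.ne' hd)
    nlinarith
  obtain ⟨u, hu, M, hM, huU⟩ := exists_rat hU2 hzU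
  have hMr : (0 : ℝ) < M := by exact_mod_cast hM
  have hA0 : 0 < C.q (p2 u) (p2 u) := by
    have h1 : 0 < C.q (p2 ((M : ℝ)⁻¹ • u)) (p2 ((M : ℝ)⁻¹ • u)) := huU
    simp only [map_smul, LinearMap.smul_apply, smul_eq_mul] at h1
    have h2 : (0 : ℝ) < (M : ℝ)⁻¹ := inv_pos.2 hMr
    by_contra hcon
    push Not at hcon
    nlinarith [mul_nonneg h2.le h2.le, mul_nonneg (mul_nonneg h2.le h2.le) (neg_nonneg.2 hcon)]
  exact ⟨A, hAlat, p2 u, hp2lat u hu, hpα v, hp2α u, hp2A u, hA, hA0⟩

/-- two positive three-spaces are in duality -/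
theorem gram_ne_zero (hC : C.Facts) {x y κ x' y' B : Vec b} (hp : C.PosPlane x y)
    (hκx : C.q κ x = 0) (hκy : C.q κ y = 0) (hκ : 0 < C.q κ κ) (hp' : C.PosPlane x' y')
    (hBx : C.q B x' = 0) (hBy : C.q B y' = 0) (hB : 0 < C.q B B) :
    C.gram x y κ x' y' B ≠ 0 := by
  intro hdet
  obtain ⟨v, hv0, hv⟩ := Matrix.exists_mulVec_eq_zero_iff.2 hdet
  have e : ∀ u, C.q u (v 0 • x' + v 1 • y' + v 2 • B) =
      C.q u x' * v 0 + C.q u y' * v 1 + C.q u B * v 2 := by
    intro u
    simp only [map_add, map_smul, smul_eq_mul]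
    ring
  have h0 := congrFun hv 0
  have h1 := congrFun hv 1
  have h2 := congrFun hv 2
  simp only [Matrix.mulVec, dotProduct, Fin.sum_univ_three, Matrix.of_apply, Matrix.cons_val',
    Matrix.cons_val_zero, Matrix.cons_val_one, Matrix.cons_val_two, Matrix.cons_val_fin_one,
    Matrix.head_cons, Matrix.tail_cons, Pi.zero_apply] at h0 h1 h2
  set w : Vec b := v 0 • x' + v 1 • y' + v 2 • B with hw
  have hxw : C.q w x = 0 := by rw [hC.symm, e]; exact h0
  have hyw : C.q w y = 0 := by rw [hC.symm, e]; exact h1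
  have hκw : C.q w κ = 0 := by rw [hC.symm, e]; exact h2
  have hx'B : C.q x' B = 0 := by rw [hC.symm, hBx]
  have hy'B : C.q y' B = 0 := by rw [hC.symm, hBy]
  have hww : C.q w w = C.q (v 0 • x' + v 1 • y') (v 0 • x' + v 1 • y') + v 2 ^ 2 * C.q B B := by
    rw [hw]
    simp only [map_add, map_smul, LinearMap.add_apply, LinearMap.smul_apply, smul_eq_mul, hBx,
      hBy, hx'B, hy'B]
    ring
  have hpos : 0 < C.q w w := by
    rw [hww]
    by_cases hz : v 0 ≠ 0 ∨ v 1 ≠ 0
    · have h3 := hp' (v 0) (v 1) hz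
      positivity
    · push Not at hz
      have h3 : v 2 ≠ 0 := by
        intro h4
        apply hv0
        funext k
        fin_cases k
        · exact hz.1
        · exact hz.2
        · exact h4
      have h5 := posPlane_nonneg hp' (v 0) (v 1)
      have h6 : 0 < v 2 ^ 2 * C.q B B := by positivity
      linarith
  have hw0 : w ≠ 0 := by
    intro h
    rw [h] at hpos
    simp at hpos
  have := hodge_pos hC hp hκx hκy hκ hxw hyw hκw hw0
  linarith

theorem gram_neg (x y κ x' y' B : Vec b) :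
    C.gram x y κ (-x') y' B = -C.gram x y κ x' y' B := by
  simp only [gram, map_neg, Matrix.det_fin_three]
  simp
  ring

/-- the special member `j`, of period plane `⟨A₀ + c α, A⟩`, and a Kähler class `ω` of it -/
structure Cusp (C : LData b) (α : Vec b) where
  A : Vec b
  A0 : Vec b
  ω : Vec b
  c : ℝ
  j : C.I

/-- the real class `A' = A₀ + c α` -/
def Cusp.A' {α : Vec b} (D : Cusp C α) : Vec b := D.A0 + D.c • α

/-- what is required of the special member -/
structure Cusp.Facts {α : Vec b} (D : Cusp C α) : Prop where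
  hα : α ∈ lattice b
  hα0 : α ≠ 0
  hαα : C.q α α = 0
  hA : D.A ∈ lattice b
  hA0 : D.A0 ∈ lattice b
  hAα : C.q D.A α = 0
  hA0α : C.q D.A0 α = 0
  hAA0 : C.q D.A D.A0 = 0
  posA : 0 < C.q D.A D.A
  posA0 : 0 < C.q D.A0 D.A0
  irr : Irrational D.c
  per : C.per D.j D.A' D.A
  kah : D.ω ∈ C.kahler D.j
  pos : 0 < C.q α D.ω
  wall : ∀ s ∈ C.S, C.q s D.A' = 0 → C.q s D.A = 0 → C.q s D.ω ≠ 0

/-- a lattice vector orthogonal to `A₀ + c α`, `c` irrational, is orthogonal to `A₀` and `α` -/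
theorem irr_orth (hC : C.Facts) {α A0 : Vec b} {c : ℝ} (hα : α ∈ lattice b)
    (hA0 : A0 ∈ lattice b) (hc : Irrational c) {s : Vec b} (hs : s ∈ lattice b)
    (h : C.q s (A0 + c • α) = 0) : C.q s A0 = 0 ∧ C.q s α = 0 := by
  obtain ⟨m, hm⟩ := hC.integral s hs A0 hA0
  obtain ⟨l, hl⟩ := hC.integral s hs α hα
  rw [map_add, map_smul, hm, hl, smul_eq_mul] at h
  have hl0 : l = 0 := by
    by_contra hne
    apply hc
    refine ⟨(-m : ℤ) / (l : ℤ), ?_⟩
    have hlr : (l : ℝ) ≠ 0 := by exact_mod_cast hne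
    push_cast
    field_simp
    linarith
  subst hl0
  rw [hl, hm]
  push_cast at h ⊢
  constructor
  · linarith
  · rfl

theorem exists_cusp (hC : C.Facts) (i : C.I) {α : Vec b} (hα : α ∈ lattice b) (hα0 : α ≠ 0)
    (hαα : C.q α α = 0) (hnef : C.Nef i α) : ∃ D : Cusp C α, D.Facts := by
  obtain ⟨x, y, hp⟩ := hC.per_exists i
  obtain ⟨κ, hκ⟩ := hC.kahler_nonempty i
  obtain ⟨-, -, hακ⟩ := nef_pos hC hp hnef hα0 hκ
  have hκκ := (hC.kahler_iff i x y hp κ hκ κ).1 hκ
  obtain ⟨A, hA, A0, hA0, hAα, hA0α, hAA0, posA, posA0⟩ := exists_pair_pos hC hα hα0 hαα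
  obtain ⟨c, hc⟩ : ∃ c : ℝ, Irrational c := ⟨_, irrational_sqrt_two⟩
  set A' : Vec b := A0 + c • α with hA'
  have hαA : C.q α A = 0 := by rw [hC.symm, hAα]
  have hαA0 : C.q α A0 = 0 := by rw [hC.symm, hA0α]
  have hA0A : C.q A0 A = 0 := by rw [hC.symm, hAA0]
  have hA'A' : C.q A' A' = C.q A0 A0 := by
    rw [hA']
    simp only [map_add, map_smul, LinearMap.add_apply, LinearMap.smul_apply, smul_eq_mul, hαα,
      hαA0, hA0α]
    ring
  have hA'A : C.q A' A = 0 := by
    rw [hA']
    simp only [map_add, map_smul, LinearMap.add_apply, LinearMap.smul_apply, smul_eq_mul, hαA,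
      hA0A]
    ring
  have hAA' : C.q A A' = 0 := by rw [hC.symm, hA'A]
  have hA'α : C.q A' α = 0 := by
    rw [hA']
    simp only [map_add, map_smul, LinearMap.add_apply, LinearMap.smul_apply, smul_eq_mul, hαα,
      hA0α]
    ring
  have posA' : 0 < C.q A' A' := by rw [hA'A']; exact posA0
  have hpp : C.PosPlane A' A := by
    intro s t hst
    have e : C.q (s • A' + t • A) (s • A' + t • A) = s ^ 2 * C.q A' A' + t ^ 2 * C.q A A := by
      simp only [map_add, map_smul, LinearMap.add_apply, LinearMap.smul_apply, smul_eq_mul, hAA',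
        hA'A]
      ring
    rw [e]
    rcases hst with h | h
    · have h1 : 0 < s ^ 2 * C.q A' A' := by positivity
      have h2 : 0 ≤ t ^ 2 * C.q A A := by positivity
      linarith
    · have h1 : 0 ≤ s ^ 2 * C.q A' A' := by positivity
      have h2 : 0 < t ^ 2 * C.q A A := by positivity
      linarith
  -- a generic class of `⟨A', A⟩^⊥`
  let N : Submodule ℝ (Vec b) := Submodule.span ℝ {A', A}
  set v0 : Vec b := κ - (C.q κ A' / C.q A' A') • A' - (C.q κ A / C.q A A) • A with hv0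
  have hv0A' : C.q v0 A' = 0 := by
    rw [hv0]
    simp only [map_sub, map_smul, LinearMap.sub_apply, LinearMap.smul_apply, smul_eq_mul, hAA']
    field_simp
    ring
  have hv0A : C.q v0 A = 0 := by
    rw [hv0]
    simp only [map_sub, map_smul, LinearMap.sub_apply, LinearMap.smul_apply, smul_eq_mul, hA'A]
    field_simp
    ring
  have hv0α : 0 < C.q v0 α := by
    rw [hv0]
    simp only [map_sub, map_smul, LinearMap.sub_apply, LinearMap.smul_apply, smul_eq_mul, hA'α,
      hAα]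
    rw [hC.symm κ α]
    linarith
  have hN : ∀ v, (∀ w ∈ N, C.q v w = 0) ↔ C.q v A' = 0 ∧ C.q v A = 0 := by
    intro v
    constructor
    · intro h
      exact ⟨h _ (Submodule.subset_span (by simp)), h _ (Submodule.subset_span (by simp))⟩
    · rintro ⟨h1, h2⟩ w hw
      obtain ⟨s, t, rfl⟩ := Submodule.mem_span_pair.1 hw
      rw [map_add, map_smul, map_smul, h1, h2]
      simp
  obtain ⟨ε, hε, hball⟩ := Metric.isOpen_iff.1
    (isOpen_lt continuous_const (continuous_q_left α) : IsOpen {v : Vec b | 0 < C.q v α}) v0 hv0α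
  obtain ⟨x', hx'N, hx'd, hx's⟩ := exists_generic hC N v0 ((hN v0).2 ⟨hv0A', hv0A⟩) hε
  have hx'α : 0 < C.q x' α := hball hx'd
  obtain ⟨hx'A', hx'A⟩ := (hN x').1 hx'N
  have hαx' : C.q α x' = C.q x' α := hC.symm _ _
  set δ : ℝ := C.q x' α / (|C.q x' x'| + 1) with hδ
  have hδpos : 0 < δ := by positivity
  set ω : Vec b := α + δ • x' with hω
  have hωA' : C.q ω A' = 0 := by
    rw [hω, C.q.map_add, C.q.map_smul, LinearMap.add_apply, LinearMap.smul_apply, hx'A',
      hC.symm α A', hA'α]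
    simp
  have hωA : C.q ω A = 0 := by
    rw [hω, C.q.map_add, C.q.map_smul, LinearMap.add_apply, LinearMap.smul_apply, hx'A, hαA]
    simp
  have hαω : C.q α ω = δ * C.q x' α := by
    rw [hω, map_add, map_smul, hαα, hαx', smul_eq_mul, zero_add]
  have hωω : C.q ω ω = δ * (2 * C.q x' α + δ * C.q x' x') := by
    rw [hω]
    simp only [map_add, map_smul, LinearMap.add_apply, LinearMap.smul_apply, smul_eq_mul, hαα,
      hαx']
    ring
  have hωpos : 0 < C.q ω ω := by
    rw [hωω]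
    apply mul_pos hδpos
    have h1 : δ * |C.q x' x'| ≤ C.q x' α := by
      rw [hδ, div_mul_eq_mul_div, div_le_iff₀ (by positivity)]
      have := abs_nonneg (C.q x' x')
      nlinarith
    have h2 := neg_abs_le (C.q x' x')
    nlinarith
  have hwall : ∀ s ∈ C.S, C.q s A' = 0 → C.q s A = 0 → C.q s ω ≠ 0 := by
    intro s hs h1 h2
    have h3 := (irr_orth hC hα hA0 hc (hC.wall_mem s hs) h1).2
    rw [hω, map_add, map_smul, h3, zero_add, smul_eq_mul]
    refine mul_ne_zero hδpos.ne' (hx's s (hC.wall_mem s hs) ?_)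
    intro hsN
    obtain ⟨a, a', rfl⟩ := Submodule.mem_span_pair.1 hsN
    have h4 := hC.wall_sq _ hs
    have h5 := posPlane_nonneg hpp a a'
    linarith
  have hdet := gram_ne_zero hC (hC.per_pos i x y hp) hκκ.1 hκκ.2.1 hκκ.2.2.1 hpp hωA' hωA hωpos
  have hα_ω : 0 < C.q α ω := by rw [hαω]; positivity
  rcases lt_or_gt_of_ne hdet with hneg | hpos
  · -- change the sign of `A'`
    have hpp' : C.PosPlane (-A') A := by
      intro s t hst
      have := hpp (-s) t (by
        rcases hst with h | h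
        · exact Or.inl (neg_ne_zero.2 h)
        · exact Or.inr h)
      have e : s • (-A') + t • A = (-s) • A' + t • A := by rw [smul_neg, neg_smul]
      rw [e]
      exact this
    have hgram : C.gram x y κ (-A') A ω = -C.gram x y κ A' A ω := gram_neg _ _ _ _ _ _
    obtain ⟨j, hj, hωj⟩ := hC.period i x y hp κ hκ (-A') A ω hpp' (by rw [map_neg, hωA', neg_zero])
      hωA hωpos (by rw [hgram]; linarith) (by
        intro s hs h1 h2
        rw [map_neg, neg_eq_zero] at h1
        exact hwall s hs h1 h2)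
    have eA' : (-A0) + (-c) • α = -A' := by rw [hA', neg_add, neg_smul]
    refine ⟨⟨A, -A0, ω, -c, j⟩, ?_⟩
    exact
      { hα := hα, hα0 := hα0, hαα := hαα, hA := hA, hA0 := (lattice b).neg_mem hA0, hAα := hAα
        hA0α := by rw [map_neg, LinearMap.neg_apply, hA0α, neg_zero]
        hAA0 := by rw [map_neg, hAA0, neg_zero]
        posA := posA
        posA0 := by rw [map_neg, map_neg, LinearMap.neg_apply, neg_neg]; exact posA0
        irr := hc.neg
        per := by
          change C.per j ((-A0) + (-c) • α) A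
          rw [eA']; exact hj
        kah := hωj
        pos := hα_ω
        wall := by
          intro s hs h1 h2
          change C.q s ((-A0) + (-c) • α) = 0 at h1
          rw [eA', map_neg, neg_eq_zero] at h1
          exact hwall s hs h1 h2 }
  · obtain ⟨j, hj, hωj⟩ := hC.period i x y hp κ hκ A' A ω hpp hωA' hωA hωpos hpos hwall
    exact ⟨⟨A, A0, ω, c, j⟩,
      { hα := hα, hα0 := hα0, hαα := hαα, hA := hA, hA0 := hA0, hAα := hAα, hA0α := hA0α
        hAA0 := hAA0, posA := posA, posA0 := posA0, irr := hc, per := hj, kah := hωj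
        pos := hα_ω, wall := hwall }⟩

end LData

end Pool.Agent.SYM.Lat
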