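import Pool.Agent.SYM.Geo

open MeasureTheory Set Filter
open scoped ENNReal Topology

namespace Pool.Agent.SYM

/-- A sequence of metrics `M k` of the class (fibres `t_k -> 0` of a projective semistable
degeneration with `L k = |log t_k|`, metric `L k` times the Ricci-flat metric of the
polarisation), the functions `y_i = - log |s_{E_i}|` of the `m+1` components through a deepest
point `p`, the trace `th` of the Fubini-Study form, the inverse `φ` of the logarithmic chart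
`ζ = (log w_1, ..., log w_m)` near `p`, the operator norm `G` of the metric in this chart, and the
regions `W` (core of the chart) and `U` (chart domain). -/
structure Degen {m : ℕ} (D : Geo m) where
  M : ℕ → D.Met
  L : ℕ → ℝ
  y : ℕ → Fin (m + 1) → D.X → ℝ
  th : ℕ → D.X → ℝ
  φ : ℕ → (Fin m → ℂ) → D.X
  G : ℕ → (Fin m → ℂ) → ℝ
  W : ℕ → Set (Fin m → ℂ)
  U : ℕ → Set (Fin m → ℂ)

namespace Degen

variable {m : ℕ} {D : Geo m} (S : Degen D)

/-- What the semistable model gives. -/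
structure Facts (A a : ℝ) : Prop where
  A_pos : 0 < A
  a_pos : 0 < a
  L_one : ∀ k, 1 ≤ S.L k
  L_top : Tendsto S.L atTop atTop
  y_sm : ∀ k i, S.y k i ∈ D.sm
  y_nonneg : ∀ k i x, 0 ≤ S.y k i x
  y_le : ∀ k i x, S.y k i x ≤ A * S.L k
  th_cont : ∀ k, Continuous (S.th k)
  th_nonneg : ∀ k x, 0 ≤ S.th k x
  th_ener : ∀ k, S.th k ∈ D.ener (S.M k)
  /-- curvature forms of the line bundles of the components are bounded by `θ` -/
  lap_le : ∀ k i x, |D.lap (S.M k) (S.y k i) x| ≤ A * S.th k x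
  /-- the intersection number `θ · ω^(m-1)` -/
  th_int : ∀ k, ∫ x, S.th k x ∂(D.vol (S.M k)) ≤ A * S.L k ^ m / S.L k
  W_meas : ∀ k, MeasurableSet (S.W k)
  /-- the chart carries a fixed fraction of the volume -/
  W_vol : ∀ k, ENNReal.ofReal (a * S.L k ^ m) ≤ volume (S.W k)
  W_fin : ∀ k, volume (Metric.thickening 1 (S.W k)) ≤ ENNReal.ofReal (A * S.L k ^ m)
  φ_meas : ∀ k, Measurable (S.φ k)
  φ_cont : ∀ k, ContinuousOn (S.φ k) (S.U k)
  pull : ∀ k, ∀ f : D.X → ℝ, Continuous f → (∀ x, 0 ≤ f x) →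
    ∫⁻ w in S.W k, ENNReal.ofReal (f (S.φ k w)) ≤
      ENNReal.ofReal (A * ∫ x, f x ∂(D.vol (S.M k)))
  /-- the volume form is comparable to the Lebesgue measure of the chart -/
  push : ∀ k, ∀ w ∈ S.W k, ∀ s : Set D.X, MeasurableSet s →
    volume (Metric.ball w 1 ∩ S.φ k ⁻¹' s) ≤ ENNReal.ofReal A * D.vol (S.M k) s
  G_meas : ∀ k, Measurable (S.G k)
  G_nonneg : ∀ k w, 0 ≤ S.G k w
  /-- the intersection number `ω · β^(m-1)`, `β` positive in the class of `θ` -/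
  G_int : ∀ k, ∫⁻ w in Metric.thickening 1 (S.W k), ENNReal.ofReal (S.G k w) ≤
    ENNReal.ofReal (A * S.L k ^ m)
  /-- `G` bounds the length of segments -/
  len : ∀ k w v, (∀ s ∈ Icc (0 : ℝ) 1, w + s • v ∈ S.U k) →
    ENNReal.ofReal (D.dist (S.M k) (S.φ k w) (S.φ k (w + v))) ≤
      ENNReal.ofReal ‖v‖ * ∫⁻ s in Icc (0 : ℝ) 1, ENNReal.ofReal (Real.sqrt (S.G k (w + s • v)))
  deep : ∀ r : ℝ, ∀ᶠ k in atTop, ∀ w ∈ S.W k, Metric.ball w r ⊆ S.U k
  y_W : ∀ k, ∀ w ∈ S.W k, ∀ i, 3 * a * S.L k ≤ S.y k i (S.φ k w)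
  /-- `dζ_i = -∂y_i` up to forms bounded by `θ`, and `dζ_1 ∧ ... ∧ dζ_m` has constant norm -/
  G_le : ∀ C : ℝ, ∃ K : ℝ, ∀ k, ∀ w ∈ S.U k,
    (∀ i, D.gr (S.M k) (S.y k i) (S.y k i) (S.φ k w) ≤ C) → S.th k (S.φ k w) ≤ 1 → S.G k w ≤ K
  gram_low : ∀ C : ℝ, ∃ τ : ℝ, 0 < τ ∧ ∀ k x, (∀ i, 2 * a * S.L k ≤ S.y k i x) →
    (∀ i, D.gr (S.M k) (S.y k i) (S.y k i) x ≤ C) → S.th k x ≤ τ →
    a ≤ D.gram (S.M k) (fun i : Fin m => S.y k i.succ) x

end Degen

end Pool.Agent.SYM
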