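import Pool.Agent.LE60.MatA

/-!
# SYM/HermA : inequalities for hermitian matrices

`det(t + Q) ≥ t s^(m-1) |det Z|² tr((Z* Z)⁻¹)` if `Q ≥ s Z* Z`.
-/

set_option autoImplicit false

open Matrix
open scoped ComplexOrder ComplexConjugate

namespace Pool.Agent.SYM

/-- `∏ (s + t μ_i) ≥ s^k + s^(k-1) t ∑ μ_i` -/
theorem prod_add_ge {ι : Type*} [DecidableEq ι] (S : Finset ι) (μ : ι → ℝ) (hμ : ∀ i, 0 ≤ μ i)
    {s t : ℝ} (hs : 0 ≤ s) (ht : 0 ≤ t) :
    s ^ S.card + s ^ (S.card - 1) * (t * ∑ i ∈ S, μ i) ≤ ∏ i ∈ S, (s + t * μ i) := by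
  induction S using Finset.induction_on with
  | empty => simp
  | insert a S ha ih =>
    rw [Finset.card_insert_of_notMem ha, Finset.sum_insert ha, Finset.prod_insert ha]
    have h1 : 0 ≤ s + t * μ a := by have := hμ a; positivity
    refine le_trans ?_ (mul_le_mul_of_nonneg_left ih h1)
    have h2 : 0 ≤ ∑ i ∈ S, μ i := Finset.sum_nonneg fun i _ => hμ i
    have h3 := hμ a
    rcases Nat.eq_zero_or_pos S.card with h0 | h0
    · have hS : S = ∅ := Finset.card_eq_zero.1 h0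
      subst hS
      simp
    · obtain ⟨k, hk⟩ : ∃ k, S.card = k + 1 := ⟨S.card - 1, by omega⟩
      rw [hk]
      simp only [Nat.add_sub_cancel]
      have h4 : 0 ≤ t * μ a * (s ^ k * (t * ∑ i ∈ S, μ i)) := by positivity
      have e : (s + t * μ a) * (s ^ (k + 1) + s ^ k * (t * ∑ i ∈ S, μ i)) =
          s ^ (k + 1 + 1) + s ^ (k + 1) * (t * (μ a + ∑ i ∈ S, μ i)) +
            t * μ a * (s ^ k * (t * ∑ i ∈ S, μ i)) := by ring
      rw [e]
      linarith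

variable {ι : Type*} [Fintype ι] [DecidableEq ι]

/-- `det(s + t K) = ∏ (s + t μ_i)`, `μ_i` the eigenvalues of `K` -/
theorem det_smul_add_smul {K : Matrix ι ι ℂ} (hK : K.IsHermitian) (s t : ℝ) (ht : t ≠ 0) :
    ((s : ℂ) • (1 : Matrix ι ι ℂ) + (t : ℂ) • K).det = ((∏ i, (s + t * hK.eigenvalues i) : ℝ) : ℂ) := by
  have h := congrArg (Polynomial.eval (-(s : ℂ) / t)) hK.charpoly_eq
  rw [Matrix.eval_charpoly, Polynomial.eval_prod] at h
  have ht' : (t : ℂ) ≠ 0 := by exact_mod_cast ht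
  have e : (s : ℂ) • (1 : Matrix ι ι ℂ) + (t : ℂ) • K =
      (-(t : ℂ)) • (Matrix.scalar ι (-(s : ℂ) / t) - K) := by
    rw [smul_sub, neg_smul, neg_smul, sub_neg_eq_add]
    congr 1
    rw [Matrix.scalar_apply, ← Matrix.smul_one_eq_diagonal, smul_smul, ← neg_smul]
    congr 1
    field_simp
  rw [e, Matrix.det_smul, h, ← Finset.card_univ, ← Finset.prod_const, ← Finset.prod_mul_distrib]
  push_cast
  refine Finset.prod_congr rfl fun i _ => ?_
  simp only [Polynomial.eval_sub, Polynomial.eval_X, Polynomial.eval_C]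
  have : ((RCLike.ofReal (hK.eigenvalues i) : ℂ)) = ((hK.eigenvalues i : ℝ) : ℂ) := rfl
  rw [this]
  field_simp
  ring

/-- `det(s + t K) ≥ s^m + s^(m-1) t tr K` for `K ≥ 0` -/
theorem det_add_smul_ge {K : Matrix ι ι ℂ} (hK : K.PosSemidef) {s t : ℝ} (hs : 0 ≤ s)
    (ht : 0 < t) :
    s ^ Fintype.card ι + s ^ (Fintype.card ι - 1) * (t * K.trace.re) ≤
      ((s : ℂ) • (1 : Matrix ι ι ℂ) + (t : ℂ) • K).det.re := by
  rw [det_smul_add_smul hK.1 s t ht.ne', Complex.ofReal_re]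
  have h1 : K.trace.re = ∑ i, hK.1.eigenvalues i := by
    rw [hK.1.trace_eq_sum_eigenvalues]
    have : ∀ i, (RCLike.ofReal (hK.1.eigenvalues i) : ℂ) = ((hK.1.eigenvalues i : ℝ) : ℂ) :=
      fun _ => rfl
    simp only [this]
    rw [← Complex.ofReal_sum, Complex.ofReal_re]
  rw [h1]
  have := prod_add_ge (Finset.univ : Finset ι) (fun i => hK.1.eigenvalues i)
    (fun i => hK.eigenvalues_nonneg i) hs ht.le
  simpa [Finset.card_univ] using this

/-- `det(t + s H) ≥ t s^(m-1) det(H) tr(H⁻¹)` for `H > 0` -/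
theorem det_add_smul_ge' {H : Matrix ι ι ℂ} (hH : H.PosDef) {s t : ℝ} (hs : 0 ≤ s)
    (ht : 0 < t) :
    t * s ^ (Fintype.card ι - 1) * (H.det.re * (H⁻¹).trace.re) ≤
      ((t : ℂ) • (1 : Matrix ι ι ℂ) + (s : ℂ) • H).det.re := by
  have hu : IsUnit H.det := (Matrix.isUnit_iff_isUnit_det _).1 hH.isUnit
  have e : (t : ℂ) • (1 : Matrix ι ι ℂ) + (s : ℂ) • H =
      H * ((s : ℂ) • (1 : Matrix ι ι ℂ) + (t : ℂ) • H⁻¹) := by
    rw [mul_add, Matrix.mul_smul, Matrix.mul_smul, mul_one, Matrix.mul_nonsing_inv _ hu, add_comm]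
  have h1 := det_add_smul_ge hH.inv.posSemidef hs ht
  have h0 : 0 < H.det.re := (Complex.pos_iff.1 hH.det_pos).1
  have hHerm : ((s : ℂ) • (1 : Matrix ι ι ℂ) + (t : ℂ) • H⁻¹).IsHermitian := by
    refine IsHermitian.add ?_ ?_
    · unfold Matrix.IsHermitian
      rw [Matrix.conjTranspose_smul, Matrix.conjTranspose_one, Complex.star_def,
        Complex.conj_ofReal]
    · unfold Matrix.IsHermitian
      rw [Matrix.conjTranspose_smul, hH.inv.1.eq, Complex.star_def, Complex.conj_ofReal]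
  rw [e, Matrix.det_mul, LE60.det_eq_re hH.1, LE60.det_eq_re hHerm, ← Complex.ofReal_mul,
    Complex.ofReal_re, Complex.ofReal_re]
  have h2 : 0 ≤ s ^ Fintype.card ι := by positivity
  calc t * s ^ (Fintype.card ι - 1) * (H.det.re * (H⁻¹).trace.re)
      = H.det.re * (s ^ (Fintype.card ι - 1) * (t * (H⁻¹).trace.re)) := by ring
    _ ≤ _ := by
        gcongr
        linarith

/-- the operator norm of `Z⁻¹` -/
theorem trace_inv_eq (Z : Matrix ι ι ℂ) :
    ((Zᴴ * Z)⁻¹).trace.re = ∑ i, ∑ j, ‖Z⁻¹ i j‖ ^ 2 := by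
  rw [Matrix.mul_inv_rev, Matrix.trace]
  simp only [Matrix.diag_apply, Matrix.mul_apply, Complex.re_sum]
  refine Finset.sum_congr rfl fun i _ => Finset.sum_congr rfl fun j _ => ?_
  rw [← Matrix.conjTranspose_nonsing_inv, Matrix.conjTranspose_apply, Complex.star_def,
    Complex.mul_conj, Complex.ofReal_re, Complex.normSq_eq_norm_sq]

/-- **Determinant bound.** If `Q ≥ s Z* Z` then `det(t + Q) ≥ t s^(m-1) |det Z|² |Z⁻¹|²` with the
Hilbert-Schmidt norm of `Z⁻¹`. -/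
theorem det_ge_of_sub {Z Q : Matrix ι ι ℂ} (hZ : Z.det ≠ 0) {s t : ℝ} (hs : 0 ≤ s) (ht : 0 < t)
    (hQ : (Q - (s : ℂ) • (Zᴴ * Z)).PosSemidef) :
    t * s ^ (Fintype.card ι - 1) * (‖Z.det‖ ^ 2 * ∑ i, ∑ j, ‖Z⁻¹ i j‖ ^ 2) ≤
      ((t : ℂ) • (1 : Matrix ι ι ℂ) + Q).det.re := by
  have hH : (Zᴴ * Z).PosDef := by
    refine (Matrix.posSemidef_conjTranspose_mul_self Z).posDef_iff_det_ne_zero.2 ?_
    rw [Matrix.det_mul, Matrix.det_conjTranspose]
    exact mul_ne_zero (by simpa using hZ) hZ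
  have hdet : (Zᴴ * Z).det.re = ‖Z.det‖ ^ 2 := by
    rw [Matrix.det_mul, Matrix.det_conjTranspose, Complex.star_def, mul_comm, Complex.mul_conj,
      Complex.ofReal_re, Complex.normSq_eq_norm_sq]
  have h1 := det_add_smul_ge' hH hs ht
  rw [hdet, trace_inv_eq] at h1
  refine h1.trans ?_
  refine LE60.det_mono ?_ ?_
  · have ha : ((t : ℂ) • (1 : Matrix ι ι ℂ)).PosSemidef :=
      (Matrix.PosSemidef.one).smul (by exact_mod_cast ht.le)
    have hb : ((s : ℂ) • (Zᴴ * Z)).PosSemidef :=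
      hH.posSemidef.smul (by exact_mod_cast hs)
    exact ha.add hb
  · have : (t : ℂ) • (1 : Matrix ι ι ℂ) + Q - ((t : ℂ) • (1 : Matrix ι ι ℂ) + (s : ℂ) • (Zᴴ * Z)) =
        Q - (s : ℂ) • (Zᴴ * Z) := by abel
    rw [this]
    exact hQ

end Pool.Agent.SYM
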