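import Pool.Agent.SYM.HermA

/-!
# SYM/HermB : the form `β = θ + δ i∂∂̄ √(1 + |y|²)` is bounded below by `(c/L) ∑ |dζ_j|²`

`y_0, ..., y_m ≥ 0` are real numbers, `Y_i` the components of `2∂y_i` at a point, `L_i` the complex
Hessian of `y_i`, `T` the matrix of `θ`. Assume `-A T ≤ L_i ≤ A T`, `|∑ Y_i|² ≤ A T`,
`|Z_j + Y_{j+1}|² ≤ A T` (`Z_j` the components of `dζ_j`). With `f = √(1 + |y|²)` the complex
Hessian of `f` is `∑ (y_i/f) L_i + (c/f) (∑ |Y_i|² - |∑ (y_i/f) Y_i|²)`.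
-/

set_option autoImplicit false

open Matrix
open scoped ComplexOrder ComplexConjugate

namespace Pool.Agent.SYM

variable {ι : Type*} [Fintype ι] [DecidableEq ι]

/-- The value of the hermitian form with matrix `M` on the vector `v`. -/
noncomputable def hval (M : Matrix ι ι ℂ) (v : ι → ℂ) : ℝ := (star v ⬝ᵥ (M *ᵥ v)).re

/-- The matrix of the hermitian form `|ξ(v)|²`. -/
def sqForm (ξ : ι → ℂ) : Matrix ι ι ℂ := vecMulVec (star ξ) ξ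

omit [DecidableEq ι] in
theorem hval_add (M N : Matrix ι ι ℂ) (v : ι → ℂ) : hval (M + N) v = hval M v + hval N v := by
  simp [hval, Matrix.add_mulVec, dotProduct_add]

omit [DecidableEq ι] in
theorem hval_sub (M N : Matrix ι ι ℂ) (v : ι → ℂ) : hval (M - N) v = hval M v - hval N v := by
  simp [hval, Matrix.sub_mulVec, dotProduct_sub]

omit [DecidableEq ι] in
theorem hval_smul (c : ℝ) (M : Matrix ι ι ℂ) (v : ι → ℂ) :
    hval ((c : ℂ) • M) v = c * hval M v := by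
  simp only [hval, Matrix.smul_mulVec, dotProduct_smul, smul_eq_mul, Complex.re_ofReal_mul]

omit [DecidableEq ι] in
theorem hval_sum {κ : Type*} (S : Finset κ) (M : κ → Matrix ι ι ℂ) (v : ι → ℂ) :
    hval (∑ i ∈ S, M i) v = ∑ i ∈ S, hval (M i) v := by
  classical
  induction S using Finset.induction_on with
  | empty => simp [hval]
  | insert a S ha ih => rw [Finset.sum_insert ha, Finset.sum_insert ha, hval_add, ih]

omit [DecidableEq ι] in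
theorem hval_sqForm (ξ v : ι → ℂ) : hval (sqForm ξ) v = ‖ξ ⬝ᵥ v‖ ^ 2 := by
  unfold hval sqForm
  rw [Matrix.vecMulVec_mulVec]
  have e : star v ⬝ᵥ (MulOpposite.op (ξ ⬝ᵥ v) • star ξ) = conj (ξ ⬝ᵥ v) * (ξ ⬝ᵥ v) := by
    rw [dotProduct_smul]
    have : star v ⬝ᵥ star ξ = conj (ξ ⬝ᵥ v) := by
      rw [← Complex.star_def, Matrix.star_dotProduct_star]
    rw [this]
    rfl
  rw [e, ← Complex.normSq_eq_conj_mul_self, Complex.ofReal_re, Complex.normSq_eq_norm_sq]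

omit [DecidableEq ι] in
theorem hval_nonneg {M : Matrix ι ι ℂ} (hM : M.PosSemidef) (v : ι → ℂ) : 0 ≤ hval M v :=
  hM.re_dotProduct_nonneg v

theorem psd_of_hval {M : Matrix ι ι ℂ} (hM : M.IsHermitian) (h : ∀ v, 0 ≤ hval M v) :
    M.PosSemidef := by
  rw [hM.posSemidef_iff_eigenvalues_nonneg]
  intro i
  have := h (hM.eigenvectorBasis i).ofLp
  rw [hM.eigenvalues_eq i]
  exact this

omit [DecidableEq ι] in
theorem hval_conjTranspose_mul_self {κ : Type*} [Fintype κ] (Z : Matrix κ ι ℂ) (v : ι → ℂ) :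
    hval (Zᴴ * Z) v = ∑ j, ‖Z j ⬝ᵥ v‖ ^ 2 := by
  have e : Zᴴ * Z = ∑ j, sqForm (Z j) := by
    ext k l
    rw [Matrix.mul_apply, Matrix.sum_apply]
    refine Finset.sum_congr rfl fun j _ => ?_
    simp [sqForm, Matrix.vecMulVec_apply, Matrix.conjTranspose_apply]
  rw [e, hval_sum]
  exact Finset.sum_congr rfl fun j _ => hval_sqForm _ _

omit [DecidableEq ι] in
theorem isHermitian_sqForm (ξ : ι → ℂ) : (sqForm ξ).IsHermitian :=
  (Matrix.posSemidef_vecMulVec_star_self ξ).1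

omit [Fintype ι] [DecidableEq ι] in
theorem isHermitian_smul {M : Matrix ι ι ℂ} (hM : M.IsHermitian) (c : ℝ) :
    ((c : ℂ) • M).IsHermitian := by
  unfold Matrix.IsHermitian
  rw [Matrix.conjTranspose_smul, hM.eq, Complex.star_def, Complex.conj_ofReal]

section scalar

variable {κ : Type*} [Fintype κ]

/-- `|E - (q·E) q|² = |E|² - |q·E|²` -/
theorem perp_eq (E : κ → ℂ) (q : κ → ℝ) (hq1 : ∑ i, q i ^ 2 = 1) :
    ∑ i, ‖E i - q i * ∑ j, (q j : ℂ) * E j‖ ^ 2 =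
      ∑ i, ‖E i‖ ^ 2 - ‖∑ j, (q j : ℂ) * E j‖ ^ 2 := by
  set w : ℂ := ∑ j, (q j : ℂ) * E j with hw
  have h1 : ∀ i, ‖E i - q i * w‖ ^ 2 =
      ‖E i‖ ^ 2 - 2 * (conj w * ((q i : ℂ) * E i)).re + q i ^ 2 * ‖w‖ ^ 2 := by
    intro i
    rw [← Complex.normSq_eq_norm_sq, ← Complex.normSq_eq_norm_sq, ← Complex.normSq_eq_norm_sq,
      Complex.normSq_sub]
    simp only [Complex.normSq_apply, map_mul, Complex.mul_re, Complex.mul_im, Complex.conj_re,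
      Complex.conj_im, Complex.ofReal_re, Complex.ofReal_im]
    ring
  simp_rw [h1]
  rw [Finset.sum_add_distrib, Finset.sum_sub_distrib, ← Finset.mul_sum, ← Finset.sum_mul, hq1,
    ← Complex.re_sum, ← Finset.mul_sum, ← hw, ← Complex.normSq_eq_conj_mul_self,
    Complex.ofReal_re, Complex.normSq_eq_norm_sq]
  ring

theorem perp_aux (E : κ → ℂ) (q : κ → ℝ) (hq : ∀ i, 0 ≤ q i) (hq1 : ∑ i, q i ^ 2 = 1) :
    ∑ i, ‖E i‖ ^ 2 ≤ (2 * Fintype.card κ + 1) *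
      (∑ i, ‖E i‖ ^ 2 - ‖∑ j, (q j : ℂ) * E j‖ ^ 2) + 2 * ‖∑ i, E i‖ ^ 2 := by
  have hD := perp_eq E q hq1
  set w : ℂ := ∑ j, (q j : ℂ) * E j with hw
  have hle : ∀ i, q i ≤ 1 := by
    intro i
    have h1 : q i ^ 2 ≤ ∑ j, q j ^ 2 :=
      Finset.single_le_sum (f := fun j => q j ^ 2) (fun j _ => sq_nonneg _) (Finset.mem_univ i)
    rw [hq1] at h1
    nlinarith [hq i]
  have h1 : 1 ≤ ∑ i, q i := by
    rw [← hq1]
    refine Finset.sum_le_sum fun i _ => ?_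
    nlinarith [hq i, hle i]
  have h2 : ((∑ i, q i : ℝ) : ℂ) * w = ∑ i, E i - ∑ i, (E i - q i * w) := by
    rw [Finset.sum_sub_distrib, sub_sub_cancel, ← Finset.sum_mul]
    push_cast
    rfl
  have h3 : ‖w‖ ≤ ‖∑ i, E i‖ + ∑ i, ‖E i - q i * w‖ := by
    calc ‖w‖ ≤ (∑ i, q i) * ‖w‖ := by nlinarith [norm_nonneg w]
      _ = ‖((∑ i, q i : ℝ) : ℂ) * w‖ := by
          rw [norm_mul, Complex.norm_real, Real.norm_of_nonneg (by linarith)]
      _ = ‖∑ i, E i - ∑ i, (E i - q i * w)‖ := by rw [h2]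
      _ ≤ ‖∑ i, E i‖ + ‖∑ i, (E i - q i * w)‖ := norm_sub_le _ _
      _ ≤ _ := by
          gcongr
          exact norm_sum_le _ _
  have h4 : (∑ i, ‖E i - q i * w‖) ^ 2 ≤ Fintype.card κ * ∑ i, ‖E i - q i * w‖ ^ 2 := by
    have := sq_sum_le_card_mul_sum_sq (s := (Finset.univ : Finset κ))
      (f := fun i => ‖E i - q i * w‖)
    simpa [Finset.card_univ] using this
  rw [hD] at h4
  set D : ℝ := ∑ i, ‖E i‖ ^ 2 - ‖w‖ ^ 2 with hDdef
  have h5 : ‖w‖ ^ 2 ≤ 2 * ‖∑ i, E i‖ ^ 2 + 2 * (Fintype.card κ * D) := by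
    have h6 : ‖w‖ ^ 2 ≤ (‖∑ i, E i‖ + ∑ i, ‖E i - q i * w‖) ^ 2 :=
      pow_le_pow_left₀ (norm_nonneg _) h3 2
    nlinarith [sq_nonneg (‖∑ i, E i‖ - ∑ i, ‖E i - q i * w‖)]
  have h7 : ∑ i, ‖E i‖ ^ 2 = D + ‖w‖ ^ 2 := by rw [hDdef]; ring
  rw [h7]
  nlinarith

/-- Both facts about `|E|² - |∑ (y_i/f) E_i|²`. -/
theorem perp_ge (E : κ → ℂ) (y : κ → ℝ) (hy : ∀ i, 0 ≤ y i) {f : ℝ} (hf : 0 < f)
    (hfy : ∑ i, y i ^ 2 ≤ f ^ 2) :
    0 ≤ ∑ i, ‖E i‖ ^ 2 - ‖∑ j, ((y j / f : ℝ) : ℂ) * E j‖ ^ 2 ∧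
    ∑ i, ‖E i‖ ^ 2 ≤ (2 * Fintype.card κ + 1) *
      (∑ i, ‖E i‖ ^ 2 - ‖∑ j, ((y j / f : ℝ) : ℂ) * E j‖ ^ 2) + 2 * ‖∑ i, E i‖ ^ 2 := by
  have hE : 0 ≤ ∑ i, ‖E i‖ ^ 2 := Finset.sum_nonneg fun i _ => sq_nonneg _
  rcases eq_or_lt_of_le (Finset.sum_nonneg fun i (_ : i ∈ Finset.univ) => sq_nonneg (y i)) with
    h0 | h0
  · have hy0 : ∀ i, y i = 0 := by
      intro i
      have := (Finset.sum_eq_zero_iff_of_nonneg fun i _ => sq_nonneg (y i)).1 h0.symm i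
        (Finset.mem_univ i)
      exact pow_eq_zero_iff (n := 2) (by norm_num) |>.1 this
    have e : ∑ j, ((y j / f : ℝ) : ℂ) * E j = 0 := by
      refine Finset.sum_eq_zero fun j _ => ?_
      rw [hy0 j]
      simp
    rw [e]
    have : (0 : ℝ) ≤ Fintype.card κ := Nat.cast_nonneg _
    constructor
    · simpa using hE
    · simp only [norm_zero, ne_eq, OfNat.ofNat_ne_zero, not_false_eq_true, zero_pow, sub_zero]
      nlinarith [sq_nonneg ‖∑ i, E i‖, mul_nonneg this hE]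
  · set N : ℝ := Real.sqrt (∑ i, y i ^ 2) with hN
    have hN0 : 0 < N := Real.sqrt_pos.2 h0
    have hN2 : N ^ 2 = ∑ i, y i ^ 2 := Real.sq_sqrt h0.le
    have hNf : N ≤ f := by
      rw [hN]
      exact Real.sqrt_le_iff.2 ⟨hf.le, hfy⟩
    have hq1 : ∑ i, (y i / N) ^ 2 = 1 := by
      simp_rw [div_pow]
      rw [← Finset.sum_div, ← hN2, div_self (by positivity)]
    have h1 := perp_aux E (fun i => y i / N) (fun i => div_nonneg (hy i) hN0.le) hq1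
    have h2 := perp_eq E (fun i => y i / N) hq1
    have e : ∑ j, ((y j / f : ℝ) : ℂ) * E j =
        ((N / f : ℝ) : ℂ) * ∑ j, ((y j / N : ℝ) : ℂ) * E j := by
      rw [Finset.mul_sum]
      refine Finset.sum_congr rfl fun j _ => ?_
      rw [← mul_assoc, ← Complex.ofReal_mul]
      congr 2
      field_simp
    have h3 : ‖∑ j, ((y j / f : ℝ) : ℂ) * E j‖ ^ 2 ≤ ‖∑ j, ((y j / N : ℝ) : ℂ) * E j‖ ^ 2 := by
      rw [e, norm_mul, Complex.norm_real, Real.norm_of_nonneg (by positivity), mul_pow]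
      have h4 : (N / f) ^ 2 ≤ 1 := by
        have : N / f ≤ 1 := (div_le_one hf).2 hNf
        have h5 : 0 ≤ N / f := by positivity
        nlinarith
      nlinarith [sq_nonneg ‖∑ j, ((y j / N : ℝ) : ℂ) * E j‖]
    have h5 : 0 ≤ ∑ i, ‖E i‖ ^ 2 - ‖∑ j, ((y j / N : ℝ) : ℂ) * E j‖ ^ 2 := by
      rw [← h2]
      exact Finset.sum_nonneg fun i _ => sq_nonneg _
    constructor
    · linarith
    · refine h1.trans ?_
      have : (0 : ℝ) ≤ Fintype.card κ := Nat.cast_nonneg _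
      gcongr

end scalar

/-- The complex Hessian of `f = √(1 + |y|²)` at a point. -/
structure LevSqrt {m : ℕ} (c : ℝ) (y : Fin (m + 1) → ℝ) (f : ℝ)
    (L : Fin (m + 1) → Matrix ι ι ℂ) (Y : Fin (m + 1) → ι → ℂ) (F : Matrix ι ι ℂ) : Prop where
  one_le : 1 ≤ f
  sq_le : ∑ i, y i ^ 2 ≤ f ^ 2
  eq : F = ∑ i, ((y i / f : ℝ) : ℂ) • L i + ((c / f : ℝ) : ℂ) •
    (∑ i, sqForm (Y i) - sqForm (∑ i, ((y i / f : ℝ) : ℂ) • Y i))

section beta

variable {m : ℕ} {c A : ℝ} {y : Fin (m + 1) → ℝ} {f : ℝ} {L : Fin (m + 1) → Matrix ι ι ℂ}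
  {Y : Fin (m + 1) → ι → ℂ} {F T : Matrix ι ι ℂ}

omit [DecidableEq ι] in
theorem LevSqrt.hval_eq (h : LevSqrt c y f L Y F) (v : ι → ℂ) :
    hval F v = ∑ i, y i / f * hval (L i) v + c / f * (∑ i, ‖Y i ⬝ᵥ v‖ ^ 2 -
      ‖∑ i, ((y i / f : ℝ) : ℂ) * (Y i ⬝ᵥ v)‖ ^ 2) := by
  rw [h.eq, hval_add, hval_sum, hval_smul, hval_sub, hval_sum, hval_sqForm]
  have e1 : ∀ i, hval (((y i / f : ℝ) : ℂ) • L i) v = y i / f * hval (L i) v :=
    fun i => hval_smul _ _ _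
  have e2 : ∀ i, hval (sqForm (Y i)) v = ‖Y i ⬝ᵥ v‖ ^ 2 := fun i => hval_sqForm _ _
  have e3 : (∑ i, ((y i / f : ℝ) : ℂ) • Y i) ⬝ᵥ v = ∑ i, ((y i / f : ℝ) : ℂ) * (Y i ⬝ᵥ v) := by
    rw [sum_dotProduct]
    exact Finset.sum_congr rfl fun i _ => by rw [smul_dotProduct, smul_eq_mul]
  simp only [e1, e2, e3]

omit [Fintype ι] [DecidableEq ι] in
theorem LevSqrt.div_le (h : LevSqrt c y f L Y F) (hy : ∀ i, 0 ≤ y i) (i : Fin (m + 1)) :
    0 ≤ y i / f ∧ y i / f ≤ 1 := by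
  have hf : 0 < f := by linarith [h.one_le]
  refine ⟨div_nonneg (hy i) hf.le, (div_le_one hf).2 ?_⟩
  have h1 : y i ^ 2 ≤ ∑ j, y j ^ 2 :=
    Finset.single_le_sum (f := fun j => y j ^ 2) (fun j _ => sq_nonneg _) (Finset.mem_univ i)
  have h2 := h.sq_le
  nlinarith [hy i]

omit [Fintype ι] [DecidableEq ι] in
theorem isHermitian_sum' {κ : Type*} (S : Finset κ) (M : κ → Matrix ι ι ℂ)
    (hM : ∀ i ∈ S, (M i).IsHermitian) : (∑ i ∈ S, M i).IsHermitian := by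
  unfold Matrix.IsHermitian
  rw [Matrix.conjTranspose_sum]
  exact Finset.sum_congr rfl fun i hi => (hM i hi).eq

omit [DecidableEq ι] in
theorem LevSqrt.isHermitian (h : LevSqrt c y f L Y F) (hL : ∀ i, (L i).IsHermitian) :
    F.IsHermitian := by
  rw [h.eq]
  refine IsHermitian.add ?_ (isHermitian_smul (IsHermitian.sub ?_ (isHermitian_sqForm _)) _)
  · exact isHermitian_sum' _ _ fun i _ => isHermitian_smul (hL i) _
  · exact isHermitian_sum' _ _ fun i _ => isHermitian_sqForm _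

omit [DecidableEq ι] in
theorem LevSqrt.first_ge (h : LevSqrt c y f L Y F) (hy : ∀ i, 0 ≤ y i)
    (hL : ∀ i, (((A : ℝ) : ℂ) • T + L i).PosSemidef) (hA : 0 ≤ A) (hT : T.PosSemidef)
    (v : ι → ℂ) : -((m + 1) * A * hval T v) ≤ ∑ i, y i / f * hval (L i) v := by
  have hTv := hval_nonneg hT v
  have h1 : ∀ i, -(A * hval T v) ≤ y i / f * hval (L i) v := by
    intro i
    obtain ⟨h2, h3⟩ := h.div_le hy i
    have h4 := hval_nonneg (hL i) v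
    rw [hval_add, hval_smul] at h4
    have h5 : 0 ≤ A * hval T v := by positivity
    nlinarith
  calc -((m + 1) * A * hval T v) = ∑ _i : Fin (m + 1), -(A * hval T v) := by
        rw [Finset.sum_const, Finset.card_univ, Fintype.card_fin, nsmul_eq_mul]
        push_cast
        ring
    _ ≤ _ := Finset.sum_le_sum fun i _ => h1 i

/-- `β = T + δ F ≥ 0` everywhere. -/
theorem beta_nonneg (h : LevSqrt c y f L Y F) (hc : 0 ≤ c) (hy : ∀ i, 0 ≤ y i)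
    (hLh : ∀ i, (L i).IsHermitian)
    (hL : ∀ i, (((A : ℝ) : ℂ) • T + L i).PosSemidef) (hA : 0 ≤ A) (hT : T.PosSemidef)
    {δ : ℝ} (hδ : 0 ≤ δ) (hδ1 : δ * ((m + 1) * A) ≤ 1) :
    (T + ((δ : ℝ) : ℂ) • F).PosSemidef := by
  refine psd_of_hval (hT.1.add (isHermitian_smul (h.isHermitian hLh) _)) fun v => ?_
  have hf : 0 < f := by linarith [h.one_le]
  have hTv := hval_nonneg hT v
  have h1 := h.first_ge hy hL hA hT v
  have h2 := (perp_ge (fun i => Y i ⬝ᵥ v) y hy hf h.sq_le).1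
  rw [hval_add, hval_smul, h.hval_eq]
  have h3 : 0 ≤ c / f * (∑ i, ‖Y i ⬝ᵥ v‖ ^ 2 -
      ‖∑ i, ((y i / f : ℝ) : ℂ) * (Y i ⬝ᵥ v)‖ ^ 2) := by
    have : 0 ≤ c / f := by positivity
    exact mul_nonneg this h2
  have h4 : δ * -((m + 1) * A * hval T v) ≤ δ * (∑ i, y i / f * hval (L i) v + c / f *
      (∑ i, ‖Y i ⬝ᵥ v‖ ^ 2 - ‖∑ i, ((y i / f : ℝ) : ℂ) * (Y i ⬝ᵥ v)‖ ^ 2)) := by
    apply mul_le_mul_of_nonneg_left _ hδ
    linarith
  have h5 : δ * ((m + 1) * A) * hval T v ≤ 1 * hval T v := by gcongr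
  linarith

/-- **Lower bound.** `β = T + δ F ≥ s Z* Z` at the points of the chart, if
`δ ((m + 1) + 2 c + c m) A ≤ 1` and `s ≤ δ c / (2 (2 m + 3) f)`. -/
theorem beta_ge (h : LevSqrt c y f L Y F) (hc : 0 ≤ c) (hy : ∀ i, 0 ≤ y i)
    (hLh : ∀ i, (L i).IsHermitian)
    (hL : ∀ i, (((A : ℝ) : ℂ) • T + L i).PosSemidef) (hA : 0 ≤ A) (hT : T.PosSemidef)
    (he : (((A : ℝ) : ℂ) • T - sqForm (∑ i, Y i)).PosSemidef)
    {Z : Matrix (Fin m) ι ℂ}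
    (hr : ∀ j : Fin m, (((A : ℝ) : ℂ) • T - sqForm (Z j + Y j.succ)).PosSemidef)
    {δ s : ℝ} (hδ : 0 ≤ δ) (hδ1 : δ * (((m + 1) + 2 * c + c * m) * A) ≤ 1)
    (hs : s ≤ δ * c / (2 * (2 * m + 3) * f)) :
    (T + ((δ : ℝ) : ℂ) • F - ((s : ℝ) : ℂ) • (Zᴴ * Z)).PosSemidef := by
  refine psd_of_hval ((hT.1.add (isHermitian_smul (h.isHermitian hLh) _)).sub
    (isHermitian_smul (Matrix.posSemidef_conjTranspose_mul_self Z).1 _)) fun v => ?_
  have hf1 := h.one_le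
  have hf : 0 < f := by linarith
  have hTv := hval_nonneg hT v
  have hATv : 0 ≤ A * hval T v := by positivity
  have h1 := h.first_ge hy hL hA hT v
  have h2 := (perp_ge (fun i => Y i ⬝ᵥ v) y hy hf h.sq_le).2
  have hσ : ‖∑ i, Y i ⬝ᵥ v‖ ^ 2 ≤ A * hval T v := by
    have := hval_nonneg he v
    rw [hval_sub, hval_smul, hval_sqForm, sum_dotProduct] at this
    linarith
  have hz : ∑ j, ‖Z j ⬝ᵥ v‖ ^ 2 ≤ 2 * (m * (A * hval T v)) + 2 * ∑ i, ‖Y i ⬝ᵥ v‖ ^ 2 := by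
    have h3 : ∀ j : Fin m, ‖Z j ⬝ᵥ v‖ ^ 2 ≤ 2 * (A * hval T v) + 2 * ‖Y j.succ ⬝ᵥ v‖ ^ 2 := by
      intro j
      have h4 := hval_nonneg (hr j) v
      rw [hval_sub, hval_smul, hval_sqForm, add_dotProduct] at h4
      have h5 : ‖Z j ⬝ᵥ v‖ ≤ ‖Z j ⬝ᵥ v + Y j.succ ⬝ᵥ v‖ + ‖Y j.succ ⬝ᵥ v‖ := by
        calc ‖Z j ⬝ᵥ v‖ = ‖(Z j ⬝ᵥ v + Y j.succ ⬝ᵥ v) - Y j.succ ⬝ᵥ v‖ := by
              rw [add_sub_cancel_right]
          _ ≤ _ := norm_sub_le _ _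
      have h6 : ‖Z j ⬝ᵥ v‖ ^ 2 ≤ (‖Z j ⬝ᵥ v + Y j.succ ⬝ᵥ v‖ + ‖Y j.succ ⬝ᵥ v‖) ^ 2 :=
        pow_le_pow_left₀ (norm_nonneg _) h5 2
      nlinarith [sq_nonneg (‖Z j ⬝ᵥ v + Y j.succ ⬝ᵥ v‖ - ‖Y j.succ ⬝ᵥ v‖)]
    calc ∑ j, ‖Z j ⬝ᵥ v‖ ^ 2 ≤ ∑ j : Fin m, (2 * (A * hval T v) + 2 * ‖Y j.succ ⬝ᵥ v‖ ^ 2) :=
          Finset.sum_le_sum fun j _ => h3 j
      _ = 2 * (m * (A * hval T v)) + 2 * ∑ j : Fin m, ‖Y j.succ ⬝ᵥ v‖ ^ 2 := by
          rw [Finset.sum_add_distrib, Finset.sum_const, Finset.card_univ, Fintype.card_fin,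
            nsmul_eq_mul, ← Finset.mul_sum]
          ring
      _ ≤ _ := by
          rw [Fin.sum_univ_succ]
          have := sq_nonneg ‖Y 0 ⬝ᵥ v‖
          linarith
  rw [hval_sub, hval_add, hval_smul, hval_smul, h.hval_eq, hval_conjTranspose_mul_self]
  set D : ℝ := ∑ i, ‖Y i ⬝ᵥ v‖ ^ 2 - ‖∑ i, ((y i / f : ℝ) : ℂ) * (Y i ⬝ᵥ v)‖ ^ 2 with hD
  set E2 : ℝ := ∑ i, ‖Y i ⬝ᵥ v‖ ^ 2 with hE2
  set S1 : ℝ := ∑ i, y i / f * hval (L i) v with hS1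
  set z2 : ℝ := ∑ j, ‖Z j ⬝ᵥ v‖ ^ 2 with hz2
  set τ : ℝ := A * hval T v with hτ
  have hz20 : 0 ≤ z2 := Finset.sum_nonneg fun j _ => sq_nonneg _
  have hcard : (Fintype.card (Fin (m + 1)) : ℝ) = m + 1 := by
    rw [Fintype.card_fin]
    push_cast
    ring
  rw [hcard] at h2
  have hm : (0 : ℝ) ≤ m := Nat.cast_nonneg _
  -- `(2m + 3) D ≥ z2 / 2 - (m + 2) τ`
  have h7 : z2 / 2 - (m + 2) * τ ≤ (2 * m + 3) * D := by nlinarith
  have hcf : 0 ≤ c / f := by positivity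
  have h8 : c / f * D ≥ c / (f * (2 * m + 3)) * (z2 / 2) - c * (m + 2) * τ := by
    have h9 : c / f * D = c / (f * (2 * m + 3)) * ((2 * m + 3) * D) := by
      field_simp
    have h10 : 0 ≤ c / (f * (2 * m + 3)) := by positivity
    have h11 : c / (f * (2 * m + 3)) * (z2 / 2 - (m + 2) * τ) ≤
        c / (f * (2 * m + 3)) * ((2 * m + 3) * D) := mul_le_mul_of_nonneg_left h7 h10
    have h12 : c / (f * (2 * m + 3)) ≤ c := by
      refine div_le_self hc ?_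
      nlinarith
    have h13 : c / (f * (2 * m + 3)) * ((m + 2) * τ) ≤ c * ((m + 2) * τ) := by
      have : 0 ≤ (m + 2) * τ := by positivity
      gcongr
    rw [h9]
    have : c / (f * (2 * m + 3)) * (z2 / 2 - (m + 2) * τ) =
      c / (f * (2 * m + 3)) * (z2 / 2) - c / (f * (2 * m + 3)) * ((m + 2) * τ) := by ring
    nlinarith
  have h14 : -(((m + 1) + 2 * c + c * m) * τ) + c / (f * (2 * m + 3)) * (z2 / 2) ≤
      S1 + c / f * D := by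
    have : (m + 1) * A * hval T v = (m + 1) * τ := by rw [hτ]; ring
    rw [this] at h1
    linarith
  have h15 := mul_le_mul_of_nonneg_left h14 hδ
  have h16 : δ * (((m + 1) + 2 * c + c * m) * A) * hval T v ≤ 1 * hval T v := by gcongr
  have h17 : s * z2 ≤ δ * (c / (f * (2 * m + 3)) * (z2 / 2)) := by
    calc s * z2 ≤ δ * c / (2 * (2 * m + 3) * f) * z2 := by gcongr
      _ = _ := by
        field_simp
  have h18 : δ * (((m + 1) + 2 * c + c * m) * τ) =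
      δ * (((m + 1) + 2 * c + c * m) * A) * hval T v := by rw [hτ]; ring
  nlinarith

end beta

end Pool.Agent.SYM
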