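import Mathlib

/-!
# SYM/Lat : the lattice part of the proof of the SYZ conjecture

`LData b` holds the lattice, the wall classes, the period planes and the Kähler cones of a
deformation class of compact hyperkähler manifolds.
-/

set_option autoImplicit false

open Module

namespace Pool.Agent.SYM.Lat

/-- The cohomology group `H²(X, ℝ) = ℝ^b`. -/
abbrev Vec (b : ℕ) : Type := Fin b → ℝ

/-- The lattice `H²(X, ℤ) = ℤ^b`. -/
def lattice (b : ℕ) : AddSubgroup (Vec b) where
  carrier := {v | ∀ k, ∃ m : ℤ, v k = m}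
  zero_mem' := fun _ => ⟨0, by simp⟩
  add_mem' := by
    intro u v hu hv k
    obtain ⟨m, hm⟩ := hu k
    obtain ⟨m', hm'⟩ := hv k
    exact ⟨m + m', by push_cast; rw [Pi.add_apply, hm, hm']⟩
  neg_mem' := by
    intro u hu k
    obtain ⟨m, hm⟩ := hu k
    exact ⟨-m, by push_cast; rw [Pi.neg_apply, hm]⟩

/-- Lattice, walls, period planes, Kähler cones. -/
structure LData (b : ℕ) where
  /-- the Beauville-Bogomolov-Fujiki form -/
  q : Vec b →ₗ[ℝ] Vec b →ₗ[ℝ] ℝ
  /-- the MBM classes (wall divisors) -/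
  S : Set (Vec b)
  /-- the members of the class: the marked compact hyperkähler manifolds `X_i` -/
  I : Type
  /-- `per i x y`: `(x, y)` is a positively oriented basis of the plane `⟨Re σ, Im σ⟩` of `X_i` -/
  per : I → Vec b → Vec b → Prop
  /-- the Kähler cone of `X_i` in `H²(X_i, ℝ)` -/
  kahler : I → Set (Vec b)

namespace LData

section defs

variable {b : ℕ} (C : LData b)

/-- The Gram determinant of two triples of vectors. -/
noncomputable def gram (x y A x' y' A' : Vec b) : ℝ :=
  Matrix.det !![C.q x x', C.q x y', C.q x A'; C.q y x', C.q y y', C.q y A';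
    C.q A x', C.q A y', C.q A A']

/-- `(x, y)` is a basis of a positive definite plane. -/
def PosPlane (x y : Vec b) : Prop :=
  ∀ s t : ℝ, s ≠ 0 ∨ t ≠ 0 → 0 < C.q (s • x + t • y) (s • x + t • y)

/-- `a` is a nef class: it is in the closure of the Kähler cone. -/
def Nef (i : C.I) (a : Vec b) : Prop := a ∈ closure (C.kahler i)

/-- The published facts used. -/
structure Facts : Prop where
  symm : ∀ x y, C.q x y = C.q y x
  integral : ∀ x ∈ lattice b, ∀ y ∈ lattice b, ∃ m : ℤ, C.q x y = m
  signature : ∃ W : Submodule ℝ (Vec b), finrank ℝ W = 3 ∧ (∀ x ∈ W, x ≠ 0 → 0 < C.q x x) ∧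
    ∀ x, (∀ y ∈ W, C.q x y = 0) → x ≠ 0 → C.q x x < 0
  wall_mem : ∀ s ∈ C.S, s ∈ lattice b
  wall_sq : ∀ s ∈ C.S, C.q s s < 0
  wall_bound : ∀ A ∈ lattice b, 0 < C.q A A → ∃ K : ℝ, ∀ s ∈ C.S, C.q s A = 0 → -K ≤ C.q s s
  per_exists : ∀ i, ∃ x y, C.per i x y
  per_pos : ∀ i x y, C.per i x y → C.PosPlane x y
  kahler_nonempty : ∀ i, (C.kahler i).Nonempty
  kahler_iff : ∀ i x y, C.per i x y → ∀ A ∈ C.kahler i, ∀ B, B ∈ C.kahler i ↔
    C.q B x = 0 ∧ C.q B y = 0 ∧ 0 < C.q B B ∧ 0 < C.q B A ∧
      ∀ s ∈ C.S, C.q s x = 0 → C.q s y = 0 → 0 < C.q s A → 0 < C.q s B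
  period : ∀ i x y, C.per i x y → ∀ A ∈ C.kahler i, ∀ x' y' B, C.PosPlane x' y' →
    C.q B x' = 0 → C.q B y' = 0 → 0 < C.q B B → 0 < C.gram x y A x' y' B →
    (∀ s ∈ C.S, C.q s x' = 0 → C.q s y' = 0 → C.q s B ≠ 0) →
    ∃ j, C.per j x' y' ∧ B ∈ C.kahler j

end defs


variable {b : ℕ} {C : LData b}

/-- a subspace on which `q ≥ 0` has dimension at most `3` (project it to the positive definite
`3`-space of the signature axiom) -/
theorem finrank_le_of_nonneg (hC : C.Facts) (N : Submodule ℝ (Vec b))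
    (h : ∀ x ∈ N, 0 ≤ C.q x x) : finrank ℝ N ≤ 3 := by
  obtain ⟨W, hW, -, hneg⟩ := hC.signature
  let φ : N →ₗ[ℝ] (W →ₗ[ℝ] ℝ) :=
    { toFun := fun x => (C.q (x : Vec b)).comp W.subtype
      map_add' := by
        intro x y
        ext w
        simp
      map_smul' := by
        intro c x
        ext w
        simp }
  have hinj : Function.Injective φ := by
    rw [injective_iff_map_eq_zero]
    intro x hx
    by_contra hne
    have hne' : (x : Vec b) ≠ 0 := fun h0 => hne (Subtype.ext h0)
    have h1 : ∀ y ∈ W, C.q (x : Vec b) y = 0 := by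
      intro y hy
      have := LinearMap.congr_fun hx (⟨y, hy⟩ : W)
      simpa [φ] using this
    have h2 := hneg (x : Vec b) h1 hne'
    have h3 := h (x : Vec b) x.2
    linarith
  have h1 := LinearMap.finrank_le_finrank_of_injective hinj
  have h2 : finrank ℝ (W →ₗ[ℝ] ℝ) = 3 := by
    rw [finrank_linearMap, finrank_self, mul_one, hW]
  rw [h2] at h1
  exact h1

/-- the form is non-degenerate -/
theorem nondeg (hC : C.Facts) (x : Vec b) (h : ∀ y, C.q x y = 0) : x = 0 := by
  obtain ⟨W, -, -, hneg⟩ := hC.signature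
  by_contra hx
  have h1 := hneg x (fun y _ => h y) hx
  rw [h x] at h1
  exact lt_irrefl _ h1

/-- no four independent vectors span a non-negative space -/
theorem four_false (hC : C.Facts) (u : Fin 4 → Vec b)
    (h0 : ∀ c : Fin 4 → ℝ, 0 ≤ C.q (∑ k, c k • u k) (∑ k, c k • u k))
    (h1 : ∀ c : Fin 4 → ℝ, ∑ k, c k • u k = 0 → c = 0) : False := by
  let L : (Fin 4 → ℝ) →ₗ[ℝ] Vec b :=
    { toFun := fun c => ∑ k, c k • u k
      map_add' := by
        intro c d
        simp [add_smul, Finset.sum_add_distrib]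
      map_smul' := by
        intro r c
        simp [mul_smul, Finset.smul_sum] }
  have hL : Function.Injective L := by
    rw [injective_iff_map_eq_zero]
    intro c hc
    exact h1 c hc
  have h2 := finrank_le_of_nonneg hC (LinearMap.range L) (by
    rintro _ ⟨c, rfl⟩
    exact h0 c)
  rw [LinearMap.finrank_range_of_inj hL] at h2
  simp at h2

theorem q_expand (hC : C.Facts) {x y z v : Vec b} (hzx : C.q z x = 0) (hzy : C.q z y = 0)
    (hvx : C.q v x = 0) (hvy : C.q v y = 0) (hvz : C.q v z = 0) (a₁ a₂ a₃ a₄ : ℝ) :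
    C.q (a₁ • x + a₂ • y + a₃ • z + a₄ • v) (a₁ • x + a₂ • y + a₃ • z + a₄ • v) =
      C.q (a₁ • x + a₂ • y) (a₁ • x + a₂ • y) + a₃ ^ 2 * C.q z z + a₄ ^ 2 * C.q v v := by
  have hxz : C.q x z = 0 := by rw [hC.symm, hzx]
  have hyz : C.q y z = 0 := by rw [hC.symm, hzy]
  have hxv : C.q x v = 0 := by rw [hC.symm, hvx]
  have hyv : C.q y v = 0 := by rw [hC.symm, hvy]
  have hzv : C.q z v = 0 := by rw [hC.symm, hvz]
  simp only [map_add, map_smul, LinearMap.add_apply, LinearMap.smul_apply, smul_eq_mul, hxz, hyz,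
    hxv, hyv, hzv, hzx, hzy, hvx, hvy, hvz]
  ring

theorem posPlane_nonneg {x y : Vec b} (hp : C.PosPlane x y) (s t : ℝ) :
    0 ≤ C.q (s • x + t • y) (s • x + t • y) := by
  by_cases h : s ≠ 0 ∨ t ≠ 0
  · exact (hp s t h).le
  · push Not at h
    rw [h.1, h.2]
    simp

theorem sum_four (u : Fin 4 → Vec b) (c : Fin 4 → ℝ) :
    ∑ k, c k • u k = c 0 • u 0 + c 1 • u 1 + c 2 • u 2 + c 3 • u 3 := by
  rw [Fin.sum_univ_four]

/-- Hodge index theorem -/
theorem hodge_pos (hC : C.Facts) {x y A v : Vec b} (hp : C.PosPlane x y) (hAx : C.q A x = 0)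
    (hAy : C.q A y = 0) (hA : 0 < C.q A A) (hvx : C.q v x = 0) (hvy : C.q v y = 0)
    (hvA : C.q v A = 0) (hv : v ≠ 0) : C.q v v < 0 := by
  by_contra hcon
  push Not at hcon
  apply four_false hC ![x, y, A, v]
  · intro c
    rw [sum_four]
    change 0 ≤ C.q (c 0 • x + c 1 • y + c 2 • A + c 3 • v) (c 0 • x + c 1 • y + c 2 • A + c 3 • v)
    rw [q_expand hC hAx hAy hvx hvy hvA]
    have h1 := posPlane_nonneg hp (c 0) (c 1)
    positivity
  · intro c hc
    rw [sum_four] at hc
    change c 0 • x + c 1 • y + c 2 • A + c 3 • v = 0 at hc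
    have h2 := q_expand hC hAx hAy hvx hvy hvA (c 0) (c 1) (c 2) (c 3)
    rw [hc, map_zero] at h2
    have h1 := posPlane_nonneg hp (c 0) (c 1)
    have h3 : 0 ≤ c 2 ^ 2 * C.q A A := by positivity
    have h4 : 0 ≤ c 3 ^ 2 * C.q v v := by positivity
    have e1 : c 2 ^ 2 * C.q A A = 0 := by linarith
    have e2 : C.q (c 0 • x + c 1 • y) (c 0 • x + c 1 • y) = 0 := by linarith
    have c2 : c 2 = 0 := by
      rcases mul_eq_zero.1 e1 with h | h
      · exact pow_eq_zero_iff (two_ne_zero) |>.1 h
      · exact absurd h hA.ne'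
    have c01 : c 0 = 0 ∧ c 1 = 0 := by
      by_contra hn
      have : c 0 ≠ 0 ∨ c 1 ≠ 0 := by
        by_contra hn2
        push Not at hn2
        exact hn hn2
      exact absurd e2 (hp _ _ this).ne'
    have c3 : c 3 = 0 := by
      rw [c01.1, c01.2, c2] at hc
      simp only [zero_smul, add_zero, zero_add] at hc
      rcases smul_eq_zero.1 hc with h | h
      · exact h
      · exact absurd h hv
    funext k
    fin_cases k
    · exact c01.1
    · exact c01.2
    · exact c2
    · exact c3

/-- Hodge index theorem, for an isotropic class -/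
theorem hodge_iso (hC : C.Facts) {x y α v : Vec b} (hp : C.PosPlane x y) (hαx : C.q α x = 0)
    (hαy : C.q α y = 0) (hα : C.q α α = 0) (hα0 : α ≠ 0) (hvx : C.q v x = 0)
    (hvy : C.q v y = 0) (hvα : C.q v α = 0) (hv : ∀ a : ℝ, v ≠ a • α) : C.q v v < 0 := by
  by_contra hcon
  push Not at hcon
  apply four_false hC ![x, y, α, v]
  · intro c
    rw [sum_four]
    change 0 ≤ C.q (c 0 • x + c 1 • y + c 2 • α + c 3 • v) (c 0 • x + c 1 • y + c 2 • α + c 3 • v)
    rw [q_expand hC hαx hαy hvx hvy hvα, hα]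
    have h1 := posPlane_nonneg hp (c 0) (c 1)
    positivity
  · intro c hc
    rw [sum_four] at hc
    change c 0 • x + c 1 • y + c 2 • α + c 3 • v = 0 at hc
    have h2 := q_expand hC hαx hαy hvx hvy hvα (c 0) (c 1) (c 2) (c 3)
    rw [hc, map_zero, hα, mul_zero] at h2
    have h1 := posPlane_nonneg hp (c 0) (c 1)
    have h4 : 0 ≤ c 3 ^ 2 * C.q v v := by positivity
    have e2 : C.q (c 0 • x + c 1 • y) (c 0 • x + c 1 • y) = 0 := by
      linarith
    have c01 : c 0 = 0 ∧ c 1 = 0 := by
      by_contra hn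
      have : c 0 ≠ 0 ∨ c 1 ≠ 0 := by
        by_contra hn2
        push Not at hn2
        exact hn hn2
      exact absurd e2 (hp _ _ this).ne'
    rw [c01.1, c01.2] at hc
    simp only [zero_smul, zero_add] at hc
    have c3 : c 3 = 0 := by
      by_contra h3
      apply hv (-(c 2) / c 3)
      have h5 : c 3 • v = (-(c 2)) • α := by
        rw [neg_smul]
        exact eq_neg_of_add_eq_zero_right hc
      have h6 : v = (c 3)⁻¹ • (c 3 • v) := by rw [smul_smul, inv_mul_cancel₀ h3, one_smul]
      rw [h6, h5, smul_smul]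
      congr 1
      field_simp
    have c2 : c 2 = 0 := by
      rw [c3, zero_smul, add_zero] at hc
      rcases smul_eq_zero.1 hc with h | h
      · exact h
      · exact absurd h hα0
    funext k
    fin_cases k
    · exact c01.1
    · exact c01.2
    · exact c2
    · exact c3

/-- the positive cone: `q(α, A) > 0`, `q(α, B) > 0` with `α` isotropic put `A`, `B` in the same
component -/
theorem cone_pos (hC : C.Facts) {x y α A B : Vec b} (hp : C.PosPlane x y)
    (hαx : C.q α x = 0) (hαy : C.q α y = 0) (hα : C.q α α = 0)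
    (hAx : C.q A x = 0) (hAy : C.q A y = 0) (hA : 0 < C.q A A)
    (hBx : C.q B x = 0) (hBy : C.q B y = 0) (hB : 0 < C.q B B)
    (hαA : 0 < C.q α A) (hαB : 0 < C.q α B) : 0 < C.q A B := by
  by_contra hcon
  push Not at hcon
  have hα0 : α ≠ 0 := by
    intro h
    rw [h] at hαA
    simp at hαA
  set s : ℝ := C.q α B / C.q α A with hs
  have hspos : 0 < s := div_pos hαB hαA
  have hsA : s * C.q α A = C.q α B := by rw [hs, div_mul_cancel₀ _ hαA.ne']
  have hAα : C.q A α = C.q α A := hC.symm _ _
  have hBα : C.q B α = C.q α B := hC.symm _ _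
  have hBA : C.q B A = C.q A B := hC.symm _ _
  have hvv : C.q (B - s • A) (B - s • A) = C.q B B - 2 * s * C.q A B + s ^ 2 * C.q A A := by
    simp only [map_sub, map_smul, LinearMap.sub_apply, LinearMap.smul_apply, smul_eq_mul, hBA]
    ring
  have hvpos : 0 < C.q (B - s • A) (B - s • A) := by
    rw [hvv]
    have h1 : 0 ≤ -(2 * s * C.q A B) := by
      have : 0 ≤ 2 * s * (-(C.q A B)) := by
        apply mul_nonneg (by positivity)
        linarith
      linarith
    have h2 : 0 ≤ s ^ 2 * C.q A A := by positivity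
    linarith
  have h1 : ∀ a : ℝ, B - s • A ≠ a • α := by
    intro a ha
    rw [ha] at hvpos
    simp only [map_smul, LinearMap.smul_apply, smul_eq_mul, hα, mul_zero] at hvpos
    exact lt_irrefl _ hvpos
  have h2 := hodge_iso hC (v := B - s • A) hp hαx hαy hα hα0
    (by simp only [map_sub, map_smul, LinearMap.sub_apply, LinearMap.smul_apply, smul_eq_mul, hAx,
          hBx, mul_zero, sub_zero])
    (by simp only [map_sub, map_smul, LinearMap.sub_apply, LinearMap.smul_apply, smul_eq_mul, hAy,
          hBy, mul_zero, sub_zero])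
    (by simp only [map_sub, map_smul, LinearMap.sub_apply, LinearMap.smul_apply, smul_eq_mul, hAα,
          hBα, hsA, sub_self]) h1
  linarith

theorem continuous_q_left (A : Vec b) : Continuous fun B : Vec b => C.q B A :=
  LinearMap.continuous_of_finiteDimensional (C.q.flip A)

theorem continuous_q_self : Continuous fun B : Vec b => C.q B B := by
  have h1 : (fun B : Vec b => C.q B B) =
      fun B : Vec b => ∑ k, B k * C.q (fun j => if k = j then 1 else 0) B := by
    funext B
    have h := LinearMap.pi_apply_eq_sum_univ (C.q.flip B) B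
    simpa using h
  rw [h1]
  refine continuous_finsetSum _ fun k _ => ?_
  exact (continuous_apply k).mul (LinearMap.continuous_of_finiteDimensional _)

/-- a non-zero nef isotropic class is positive on Kähler classes and of type `(1,1)` -/
theorem nef_pos (hC : C.Facts) {i : C.I} {x y α A : Vec b} (hp : C.per i x y) (hα : C.Nef i α)
    (hα0 : α ≠ 0) (hA : A ∈ C.kahler i) :
    C.q α x = 0 ∧ C.q α y = 0 ∧ 0 < C.q α A := by
  have hAA := (hC.kahler_iff i x y hp A hA A).1 hA
  have hαx : C.q α x = 0 := by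
    have hcl : IsClosed {B : Vec b | C.q B x = 0} :=
      isClosed_eq (continuous_q_left x) continuous_const
    exact hcl.closure_subset_iff.2 (fun B hB => ((hC.kahler_iff i x y hp A hA B).1 hB).1) hα
  have hαy : C.q α y = 0 := by
    have hcl : IsClosed {B : Vec b | C.q B y = 0} :=
      isClosed_eq (continuous_q_left y) continuous_const
    exact hcl.closure_subset_iff.2 (fun B hB => ((hC.kahler_iff i x y hp A hA B).1 hB).2.1) hα
  have hαα : 0 ≤ C.q α α := by
    have hcl : IsClosed {B : Vec b | 0 ≤ C.q B B} :=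
      isClosed_le continuous_const continuous_q_self
    exact hcl.closure_subset_iff.2
      (fun B hB => ((hC.kahler_iff i x y hp A hA B).1 hB).2.2.1.le) hα
  have hαA : 0 ≤ C.q α A := by
    have hcl : IsClosed {B : Vec b | 0 ≤ C.q B A} :=
      isClosed_le continuous_const (continuous_q_left A)
    exact hcl.closure_subset_iff.2
      (fun B hB => ((hC.kahler_iff i x y hp A hA B).1 hB).2.2.2.1.le) hα
  refine ⟨hαx, hαy, lt_of_le_of_ne hαA ?_⟩
  intro h0
  have h1 := hodge_pos hC (hC.per_pos i x y hp) hAA.1 hAA.2.1 hAA.2.2.1 hαx hαy h0.symm hα0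
  linarith



private theorem lattice_countable (b : ℕ) : (lattice b : Set (Vec b)).Countable := by
  have h : (lattice b : Set (Vec b)) ⊆
      Set.range (fun (m : Fin b → ℤ) => (fun k => (m k : ℝ) : Vec b)) := by
    intro v hv
    have hv' : ∀ k, ∃ m : ℤ, v k = m := hv
    choose m hm using hv'
    exact ⟨m, funext fun k => (hm k).symm⟩
  exact (Set.countable_range _).mono h

/-- Baire (or measure zero): a generic vector of `N^⊥` is orthogonal to no lattice vector outside
`N = N^⊥⊥`. -/
theorem exists_generic (hC : C.Facts) (N : Submodule ℝ (Vec b)) (x₀ : Vec b)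
    (hx₀ : ∀ v ∈ N, C.q x₀ v = 0) {ε : ℝ} (hε : 0 < ε) :
    ∃ x', (∀ v ∈ N, C.q x' v = 0) ∧ dist x' x₀ < ε ∧
      ∀ s ∈ lattice b, s ∉ N → C.q s x' ≠ 0 := by
  classical
  have hrefl : LinearMap.BilinForm.IsRefl (C.q : LinearMap.BilinForm ℝ (Vec b)) := by
    intro x y h
    rw [hC.symm]
    exact h
  have hnd : LinearMap.BilinForm.Nondegenerate (C.q : LinearMap.BilinForm ℝ (Vec b)) := by
    constructor
    · intro x hx
      exact nondeg hC x hx
    · intro x hx
      exact nondeg hC x fun y => by rw [hC.symm]; exact hx y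
  let M : Submodule ℝ (Vec b) :=
    LinearMap.BilinForm.orthogonal (C.q : LinearMap.BilinForm ℝ (Vec b)) N
  have hM : ∀ x, x ∈ M ↔ ∀ v ∈ N, C.q x v = 0 := by
    intro x
    rw [LinearMap.BilinForm.mem_orthogonal_iff]
    constructor
    · intro h v hv
      rw [hC.symm]
      exact h v hv
    · intro h v hv
      change C.q v x = 0
      rw [hC.symm]
      exact h v hv
  have hNN : ∀ s, s ∉ N → ∃ x ∈ M, C.q s x ≠ 0 := by
    intro s hs
    by_contra hcon
    push Not at hcon
    apply hs
    rw [← LinearMap.BilinForm.orthogonal_orthogonal hnd hrefl N,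
      LinearMap.BilinForm.mem_orthogonal_iff]
    intro x hx
    change C.q x s = 0
    rw [hC.symm]
    exact hcon x hx
  let S : Set (Vec b) := {s | s ∈ lattice b ∧ s ∉ N}
  have hS : S.Countable := (lattice_countable b).mono fun s hs => hs.1
  let f : Vec b → Set M := fun s => {x | C.q s (x : Vec b) ≠ 0}
  have hcont : ∀ s, Continuous fun x : M => C.q s (x : Vec b) := fun s =>
    (LinearMap.continuous_of_finiteDimensional (C.q s)).comp continuous_subtype_val
  have ho : ∀ s ∈ S, IsOpen (f s) := fun s _ => isOpen_ne_fun (hcont s) continuous_const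
  have hd : ∀ s ∈ S, Dense (f s) := by
    intro s hs
    have h1 : f s = ((LinearMap.ker ((C.q s).comp M.subtype) : Set M))ᶜ := by
      ext x
      simp [f]
    rw [h1, ← interior_eq_empty_iff_dense_compl]
    by_contra hne
    have h2 := Submodule.eq_top_of_nonempty_interior' (LinearMap.ker ((C.q s).comp M.subtype))
      (Set.nonempty_iff_ne_empty.2 hne)
    obtain ⟨x, hx, hx'⟩ := hNN s hs.2
    have h3 : (⟨x, hx⟩ : M) ∈ LinearMap.ker ((C.q s).comp M.subtype) := by
      rw [h2]
      exact Submodule.mem_top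
    exact hx' h3
  have hcomp : CompleteSpace M := FiniteDimensional.complete ℝ M
  have hdense := dense_biInter_of_isOpen ho hS hd
  obtain ⟨x', hx', hdist⟩ := hdense.exists_dist_lt ⟨x₀, (hM x₀).2 hx₀⟩ hε
  refine ⟨x', (hM _).1 x'.2, ?_, fun s hs hsN => ?_⟩
  · rw [dist_comm]
    exact hdist
  · have h4 := Set.mem_iInter₂.1 hx' s ⟨hs, hsN⟩
    exact h4


end LData

end Pool.Agent.SYM.Lat
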