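import Pool.Agent.SYM.Degen
import Pool.Agent.SYM.Triple

/-!
# SYM/Pub : deformation classes of compact hyperkähler manifolds with their Ricci-flat metrics

`Fam n b` is a connected component of the moduli space of marked compact hyperkähler manifolds of
dimension `2n` with second Betti number `b`. Its members, projective or not, share the lattice
`H²(X, ℤ) = ℤ^b` and its Beauville-Bogomolov-Fujiki form, and have the same underlying compact
manifold, the space `X` of `D : Geo (2n)`.
-/

set_option autoImplicit false

open MeasureTheory Set Filter Topology Module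

namespace Pool.Agent.SYM

/-- The cohomology group `H²(X, ℝ) = ℝ^b`. -/
abbrev Vec (b : ℕ) : Type := Fin b → ℝ

/-- `v` is in the lattice `H²(X, ℤ) = ℤ^b`. -/
def IsIntegral {b : ℕ} (v : Vec b) : Prop := ∀ k, ∃ m : ℤ, v k = m

/-- The data of a deformation class of compact hyperkähler manifolds of dimension `2n`. -/
structure Fam (n b : ℕ) where
  /-- the Beauville-Bogomolov-Fujiki form -/
  q : Vec b → Vec b → ℝ
  /-- the primitive MBM classes (wall divisors) -/
  S : Set (Vec b)
  /-- the members of the class: the marked compact hyperkähler manifolds `X_i` -/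
  I : Type
  /-- `per i x y`: `(x, y)` is a positively oriented basis of the plane `⟨Re σ, Im σ⟩` of `X_i` -/
  per : I → Vec b → Vec b → Prop
  /-- the Kähler cone of `X_i` in `H²(X_i, ℝ)` -/
  kahler : I → Set (Vec b)
  /-- the line bundle of class `a` on `X_i` is semiample -/
  Semiample : I → Vec b → Prop
  /-- `X_i` contains a complex torus as a Lagrangian submanifold -/
  LagTorus : I → Prop
  /-- the underlying compact manifold and its Ricci-flat Kähler metrics -/
  D : Geo (2 * n)
  /-- the marked hyperkähler structures `h = (g, I, J, K)` of the class -/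
  HK : Type
  /-- the classes of the Kähler forms `ω_I, ω_J, ω_K` of `h` -/
  cls : HK → Fin 3 → Vec b
  /-- the member `(X, I)` of the class given by the complex structure `I` of `h` -/
  mem : HK → I
  /-- the Kähler metric `g` of `h` with the complex structure `J` -/
  met : HK → D.Met
  /-- `IsChart h φ U om`: `φ` is a `J`-holomorphic covering of an open subset of `X` by the open set
  `U = U + iℝ^{2n}` of `ℂ^{2n}`, with deck group `2πi ℤ^{2n}`, and `om` is the pull-back of the
  Kähler forms `ω_I, ω_J, ω_K` of `h` -/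
  IsChart : HK → (CV n → D.X) → Set (CV n) → (Fin 3 → CV n → CV n → CV n → ℝ) → Prop

namespace Fam

variable {n b : ℕ} (C : Fam n b)

/-- `v` is of type `(1,1)` for the period plane `⟨x, y⟩`. -/
def Type11 (x y v : Vec b) : Prop := C.q v x = 0 ∧ C.q v y = 0

/-- The Gram matrix of two triples of vectors. -/
def gram (x y A x' y' A' : Vec b) : Matrix (Fin 3) (Fin 3) ℝ :=
  Matrix.of fun k l => C.q (![x, y, A] k) (![x', y', A'] l)

/-- `(x, y)` is a basis of a positive definite plane. -/
def PosPlane (x y : Vec b) : Prop :=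
  ∀ s t : ℝ, s ≠ 0 ∨ t ≠ 0 → 0 < C.q (s • x + t • y) (s • x + t • y)

/-- `X_i` is projective (Kodaira). -/
def Projective (i : C.I) : Prop := ∃ A ∈ C.kahler i, IsIntegral A

/-- `a` is a nef class: it is in the closure of the Kähler cone. -/
def Nef (i : C.I) (a : Vec b) : Prop := a ∈ closure (C.kahler i)

/-- The nilpotent operator `N x = q(α, x) A₀ - q(A₀, x) α`. -/
def nil (α A₀ x : Vec b) : Vec b := C.q α x • A₀ - C.q A₀ x • α

/-- The real part of `exp((u + i y) N) ω`, where `N³ = 0`. -/
noncomputable def orbRe (α A₀ ω : Vec b) (u y : ℝ) : Vec b :=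
  ω + u • C.nil α A₀ ω + ((u ^ 2 - y ^ 2) / 2) • C.nil α A₀ (C.nil α A₀ ω)

/-- The imaginary part of `exp((u + i y) N) ω`. -/
noncomputable def orbIm (α A₀ ω : Vec b) (u y : ℝ) : Vec b :=
  y • C.nil α A₀ ω + (u * y) • C.nil α A₀ (C.nil α A₀ ω)

/-- The lattice: the form is bilinear, symmetric, integral, of signature `(3, b - 3)` (Beauville,
Bogomolov, Fujiki). -/
structure LatticeAxioms : Prop where
  q_add : ∀ x x' y, C.q (x + x') y = C.q x y + C.q x' y
  q_smul : ∀ (c : ℝ) (x y), C.q (c • x) y = c * C.q x y
  symm : ∀ x y, C.q x y = C.q y x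
  integral : ∀ x y, IsIntegral x → IsIntegral y → ∃ m : ℤ, C.q x y = m
  signature : ∃ W : Submodule ℝ (Vec b), finrank ℝ W = 3 ∧ (∀ x ∈ W, x ≠ 0 → 0 < C.q x x) ∧
    ∀ x, (∀ y ∈ W, C.q x y = 0) → x ≠ 0 → C.q x x < 0

/-- Walls, period planes and Kähler cones. -/
structure KahlerAxioms : Prop where
  /-- (primitive) MBM classes are integral, of negative square -/
  wall : ∀ s ∈ C.S, IsIntegral s ∧ C.q s s < 0
  /-- the MBM classes orthogonal to a class `A` of positive square have bounded square
  (Amerik-Verbitsky; their orthogonal hyperplanes form the complement of the moduli space of the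
  members polarised by `A`, which is Zariski open in the period space by Verbitsky, Viehweg and
  Borel) -/
  wall_bound : ∀ A, IsIntegral A → 0 < C.q A A →
    ∃ K : ℝ, ∀ s ∈ C.S, C.q s A = 0 → -K ≤ C.q s s
  /-- the period plane is positive definite, Kähler classes exist -/
  per_exists : ∀ i, ∃ x y, C.per i x y
  per_pos : ∀ i x y, C.per i x y → C.PosPlane x y
  /-- the oriented bases of the period plane -/
  per_basis : ∀ i x y, C.per i x y → ∀ s t u v : ℝ, 0 < s * v - t * u →
    C.per i (s • x + t • y) (u • x + v • y)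
  kahler_nonempty : ∀ i, (C.kahler i).Nonempty
  /-- the Kähler cone is a chamber of the positive cone in `H^{1,1}(X, ℝ) = ⟨Re σ, Im σ⟩^⊥` for the
  MBM classes of type `(1,1)` (Amerik-Verbitsky, Mongardi) -/
  kahler_iff : ∀ i x y, C.per i x y → ∀ A ∈ C.kahler i, ∀ B, B ∈ C.kahler i ↔
    C.Type11 x y B ∧ 0 < C.q B B ∧ 0 < C.q B A ∧
      ∀ s ∈ C.S, C.Type11 x y s → 0 < C.q s A → 0 < C.q s B
  /-- surjectivity of the period map (Huybrechts, Markman): every oriented positive plane is the
  period plane of a member on which a given class `B` of positive square, of type `(1,1)` for this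
  plane, in the right component of the positive cone and orthogonal to no MBM class of type `(1,1)`,
  is a Kähler class. The component is the right one if the orientation of the positive space
  `⟨x', y', B⟩` is that of `⟨x, y, A⟩`, for one member (hence for all). -/
  period : ∀ i x y, C.per i x y → ∀ A ∈ C.kahler i, ∀ x' y' B, C.PosPlane x' y' →
    C.Type11 x' y' B → 0 < C.q B B → 0 < (C.gram x y A x' y' B).det →
    (∀ s ∈ C.S, C.Type11 x' y' s → C.q s B ≠ 0) → ∃ j, C.per j x' y' ∧ B ∈ C.kahler j

/-- A sequence of fibres of a projective semistable degeneration with its logarithmic chart near a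
deepest point: the data of `Degen`, the Kähler forms in the chart, and the restriction of cohomology
classes to the real 2-tori of the chart. -/
structure LogModel where
  deg : Degen C.D
  om : ℕ → Fin 3 → CV n → CV n → CV n → ℝ
  res : ℕ → Vec b → Fin (2 * n) → Fin (2 * n) → ℝ

/-- What the semistable model gives, for fibres `(X, J)` of the hyperkähler structures `h k`,
polarised by `A`, with monodromy logarithm (a multiple of) `N`. -/
structure LogModel.Facts {C : Fam n b} (Q : C.LogModel) (h : ℕ → C.HK) (A : Vec b)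
    (N : Vec b → Vec b) (B a : ℝ) : Prop where
  facts : Q.deg.Facts B a
  met : ∀ k, Q.deg.M k = C.met (h k)
  chart : ∀ k, C.IsChart (h k) (Q.deg.φ k) (Q.deg.U k) (Q.om k)
  /-- `G` bounds the metric in the chart -/
  G_bound : ∀ k, ∀ w ∈ Q.deg.U k, ∀ v,
    Q.om k 1 w v (Complex.I • v) ≤ Q.deg.G k w * ‖v‖ ^ 2
  /-- the volume form of the metric and `|dζ_1 ∧ ... ∧ dζ_{2n}|²` are comparable -/
  vol_low : ∀ k, ∀ w ∈ Q.deg.U k, a ≤ volDensity (fun c => Q.om k c w)
  res_add : ∀ k x y j l, Q.res k (x + y) j l = Q.res k x j l + Q.res k y j l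
  res_smul : ∀ k (c : ℝ) x j l, Q.res k (c • x) j l = c * Q.res k x j l
  /-- the polarisation extends to the model, so it is trivial near a point -/
  res_A : ∀ k j l, Q.res k A j l = 0
  /-- the tori of the chart are invariant under the monodromy up to isotopy -/
  res_N : ∀ k x j l, Q.res k (N x) j l = 0
  /-- periods of the Kähler forms -/
  res_om : ∀ k c, ∀ w ∈ Q.deg.U k, ∀ j l, j ≠ l →
    period (Q.om k c) w j l = Q.res k (C.cls (h k) c) j l

/-- Ricci-flat metrics. -/
structure MetricAxioms : Prop where
  /-- Yau's theorem, hyperkähler structures: `κ` is the class of `ω_I` and `σ_I = ω_J + i ω_K` -/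
  yau : ∀ i x y κ, C.per i x y → κ ∈ C.kahler i → C.q x y = 0 → C.q x x = C.q κ κ →
    C.q y y = C.q κ κ → ∃ h, C.mem h = i ∧ C.cls h 0 = κ ∧ C.cls h 1 = x ∧ C.cls h 2 = y
  rules : C.D.Rules
  heat : ∃ B, C.D.Heat B
  regularity : C.D.Regularity
  liouville : LiouvilleTheorem n
  chart_facts : ∀ h φ U om, C.IsChart h φ U om → IsHKTripleOn U om
  /-- A polarised degeneration of maximal type: `A` is a Kähler class on the members with period
  `exp(z N) ω`, `Im z ≥ y₀`, and `h k` are hyperkähler structures with `(X, J)` the member with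
  `z = i y_k`, i.e. `σ_J = ω_K + i ω_I = i exp(i y_k N) ω`. By the theorems of Verbitsky and
  Viehweg, Borel's extension theorem and semistable reduction these manifolds are the fibres of a
  projective semistable model, after a base change. -/
  degeneration : ∀ (α A A₀ ω : Vec b) (y₀ : ℝ), IsIntegral α → IsIntegral A → IsIntegral A₀ →
    C.q α α = 0 → C.q α A = 0 → C.q α A₀ = 0 → C.q A A₀ = 0 → 0 < C.q A A → 0 < C.q A₀ A₀ →
    C.q ω ω = 0 → C.q ω A = 0 → 0 < C.q α ω →
    (∀ u y, y₀ ≤ y → ∀ s ∈ C.S, C.q s A = 0 →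
      ¬ C.Type11 (C.orbRe α A₀ ω u y) (C.orbIm α A₀ ω u y) s) →
    ∀ (h : ℕ → C.HK) (y t : ℕ → ℝ), Tendsto y atTop atTop →
    (∀ k, 0 < t k ∧ C.cls (h k) 0 = C.orbRe α A₀ ω 0 (y k) ∧ C.cls (h k) 1 = t k • A ∧
      C.cls (h k) 2 = -C.orbIm α A₀ ω 0 (y k)) →
    ∃ (k₀ : ℕ) (Q : C.LogModel) (B a : ℝ),
      Q.Facts (fun k => h (k + k₀)) A (C.nil α A₀) B a
  /-- McLean's theorem on deformations of special Lagrangian submanifolds, near a flat torus, and
  Wirtinger's equality: if in a chart the forms are close to a constant triple `o` for which the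
  torus `T = {Re w = Re w₀}` is a complex Lagrangian torus, and `ω_J`, `ω_K` have no periods on
  `T`, then there is a torus near `T` which is a complex Lagrangian submanifold of `(X, I)` -/
  torus : ∀ o : Fin 3 → CV n → CV n → ℝ, FlatTriple o →
    (∀ u ∈ imagSpace n, ∀ v ∈ imagSpace n, o 1 u v = 0 ∧ o 2 u v = 0) →
    (∀ u ∈ imagSpace n, ∃ v ∈ imagSpace n, ∀ x, o 0 u x = o 1 v (Complex.I • x)) →
    ∃ ε > 0, ∀ h φ U om w₀, C.IsChart h φ U om → Metric.ball w₀ 8 ⊆ U →
      (∀ w ∈ Metric.ball w₀ 8, ∀ c u v, |om c w u v - o c u v| ≤ ε * ‖u‖ * ‖v‖) →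
      (∀ j l, j ≠ l → period (om 1) w₀ j l = 0 ∧ period (om 2) w₀ j l = 0) →
      C.LagTorus (C.mem h)

/-- Lagrangian fibrations. -/
structure FibrationAxioms : Prop where
  /-- Greb-Lehn-Rollenske: a non-projective hyperkähler manifold which contains a Lagrangian torus
  has a holomorphic Lagrangian fibration; `l` is the pull-back of an ample class of the base -/
  greb_lehn_rollenske : ∀ i, C.LagTorus i → ¬ C.Projective i →
    ∃ l, IsIntegral l ∧ l ≠ 0 ∧ C.q l l = 0 ∧ C.Nef i l ∧ C.Semiample i l
  semiample_mul : ∀ i a (k : ℕ), 1 ≤ k → IsIntegral a →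
    (C.Semiample i ((k : ℝ) • a) ↔ C.Semiample i a)
  trivial : ∀ i, C.Semiample i 0
  /-- the base point free theorem: a nef line bundle `L` with `q(L) > 0` is big, `X_i` is
  projective, and `L` is semiample -/
  base_point_free : ∀ i a, IsIntegral a → C.Nef i a → 0 < C.q a a → C.Semiample i a
  /-- Matsushita: if an isotropic class is nef and semiample on one member then it is so on every
  member on which it is nef -/
  matsushita : ∀ i j a, IsIntegral a → a ≠ 0 → C.q a a = 0 → C.Nef i a → C.Nef j a →
    C.Semiample j a → C.Semiample i a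

/-- What is known on a deformation class of compact hyperkähler manifolds. -/
structure Axioms : Prop extends LatticeAxioms C, KahlerAxioms C, MetricAxioms C, FibrationAxioms C

end Fam

end Pool.Agent.SYM
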