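import Mathlib

/-!
Data of one singular Ricci-flat Kahler metric (Eyssidieux-Guedj-Zeriahi) on the regular part of a
compact Kahler space with `K = 0` and klt singularities.
-/

open MeasureTheory Set Filter

namespace Pool.Agent.SYM

/-- A Ricci-flat Kahler metric `g` on the regular part `X` of a compact Kahler space, as plain
data: volume measure, smooth functions `sm`, smooth functions with compact support `cs`, and for
real functions `f`, `h` the functions `gr f h = Re g^(i jbar) f_i h_jbar`, the Laplacian
`lap f = g^(i jbar) f_(i jbar)`, `h20 f = |f_(ik)|^2` and `h11 f = |f_(i kbar)|^2`. -/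
structure Reg where
  X : Type
  [top : TopologicalSpace X]
  [mea : MeasurableSpace X]
  [bor : BorelSpace X]
  vol : Measure X
  sm : Set (X → ℝ)
  cs : Set (X → ℝ)
  gr : (X → ℝ) → (X → ℝ) → X → ℝ
  lap : (X → ℝ) → X → ℝ
  h20 : (X → ℝ) → X → ℝ
  h11 : (X → ℝ) → X → ℝ

attribute [instance] Reg.top Reg.mea Reg.bor

end Pool.Agent.SYM
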