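import Pool.Agent.SYM.RegData

/-!
Data and published facts about one singular Ricci-flat Kahler metric (Eyssidieux-Guedj-Zeriahi) on
the regular part of a compact Kahler space with `K = 0` and klt singularities.
-/

open MeasureTheory Set Filter
open scoped ENNReal Topology ContDiff

namespace Pool.Agent.SYM

namespace Reg

variable (D : Reg)

/-- Elementary calculus on the (connected, incomplete) manifold `X` with a Ricci-flat Kahler metric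
of finite volume. -/
structure Calculus : Prop where
  fin : IsFiniteMeasure D.vol
  pos : D.vol.IsOpenPosMeasure
  sm_cont : ∀ f ∈ D.sm, Continuous f
  sm_sub : ∀ f ∈ D.sm, ∀ h ∈ D.sm, (fun x => f x - h x) ∈ D.sm
  gr_sm : ∀ f ∈ D.sm, ∀ h ∈ D.sm, D.gr f h ∈ D.sm
  lap_sm : ∀ f ∈ D.sm, D.lap f ∈ D.sm
  lap_sub : ∀ f ∈ D.sm, ∀ h ∈ D.sm, ∀ x, D.lap (fun z => f z - h z) x = D.lap f x - D.lap h x
  gr_nonneg : ∀ f ∈ D.sm, ∀ x, 0 ≤ D.gr f f x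
  gr_smul : ∀ f ∈ D.sm, ∀ h ∈ D.sm, ∀ (c : ℝ) x, D.gr f (fun z => c * h z) x = c * D.gr f h x
  gr_const : ∀ f ∈ D.sm, (∀ x, D.gr f f x = 0) → ∃ c, ∀ x, f x = c
  h20_cont : ∀ f ∈ D.sm, Continuous (D.h20 f)
  h11_cont : ∀ f ∈ D.sm, Continuous (D.h11 f)
  h20_nonneg : ∀ f ∈ D.sm, ∀ x, 0 ≤ D.h20 f x
  h11_nonneg : ∀ f ∈ D.sm, ∀ x, 0 ≤ D.h11 f x
  h11_add : ∀ f ∈ D.sm, ∀ (c : ℝ) x, D.h11 (fun z => f z + c) x = D.h11 f x
  /-- chain rule -/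
  comp : ∀ (s : Set ℝ) (F : ℝ → ℝ), IsOpen s → ContDiffOn ℝ ∞ F s → ∀ f ∈ D.sm, (∀ x, f x ∈ s) →
    (fun x => F (f x)) ∈ D.sm
  gr_comp : ∀ (s : Set ℝ) (F : ℝ → ℝ), IsOpen s → ContDiffOn ℝ ∞ F s →
    ∀ f ∈ D.sm, (∀ x, f x ∈ s) → ∀ h ∈ D.sm, ∀ x,
      D.gr (fun z => F (f z)) h x = deriv F (f x) * D.gr f h x ∧
      D.gr h (fun z => F (f z)) x = deriv F (f x) * D.gr h f x
  lap_comp : ∀ (s : Set ℝ) (F : ℝ → ℝ), IsOpen s → ContDiffOn ℝ ∞ F s →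
    ∀ f ∈ D.sm, (∀ x, f x ∈ s) → ∀ x,
      D.lap (fun z => F (f z)) x =
        deriv F (f x) * D.lap f x + deriv (deriv F) (f x) * D.gr f f x
  cs_sm : D.cs ⊆ D.sm
  cs_lap : ∀ χ ∈ D.cs, D.lap χ ∈ D.cs
  cs_gr : ∀ χ ∈ D.cs, ∀ f ∈ D.sm, D.gr χ f ∈ D.cs
  cs_int : ∀ χ ∈ D.cs, ∀ f, Continuous f → Integrable (fun x => χ x * f x) D.vol
  /-- Stokes -/
  stokes : ∀ χ ∈ D.cs, ∀ f ∈ D.sm,
    ∫ x, χ x * D.lap f x ∂D.vol = - ∫ x, D.gr χ f x ∂D.vol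
  green : ∀ χ ∈ D.cs, ∀ f ∈ D.sm,
    ∫ x, χ x * D.lap f x ∂D.vol = ∫ x, D.lap χ x * f x ∂D.vol
  /-- Bochner's formula with `Ric = 0` -/
  bochner : ∀ f ∈ D.sm, ∀ x,
    D.lap (D.gr f f) x = D.h20 f x + D.h11 f x + 2 * D.gr f (D.lap f) x
  kato : ∀ f ∈ D.sm, ∀ x, D.gr (D.gr f f) (D.gr f f) x ≤
    (Real.sqrt (D.h20 f x) + Real.sqrt (D.h11 f x)) ^ 2 * D.gr f f x

/-- The singular set. `φ = log ∑ |F_j|^2 - C`, where the `F_j` generate the ideal of the singular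
set; it is exhausting on `X` (functions of `φ` vanishing near `-∞` have compact support), `Δ φ` is
integrable with integral zero (the mass of `C θ + dd^c φ` is cohomological, no mass sits on a
singular set of codimension at least two), functions with bounded Laplacian grow at most like a
power of `exp (-φ)` in gradient (Cheng-Yau, with `ω ≥ c |F|^C θ`). -/
structure Pole (φ : D.X → ℝ) : Prop where
  sm : φ ∈ D.sm
  le : ∀ x, φ x ≤ -3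
  cpt : ∀ (s : Set ℝ) (F : ℝ → ℝ), IsOpen s → ContDiffOn ℝ ∞ F s → (∀ x, φ x ∈ s) →
    (∃ k : ℝ, ∀ t ∈ s, t ≤ -k → F t = 0) → (fun x => F (φ x)) ∈ D.cs
  lap_int : Integrable (D.lap φ) D.vol
  lap_zero : ∫ x, D.lap φ x ∂D.vol = 0
  growth : ∀ f ∈ D.sm, ∀ l : ℝ, (∃ M, ∀ x, |f x| ≤ M) → (∀ x, D.lap f x = - l * f x) →
    ∃ C, ∀ x, D.gr f f x ≤ Real.exp (- (C * φ x))

/-- Approximation by Kahler metrics `ω_j` on a resolution `Y` (Eyssidieux-Guedj-Zeriahi,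
Boucksom-Eyssidieux-Guedj-Zeriahi) with the uniform estimates of Guo-Phong-Song-Sturm: a bounded
smooth `h` with integral zero is the Laplacian of a bounded smooth `f`, the limit of the solutions
`f_j` on `Y` of `Δ_j f_j = l_j`, `l_j = h - c_j`. Here `b_j = |∂ ∂bar f_j|^2` and `ρ_j` is the
density of the volume form of `ω_j`; on the compact Kahler manifold `(Y, ω_j)` the integrals of
`b_j` and `l_j^2` agree by Stokes. -/
def Approx : Prop :=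
  ∀ h ∈ D.sm, (∃ M, ∀ x, |h x| ≤ M) → ∫ x, h x ∂D.vol = 0 →
    ∃ f ∈ D.sm, (∃ M, ∀ x, |f x| ≤ M) ∧ (∀ x, D.lap f x = h x) ∧
      ∃ b l ρ : ℕ → D.X → ℝ,
        (∀ j, Continuous (b j)) ∧ (∀ j, Continuous (ρ j)) ∧
        (∀ j x, 0 ≤ b j x) ∧ (∀ j x, 0 ≤ ρ j x) ∧
        (∀ j, Integrable (fun x => b j x * ρ j x) D.vol) ∧
        (∀ j, ∫ x, b j x * ρ j x ∂D.vol = ∫ x, l j x ^ 2 * ρ j x ∂D.vol) ∧
        Tendsto (fun j => ∫ x, l j x ^ 2 * ρ j x ∂D.vol) atTop (𝓝 (∫ x, h x ^ 2 ∂D.vol)) ∧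
        ∀ x, Tendsto (fun j => b j x * ρ j x) atTop (𝓝 (D.h11 f x))

/-- Moser iteration with the Sobolev inequality of Guo-Phong-Song-Sturm; the singular set has
capacity zero. -/
def Moser : Prop :=
  ∀ v ∈ D.sm, (∀ x, 0 ≤ v x) → Integrable (fun x => v x ^ 2) D.vol →
    Integrable (D.gr v v) D.vol → (∃ C, ∀ x, - (C * v x) ≤ D.lap v x) → ∃ C, ∀ x, v x ≤ C

end Reg

end Pool.Agent.SYM
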