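import Pool.Agent.SYM.SingData

/-!
Eigenfunctions of a singular Ricci-flat Kahler metric are Lipschitz.
-/

open MeasureTheory Set Filter
open scoped ENNReal Topology ContDiff

namespace Pool.Agent.SYM

/-! ### Two smooth functions of one variable -/

/-- the smooth step `b = 1` on `[1,2]`, zero outside `[1/2,3]` -/
noncomputable def sbump (s : ℝ) : ℝ :=
  Real.smoothTransition (2 * s - 1) * Real.smoothTransition (3 - s)

lemma sbump_contDiff : ContDiff ℝ ∞ sbump := by
  unfold sbump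
  have h := Real.smoothTransition.contDiff (n := (⊤ : ℕ∞))
  exact (h.comp ((contDiff_const.mul contDiff_id).sub contDiff_const)).mul
    (h.comp (contDiff_const.sub contDiff_id))

lemma sbump_nonneg (s : ℝ) : 0 ≤ sbump s :=
  mul_nonneg (Real.smoothTransition.nonneg _) (Real.smoothTransition.nonneg _)

lemma sbump_le_one (s : ℝ) : sbump s ≤ 1 :=
  mul_le_one₀ (Real.smoothTransition.le_one _) (Real.smoothTransition.nonneg _)
    (Real.smoothTransition.le_one _)

lemma sbump_one {s : ℝ} (h1 : 1 ≤ s) (h2 : s ≤ 2) : sbump s = 1 := by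
  unfold sbump
  rw [Real.smoothTransition.one_of_one_le (by linarith),
    Real.smoothTransition.one_of_one_le (by linarith), one_mul]

lemma sbump_zero {s : ℝ} (h : 3 ≤ s) : sbump s = 0 := by
  unfold sbump
  rw [Real.smoothTransition.zero_of_nonpos (x := 3 - s) (by linarith), mul_zero]

/-- the decreasing function with derivative `- sbump`, zero for `s ≥ 3` -/
noncomputable def sth (s : ℝ) : ℝ := - ∫ r in (3 : ℝ)..s, sbump r

lemma sth_hasDerivAt (s : ℝ) : HasDerivAt sth (- sbump s) s := by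
  have h := (intervalIntegral.integral_hasDerivAt_right
    (sbump_contDiff.continuous.intervalIntegrable (3 : ℝ) s)
    (sbump_contDiff.continuous.stronglyMeasurableAtFilter _ _)
    sbump_contDiff.continuous.continuousAt)
  exact h.neg

lemma sth_deriv : deriv sth = fun s => - sbump s := funext fun s => (sth_hasDerivAt s).deriv

lemma sth_contDiff : ContDiff ℝ ∞ sth := by
  rw [contDiff_infty_iff_deriv]
  refine ⟨fun s => (sth_hasDerivAt s).differentiableAt, ?_⟩
  rw [sth_deriv]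
  exact sbump_contDiff.neg

lemma sth_zero {s : ℝ} (h : 3 ≤ s) : sth s = 0 := by
  unfold sth
  rw [intervalIntegral.integral_congr (g := fun _ => (0 : ℝ))]
  · simp
  · intro r hr
    rw [uIcc_of_le h] at hr
    exact sbump_zero hr.1

lemma sth_bound {s : ℝ} (h : 0 ≤ s) : |sth s| ≤ 3 := by
  rcases le_total 3 s with h3 | h3
  · rw [sth_zero h3]; norm_num
  · unfold sth
    rw [abs_neg]
    have := intervalIntegral.norm_integral_le_of_norm_le_const (a := (3 : ℝ)) (b := s)
      (f := sbump) (C := 1) (fun x _ => by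
        rw [Real.norm_eq_abs, abs_of_nonneg (sbump_nonneg x)]; exact sbump_le_one x)
    rw [Real.norm_eq_abs] at this
    refine this.trans ?_
    rw [one_mul, abs_le]
    constructor <;> linarith

/-- the cut-off of one variable -/
noncomputable def sH (s : ℝ) : ℝ := Real.smoothTransition (2 - s)

lemma sH_contDiff : ContDiff ℝ ∞ sH := by
  unfold sH
  exact (Real.smoothTransition.contDiff (n := (⊤ : ℕ∞))).comp (contDiff_const.sub contDiff_id)

lemma sH_one {s : ℝ} (h : s ≤ 1) : sH s = 1 :=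
  Real.smoothTransition.one_of_one_le (by linarith)

lemma sH_zero {s : ℝ} (h : 2 ≤ s) : sH s = 0 :=
  Real.smoothTransition.zero_of_nonpos (by linarith)

lemma deriv_zero_outside {F : ℝ → ℝ}
    (h1 : ∀ s, s < 1 → F s = F 0) (h2 : ∀ s, 2 < s → F s = F 3) :
    (∀ s, s < 1 → deriv F s = 0) ∧ (∀ s, 2 < s → deriv F s = 0) := by
  constructor
  · intro s hs
    have : F =ᶠ[𝓝 s] fun _ => F 0 := by
      filter_upwards [Iio_mem_nhds hs] with t ht using h1 t ht
    rw [this.deriv_eq]; simp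
  · intro s hs
    have : F =ᶠ[𝓝 s] fun _ => F 3 := by
      filter_upwards [Ioi_mem_nhds hs] with t ht using h2 t ht
    rw [this.deriv_eq]; simp

lemma sH_bounds : ∃ C : ℝ, 0 < C ∧ ∀ s, |deriv sH s| ≤ C * sbump s ∧
    |deriv (deriv sH) s| ≤ C * sbump s := by
  have hc1 : ContDiff ℝ ∞ (deriv sH) := (contDiff_infty_iff_deriv.1 sH_contDiff).2
  have hc2 : ContDiff ℝ ∞ (deriv (deriv sH)) := (contDiff_infty_iff_deriv.1 hc1).2
  obtain ⟨C1, hC1⟩ := (isCompact_Icc (a := (1 : ℝ)) (b := 2)).exists_bound_of_continuousOn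
    hc1.continuous.continuousOn
  obtain ⟨C2, hC2⟩ := (isCompact_Icc (a := (1 : ℝ)) (b := 2)).exists_bound_of_continuousOn
    hc2.continuous.continuousOn
  have h0 := deriv_zero_outside (F := sH)
    (fun s hs => by rw [sH_one hs.le, sH_one (by norm_num)])
    (fun s hs => by rw [sH_zero hs.le, sH_zero (by norm_num)])
  have h0' := deriv_zero_outside (F := deriv sH)
    (fun s hs => by rw [h0.1 s hs, h0.1 0 (by norm_num)])
    (fun s hs => by rw [h0.2 s hs, h0.2 3 (by norm_num)])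
  refine ⟨|C1| + |C2| + 1, by positivity, fun s => ?_⟩
  have hb := sbump_nonneg s
  by_cases hs : 1 ≤ s ∧ s ≤ 2
  · rw [sbump_one hs.1 hs.2, mul_one]
    have e1 := hC1 s hs
    have e2 := hC2 s hs
    rw [Real.norm_eq_abs] at e1 e2
    constructor
    · nlinarith [le_abs_self C1, abs_nonneg C2]
    · nlinarith [le_abs_self C2, abs_nonneg C1]
  · have : deriv sH s = 0 ∧ deriv (deriv sH) s = 0 := by
      by_cases h1 : s < 1
      · exact ⟨h0.1 s h1, h0'.1 s h1⟩
      · have : 2 < s := by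
          by_contra h
          exact hs ⟨not_lt.1 h1, not_lt.1 h⟩
        exact ⟨h0.2 s this, h0'.2 s this⟩
    rw [this.1, this.2, abs_zero]
    constructor <;> positivity

/-! ### Functions of `log (-t) / n` -/

section one

variable {F : ℝ → ℝ} {n : ℝ}

lemma flog_contDiffOn (hF : ContDiff ℝ ∞ F) :
    ContDiffOn ℝ ∞ (fun t => F (Real.log (-t) / n)) (Iio 0) := by
  refine hF.comp_contDiffOn ?_
  refine ContDiffOn.div_const ?_ n
  refine ContDiffOn.log contDiffOn_id.neg ?_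
  intro t ht h
  have h1 : t < 0 := ht
  have h2 : -t = 0 := h
  linarith

lemma hasDerivAt_loglin {t : ℝ} (ht : t < 0) :
    HasDerivAt (fun t => Real.log (-t) / n) (1 / t / n) t := by
  have h1 : HasDerivAt (fun t : ℝ => -t) (-1) t := hasDerivAt_neg t
  have h2 := h1.log (by linarith)
  have h3 := h2.div_const n
  have e : (1 / t / n : ℝ) = -1 / -t / n := by rw [neg_div_neg_eq]
  rw [e]
  exact h3

lemma deriv_flog (hF : ContDiff ℝ ∞ F) {t : ℝ} (ht : t < 0) :
    deriv (fun t => F (Real.log (-t) / n)) t = deriv F (Real.log (-t) / n) * (1 / t / n) := by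
  have hd : Differentiable ℝ F := hF.differentiable (by simp)
  exact (HasDerivAt.comp t (hd _).hasDerivAt (hasDerivAt_loglin ht)).deriv

lemma deriv2_flog (hF : ContDiff ℝ ∞ F) {t : ℝ} (ht : t < 0) :
    deriv (deriv (fun t => F (Real.log (-t) / n))) t =
      deriv (deriv F) (Real.log (-t) / n) * (1 / t / n) ^ 2 -
        deriv F (Real.log (-t) / n) * (1 / t ^ 2 / n) := by
  have hc1 : ContDiff ℝ ∞ (deriv F) := (contDiff_infty_iff_deriv.1 hF).2
  have hd : Differentiable ℝ (deriv F) := hc1.differentiable (by simp)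
  have he : deriv (fun t => F (Real.log (-t) / n)) =ᶠ[𝓝 t]
      fun t => deriv F (Real.log (-t) / n) * (1 / t / n) := by
    filter_upwards [Iio_mem_nhds ht] with r hr using deriv_flog hF hr
  rw [he.deriv_eq]
  have h1 : HasDerivAt (fun t => deriv F (Real.log (-t) / n))
      (deriv (deriv F) (Real.log (-t) / n) * (1 / t / n)) t :=
    HasDerivAt.comp t (hd _).hasDerivAt (hasDerivAt_loglin ht)
  have h2 : HasDerivAt (fun t : ℝ => 1 / t / n) (- (1 / t ^ 2 / n)) t := by
    have h3 := ((hasDerivAt_inv ht.ne).div_const n)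
    have e1 : (fun t : ℝ => 1 / t / n) = fun t => t⁻¹ / n := by funext r; rw [one_div]
    have e2 : - (1 / t ^ 2 / n) = -(t ^ 2)⁻¹ / n := by rw [one_div, neg_div]
    rw [e1, e2]
    exact h3
  have h4 : HasDerivAt (fun t => deriv F (Real.log (-t) / n) * (1 / t / n))
      (deriv (deriv F) (Real.log (-t) / n) * (1 / t / n) * (1 / t / n) +
        deriv F (Real.log (-t) / n) * (- (1 / t ^ 2 / n))) t := h1.mul h2
  rw [h4.deriv]
  ring

end one

namespace Reg

variable {D : Reg} {φ : D.X → ℝ}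

/-! ### The cut-offs -/

/-- the cut-off functions -/
noncomputable def cut (φ : D.X → ℝ) (j : ℕ) : D.X → ℝ :=
  fun x => sH (Real.log (-φ x) / ((j : ℝ) + 1))

/-- the functions `Θ (log (-φ) / n)` -/
noncomputable def cth (φ : D.X → ℝ) (j : ℕ) : D.X → ℝ :=
  fun x => sth (Real.log (-φ x) / ((j : ℝ) + 1))

lemma Pole.neg (hP : D.Pole φ) (x : D.X) : φ x < 0 := by have := hP.le x; linarith

lemma flog_cs (hP : D.Pole φ) {F : ℝ → ℝ} (hF : ContDiff ℝ ∞ F) {r : ℝ}
    (h0 : ∀ s, r ≤ s → F s = 0) (j : ℕ) :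
    (fun x => F (Real.log (-φ x) / ((j : ℝ) + 1))) ∈ D.cs := by
  have hn : (0 : ℝ) < (j : ℝ) + 1 := by positivity
  refine hP.cpt (Iio 0) (fun t => F (Real.log (-t) / ((j : ℝ) + 1))) isOpen_Iio
    (flog_contDiffOn hF) (fun x => hP.neg x) ⟨Real.exp (r * ((j : ℝ) + 1)), fun t ht h => ?_⟩
  apply h0
  have ht' : t < 0 := ht
  rw [le_div_iff₀ hn, Real.le_log_iff_exp_le (by linarith)]
  linarith

lemma cut_cs (hP : D.Pole φ) (j : ℕ) : cut φ j ∈ D.cs :=
  flog_cs hP sH_contDiff (fun _ h => sH_zero h) j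

lemma cth_cs (hP : D.Pole φ) (j : ℕ) : cth φ j ∈ D.cs :=
  flog_cs hP sth_contDiff (fun _ h => sth_zero h) j

lemma cut_nonneg (j : ℕ) (x : D.X) : 0 ≤ cut φ j x := Real.smoothTransition.nonneg _

lemma cut_le_one (j : ℕ) (x : D.X) : cut φ j x ≤ 1 := Real.smoothTransition.le_one _

lemma tendsto_log_div (x : D.X) :
    Tendsto (fun j : ℕ => Real.log (-φ x) / ((j : ℝ) + 1)) atTop (𝓝 0) := by
  have h1 : Tendsto (fun j : ℕ => (j : ℝ) + 1) atTop atTop :=
    tendsto_atTop_add_const_right _ _ tendsto_natCast_atTop_atTop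
  exact h1.const_div_atTop _

lemma cut_tendsto_one (x : D.X) : Tendsto (fun j => cut φ j x) atTop (𝓝 1) := by
  have h1 : ∀ᶠ j : ℕ in atTop, Real.log (-φ x) / ((j : ℝ) + 1) < 1 :=
    (tendsto_log_div (φ := φ) x).eventually (Iio_mem_nhds one_pos)
  refine tendsto_const_nhds.congr' ?_
  filter_upwards [h1] with j hj
  exact (sH_one hj.le).symm

lemma cut_lap_bound (hC : D.Calculus) (hP : D.Pole φ) : ∃ C : ℝ, 0 < C ∧ ∀ (j : ℕ) (x : D.X),
    |φ x * D.lap (cut φ j) x| ≤
      C / ((j : ℝ) + 1) * |D.lap φ x| + 2 * C * D.gr (cth φ j) φ x := by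
  obtain ⟨C, hC0, hb⟩ := sH_bounds
  refine ⟨C, hC0, fun j x => ?_⟩
  set n : ℝ := (j : ℝ) + 1 with hn
  have hn1 : (1 : ℝ) ≤ n := by rw [hn]; have : (0 : ℝ) ≤ j := Nat.cast_nonneg j; linarith
  have hn0 : (0 : ℝ) < n := by linarith
  have ht : φ x < 0 := hP.neg x
  have hrange : ∀ x, φ x ∈ Iio (0 : ℝ) := fun x => hP.neg x
  have e1 := hC.lap_comp (Iio 0) (fun t => sH (Real.log (-t) / n)) isOpen_Iio
    (flog_contDiffOn sH_contDiff) φ hP.sm hrange x
  have e2 := (hC.gr_comp (Iio 0) (fun t => sth (Real.log (-t) / n)) isOpen_Iio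
    (flog_contDiffOn sth_contDiff) φ hP.sm hrange φ hP.sm x).1
  have e1' : D.lap (cut φ j) x = _ := e1
  have e2' : D.gr (cth φ j) φ x = _ := e2
  rw [deriv_flog sH_contDiff ht, deriv2_flog sH_contDiff ht] at e1'
  rw [deriv_flog sth_contDiff ht, sth_deriv] at e2'
  rw [e1', e2']
  set s := Real.log (-φ x) / n with hs
  have hg : 0 ≤ D.gr φ φ x := hC.gr_nonneg φ hP.sm x
  have hb0 := sbump_nonneg s
  have hb1 := sbump_le_one s
  obtain ⟨h1, h2⟩ := hb s
  have hA : |deriv sH s| ≤ C := h1.trans (by nlinarith)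
  set a := deriv sH s
  set b := deriv (deriv sH) s
  set g := D.gr φ φ x
  set L := D.lap φ x
  set t := φ x
  have ht0 : t ≠ 0 := ht.ne
  have key : t * (a * (1 / t / n) * L + (b * (1 / t / n) ^ 2 - a * (1 / t ^ 2 / n)) * g) =
      a / n * L + (b / n - a) * (g / (t * n)) := by
    field_simp
  have hgt : |g / (t * n)| = g / (-t * n) := by
    rw [abs_div, abs_of_nonneg hg, abs_mul, abs_of_neg ht, abs_of_pos hn0]
  rw [key]
  have k1 : |a / n * L| ≤ C / n * |L| := by
    rw [abs_mul, abs_div, abs_of_pos hn0]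
    gcongr
  have hba : |b / n - a| ≤ 2 * C * sbump s := by
    have : |b / n| ≤ C * sbump s := by
      rw [abs_div, abs_of_pos hn0]
      exact (div_le_self (abs_nonneg b) hn1).trans h2
    calc |b / n - a| ≤ |b / n| + |a| := abs_sub _ _
      _ ≤ C * sbump s + C * sbump s := add_le_add this h1
      _ = 2 * C * sbump s := by ring
  have hgn : 0 ≤ g / (-t * n) := div_nonneg hg (by nlinarith)
  have k2 : |(b / n - a) * (g / (t * n))| ≤ 2 * C * sbump s * (g / (-t * n)) := by
    rw [abs_mul, hgt]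
    exact mul_le_mul_of_nonneg_right hba hgn
  calc |a / n * L + (b / n - a) * (g / (t * n))|
      ≤ |a / n * L| + |(b / n - a) * (g / (t * n))| := abs_add_le _ _
    _ ≤ C / n * |L| + 2 * C * sbump s * (g / (-t * n)) := add_le_add k1 k2
    _ = C / n * |L| + 2 * C * (-sbump s * (1 / t / n) * g) := by
        congr 1
        field_simp

lemma cs_integrable (hC : D.Calculus) {χ : D.X → ℝ} (h : χ ∈ D.cs) : Integrable χ D.vol := by
  simpa using hC.cs_int χ h (fun _ => 1) continuous_const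

lemma phi_lap_int (hC : D.Calculus) (hP : D.Pole φ) (j : ℕ) :
    Integrable (fun x => φ x * D.lap (cut φ j) x) D.vol := by
  refine (hC.cs_int _ (hC.cs_lap _ (cut_cs hP j)) φ (hC.sm_cont _ hP.sm)).congr ?_
  exact Eventually.of_forall fun x => mul_comm _ _

/-- Step 3 -/
theorem cut_tendsto (hC : D.Calculus) (hP : D.Pole φ) :
    Tendsto (fun j : ℕ => ∫ x, |φ x * D.lap (cut φ j) x| ∂D.vol) atTop (𝓝 0) := by
  obtain ⟨C, hC0, hb⟩ := cut_lap_bound hC hP
  have hL : Integrable (fun x => |D.lap φ x|) D.vol := hP.lap_int.abs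
  have hlap : Continuous (D.lap φ) := hC.sm_cont _ (hC.lap_sm _ hP.sm)
  have hth : Tendsto (fun j : ℕ => ∫ x, cth φ j x * D.lap φ x ∂D.vol) atTop
      (𝓝 (∫ x, sth 0 * D.lap φ x ∂D.vol)) := by
    refine tendsto_integral_of_dominated_convergence (fun x => 3 * |D.lap φ x|) ?_ ?_ ?_ ?_
    · intro j
      exact (((hC.sm_cont _ (hC.cs_sm (cth_cs hP j))).mul hlap)).aestronglyMeasurable
    · exact hL.const_mul 3
    · intro j
      refine Eventually.of_forall fun x => ?_
      rw [Real.norm_eq_abs, abs_mul]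
      refine mul_le_mul_of_nonneg_right (sth_bound ?_) (abs_nonneg _)
      have := hP.le x
      exact div_nonneg (Real.log_nonneg (by linarith)) (by positivity)
    · refine Eventually.of_forall fun x => ?_
      refine Tendsto.mul_const _ ?_
      exact (sth_contDiff.continuous.tendsto 0).comp (tendsto_log_div x)
  rw [integral_const_mul, hP.lap_zero, mul_zero] at hth
  have hn : Tendsto (fun j : ℕ => C / ((j : ℝ) + 1)) atTop (𝓝 0) := by
    have h1 : Tendsto (fun j : ℕ => (j : ℝ) + 1) atTop atTop :=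
      tendsto_atTop_add_const_right _ _ tendsto_natCast_atTop_atTop
    exact h1.const_div_atTop _
  have hup : Tendsto (fun j : ℕ => C / ((j : ℝ) + 1) * (∫ x, |D.lap φ x| ∂D.vol) +
      2 * C * (- ∫ x, cth φ j x * D.lap φ x ∂D.vol)) atTop (𝓝 0) := by
    have := (hn.mul_const (∫ x, |D.lap φ x| ∂D.vol)).add ((hth.neg).const_mul (2 * C))
    simpa using this
  refine squeeze_zero (fun j => integral_nonneg fun x => abs_nonneg _) (fun j => ?_) hup
  have hgi : Integrable (D.gr (cth φ j) φ) D.vol :=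
    cs_integrable hC (hC.cs_gr _ (cth_cs hP j) φ hP.sm)
  calc ∫ x, |φ x * D.lap (cut φ j) x| ∂D.vol
      ≤ ∫ x, (C / ((j : ℝ) + 1) * |D.lap φ x| + 2 * C * D.gr (cth φ j) φ x) ∂D.vol :=
        integral_mono (phi_lap_int hC hP j).abs
          ((hL.const_mul _).add (hgi.const_mul _)) (fun x => hb j x)
    _ = C / ((j : ℝ) + 1) * (∫ x, |D.lap φ x| ∂D.vol) +
        2 * C * (- ∫ x, cth φ j x * D.lap φ x ∂D.vol) := by
        rw [integral_add (hL.const_mul _) (hgi.const_mul _), integral_const_mul,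
          integral_const_mul, hC.stokes _ (cth_cs hP j) φ hP.sm, neg_neg]

/-- functions growing at most like `|φ|` have Laplacian of integral zero -/
theorem lap_cut_tendsto (hC : D.Calculus) (hP : D.Pole φ) {f : D.X → ℝ} (hf : f ∈ D.sm)
    {M : ℝ} (hM : ∀ x, |f x| ≤ M * |φ x|) :
    Tendsto (fun j : ℕ => ∫ x, cut φ j x * D.lap f x ∂D.vol) atTop (𝓝 0) := by
  have h0 := (cut_tendsto hC hP).const_mul |M|
  rw [mul_zero] at h0
  refine squeeze_zero_norm (fun j => ?_) h0
  rw [hC.green _ (cut_cs hP j) f hf, ← integral_const_mul]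
  refine (norm_integral_le_integral_norm _).trans ?_
  refine integral_mono ((hC.cs_int _ (hC.cs_lap _ (cut_cs hP j)) f (hC.sm_cont _ hf)).norm)
    ((phi_lap_int hC hP j).abs.const_mul _) (fun x => ?_)
  show |D.lap (cut φ j) x * f x| ≤ |M| * |φ x * D.lap (cut φ j) x|
  rw [abs_mul, abs_mul]
  calc |D.lap (cut φ j) x| * |f x| ≤ |D.lap (cut φ j) x| * (|M| * |φ x|) := by
        refine mul_le_mul_of_nonneg_left ((hM x).trans ?_) (abs_nonneg _)
        exact mul_le_mul_of_nonneg_right (le_abs_self M) (abs_nonneg _)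
    _ = |M| * (|φ x| * |D.lap (cut φ j) x|) := by ring

theorem lap_cut_tendsto' (hC : D.Calculus) (hP : D.Pole φ) {f : D.X → ℝ} (hf : f ∈ D.sm)
    {M : ℝ} (hM : ∀ x, |f x| ≤ M) :
    Tendsto (fun j : ℕ => ∫ x, cut φ j x * D.lap f x ∂D.vol) atTop (𝓝 0) := by
  refine lap_cut_tendsto hC hP hf (M := |M|) (fun x => ?_)
  have h1 := hP.le x
  have h2 : 1 ≤ |φ x| := by rw [abs_of_neg (hP.neg x)]; linarith
  calc |f x| ≤ |M| * 1 := by rw [mul_one]; exact (hM x).trans (le_abs_self M)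
    _ ≤ |M| * |φ x| := mul_le_mul_of_nonneg_left h2 (abs_nonneg M)

/-- Fatou's lemma in the form used here -/
theorem fatou {X : Type*} [MeasurableSpace X] {μ : Measure X} {g : X → ℝ} {G : ℕ → X → ℝ}
    (hG : ∀ j, Integrable (G j) μ) (h0 : ∀ j x, 0 ≤ G j x) (hg : AEStronglyMeasurable g μ)
    (ht : ∀ x, Tendsto (fun j => G j x) atTop (𝓝 (g x))) {R : ℝ} {e : ℕ → ℝ}
    (he : Tendsto e atTop (𝓝 R)) (hR : ∀ j, ∫ x, G j x ∂μ ≤ e j) :
    Integrable g μ ∧ ∫ x, g x ∂μ ≤ R := by
  have hg0 : ∀ x, 0 ≤ g x := fun x => ge_of_tendsto' (ht x) (fun j => h0 j x)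
  have hR0 : 0 ≤ R := ge_of_tendsto' he (fun j => (integral_nonneg (h0 j)).trans (hR j))
  have hlim : ∀ x, liminf (fun j => ENNReal.ofReal (G j x)) atTop = ENNReal.ofReal (g x) :=
    fun x => (ENNReal.tendsto_ofReal (ht x)).liminf_eq
  have h1 : ∫⁻ x, ENNReal.ofReal (g x) ∂μ ≤ ENNReal.ofReal R := by
    calc ∫⁻ x, ENNReal.ofReal (g x) ∂μ
        = ∫⁻ x, liminf (fun j => ENNReal.ofReal (G j x)) atTop ∂μ := by simp_rw [hlim]
      _ ≤ liminf (fun j => ∫⁻ x, ENNReal.ofReal (G j x) ∂μ) atTop :=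
          lintegral_liminf_le' (fun j => (hG j).aestronglyMeasurable.aemeasurable.ennreal_ofReal)
      _ ≤ liminf (fun j => ENNReal.ofReal (e j)) atTop := by
          refine liminf_le_liminf (Eventually.of_forall fun j => ?_)
          rw [← ofReal_integral_eq_lintegral_ofReal (hG j) (Eventually.of_forall (h0 j))]
          exact ENNReal.ofReal_le_ofReal (hR j)
      _ = ENNReal.ofReal R := (ENNReal.tendsto_ofReal he).liminf_eq
  have hint : Integrable g μ := by
    refine ⟨hg, ?_⟩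
    rw [hasFiniteIntegral_iff_ofReal (Eventually.of_forall hg0)]
    exact h1.trans_lt ENNReal.ofReal_lt_top
  refine ⟨hint, ?_⟩
  rw [integral_eq_lintegral_of_nonneg_ae (Eventually.of_forall hg0) hg]
  calc (∫⁻ x, ENNReal.ofReal (g x) ∂μ).toReal ≤ (ENNReal.ofReal R).toReal :=
        ENNReal.toReal_mono ENNReal.ofReal_ne_top h1
    _ = R := ENNReal.toReal_ofReal hR0

/-- Fatou with the cut-offs -/
theorem fatou_cut (hC : D.Calculus) (hP : D.Pole φ) {g : D.X → ℝ} (hg : Continuous g)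
    (h0 : ∀ x, 0 ≤ g x) {R : ℝ} {e : ℕ → ℝ} (he : Tendsto e atTop (𝓝 R))
    (hR : ∀ j, ∫ x, cut φ j x * g x ∂D.vol ≤ e j) :
    Integrable g D.vol ∧ ∫ x, g x ∂D.vol ≤ R := by
  refine fatou (G := fun j x => cut φ j x * g x) (fun j => hC.cs_int _ (cut_cs hP j) g hg)
    (fun j x => mul_nonneg (cut_nonneg j x) (h0 x)) hg.aestronglyMeasurable (fun x => ?_) he hR
  simpa using (cut_tendsto_one (φ := φ) x).mul_const (g x)

/-! ### Energy, Liouville, the (1,1)-part of the Hessian -/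

lemma deriv_sq : deriv (fun t : ℝ => t ^ 2) = fun t => 2 * t := by
  funext t; simp

lemma deriv2_sq : deriv (fun t : ℝ => 2 * t) = fun _ => 2 := by
  funext t
  rw [deriv_const_mul_field]; simp

lemma sq_sm (hC : D.Calculus) {f : D.X → ℝ} (hf : f ∈ D.sm) : (fun x => f x ^ 2) ∈ D.sm :=
  hC.comp univ (fun t => t ^ 2) isOpen_univ (contDiff_id.pow 2).contDiffOn f hf
    (fun _ => mem_univ _)

lemma lap_sq (hC : D.Calculus) {f : D.X → ℝ} (hf : f ∈ D.sm) (x : D.X) :
    D.lap (fun z => f z ^ 2) x = 2 * f x * D.lap f x + 2 * D.gr f f x := by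
  have h := hC.lap_comp univ (fun t => t ^ 2) isOpen_univ (contDiff_id.pow 2).contDiffOn f hf
    (fun _ => mem_univ _) x
  rw [deriv_sq, deriv2_sq] at h
  exact h

lemma bdd_integrable (hC : D.Calculus) {f : D.X → ℝ} (hf : Continuous f) {M : ℝ}
    (hM : ∀ x, |f x| ≤ M) : Integrable f D.vol := by
  have := hC.fin
  exact Integrable.mono' (integrable_const M) hf.aestronglyMeasurable
    (Eventually.of_forall fun x => by simpa using hM x)

lemma cut_tendsto_integral (hC : D.Calculus) (hP : D.Pole φ) {g : D.X → ℝ} (hg : Continuous g)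
    (hi : Integrable g D.vol) :
    Tendsto (fun j : ℕ => ∫ x, cut φ j x * g x ∂D.vol) atTop (𝓝 (∫ x, g x ∂D.vol)) := by
  refine tendsto_integral_of_dominated_convergence (fun x => |g x|) ?_ hi.abs ?_ ?_
  · intro j
    exact ((hC.sm_cont _ (hC.cs_sm (cut_cs hP j))).mul hg).aestronglyMeasurable
  · intro j
    refine Eventually.of_forall fun x => ?_
    rw [Real.norm_eq_abs, abs_mul, abs_of_nonneg (cut_nonneg j x)]
    exact mul_le_of_le_one_left (abs_nonneg _) (cut_le_one j x)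
  · refine Eventually.of_forall fun x => ?_
    simpa using (cut_tendsto_one (φ := φ) x).mul_const (g x)

/-- bounded eigenfunctions have finite energy -/
theorem eigen_energy (hC : D.Calculus) (hP : D.Pole φ) {f : D.X → ℝ} (hf : f ∈ D.sm) {M l : ℝ}
    (hM : ∀ x, |f x| ≤ M) (hl : ∀ x, D.lap f x = - l * f x) : Integrable (D.gr f f) D.vol := by
  have hfc := hC.sm_cont f hf
  have hM0 : ∀ x, f x ^ 2 ≤ M ^ 2 := fun x => by
    rw [← sq_abs]
    exact pow_le_pow_left₀ (abs_nonneg _) (hM x) 2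
  have h2 : Integrable (fun x => f x ^ 2) D.vol :=
    bdd_integrable hC (hfc.pow 2) (M := M ^ 2) (fun x => by
      rw [abs_of_nonneg (sq_nonneg _)]; exact hM0 x)
  have hA := lap_cut_tendsto' hC hP (sq_sm hC hf) (M := M ^ 2) (fun x => by
      rw [abs_of_nonneg (sq_nonneg _)]; exact hM0 x)
  have hB : Tendsto (fun j : ℕ => ∫ x, cut φ j x * f x ^ 2 ∂D.vol) atTop
      (𝓝 (∫ x, f x ^ 2 ∂D.vol)) := cut_tendsto_integral hC hP (hfc.pow 2) h2
  refine (fatou_cut hC hP (hC.sm_cont _ (hC.gr_sm f hf f hf)) (hC.gr_nonneg f hf)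
    (((hA.const_mul (1 / 2)).add (hB.const_mul l))) (fun j => le_of_eq ?_)).1
  have i1 : Integrable (fun x => cut φ j x * D.lap (fun z => f z ^ 2) x) D.vol :=
    hC.cs_int _ (cut_cs hP j) _ (hC.sm_cont _ (hC.lap_sm _ (sq_sm hC hf)))
  have i2 : Integrable (fun x => cut φ j x * f x ^ 2) D.vol :=
    hC.cs_int _ (cut_cs hP j) _ (hfc.pow 2)
  rw [← integral_const_mul, ← integral_const_mul, ← integral_add (i1.const_mul _)
    (i2.const_mul _)]
  refine integral_congr_ae (Eventually.of_forall fun x => ?_)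
  show cut φ j x * D.gr f f x = 1 / 2 * (cut φ j x * D.lap (fun z => f z ^ 2) x) +
    l * (cut φ j x * f x ^ 2)
  rw [lap_sq hC hf, hl]
  ring

/-- bounded harmonic functions are constant -/
theorem liouville (hC : D.Calculus) (hP : D.Pole φ) {h : D.X → ℝ} (hh : h ∈ D.sm) {M : ℝ}
    (hM : ∀ x, |h x| ≤ M) (hl : ∀ x, D.lap h x = 0) : ∃ c, ∀ x, h x = c := by
  have hA := lap_cut_tendsto' hC hP (sq_sm hC hh) (M := M ^ 2) (fun x => by
    rw [abs_of_nonneg (sq_nonneg _), ← sq_abs]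
    exact pow_le_pow_left₀ (abs_nonneg _) (hM x) 2)
  have hgc : Continuous (D.gr h h) := hC.sm_cont _ (hC.gr_sm h hh h hh)
  have h0 := hC.gr_nonneg h hh
  obtain ⟨hi, hR⟩ := fatou_cut hC hP hgc h0 (hA.const_mul (1 / 2)) (fun j => le_of_eq (by
    rw [← integral_const_mul]
    refine integral_congr_ae (Eventually.of_forall fun x => ?_)
    show cut φ j x * D.gr h h x = 1 / 2 * (cut φ j x * D.lap (fun z => h z ^ 2) x)
    rw [lap_sq hC hh, hl]
    ring))
  rw [mul_zero] at hR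
  have hz : ∫ x, D.gr h h x ∂D.vol = 0 := le_antisymm hR (integral_nonneg h0)
  have hae := (integral_eq_zero_iff_of_nonneg (fun x => h0 x) hi).1 hz
  have := hC.pos
  have heq : D.gr h h = fun _ => 0 :=
    (Continuous.ae_eq_iff_eq D.vol hgc continuous_const).1 hae
  exact hC.gr_const h hh (fun x => by rw [heq])

/-- Step 2: the `(1,1)`-part of the Hessian is square integrable -/
theorem h11_int (hC : D.Calculus) (hP : D.Pole φ) (hA : D.Approx) {f : D.X → ℝ} (hf : f ∈ D.sm)
    {M l : ℝ} (hM : ∀ x, |f x| ≤ M) (hl : ∀ x, D.lap f x = - l * f x) :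
    Integrable (D.h11 f) D.vol := by
  have hlap := hC.lap_sm f hf
  have hlc := hC.sm_cont _ hlap
  have hb : ∀ x, |D.lap f x| ≤ |l| * M := fun x => by
    rw [hl, abs_mul, abs_neg]
    exact mul_le_mul_of_nonneg_left (hM x) (abs_nonneg l)
  have hz : ∫ x, D.lap f x ∂D.vol = 0 :=
    tendsto_nhds_unique (cut_tendsto_integral hC hP hlc (bdd_integrable hC hlc hb))
      (lap_cut_tendsto' hC hP hf hM)
  obtain ⟨f₀, hf₀, ⟨M₀, hM₀⟩, hl₀, b, l', ρ, -, -, hb0, hρ0, hi, heq, hlim, hpt⟩ :=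
    hA _ hlap ⟨_, hb⟩ hz
  obtain ⟨c, hc⟩ := liouville hC hP (hC.sm_sub f hf f₀ hf₀) (M := M + M₀)
    (fun x => (abs_sub _ _).trans (add_le_add (hM x) (hM₀ x)))
    (fun x => by rw [hC.lap_sub f hf f₀ hf₀, hl₀, sub_self])
  have hfe : f = fun z => f₀ z + c := by
    funext z
    have := hc z
    linarith
  have h11 : D.h11 f = D.h11 f₀ := by
    funext x
    rw [hfe]
    exact hC.h11_add f₀ hf₀ c x
  rw [h11]
  exact (fatou (G := fun j x => b j x * ρ j x) hi
    (fun j x => mul_nonneg (hb0 j x) (hρ0 j x)) (hC.h11_cont f₀ hf₀).aestronglyMeasurable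
    hpt hlim (fun j => (heq j).le)).1

/-! ### Step 4 -/

lemma one_add_pos {K t : ℝ} (hK : 0 < K) (ht : -K < t) : 0 < 1 + t / K := by
  have : -1 < t / K := by rw [lt_div_iff₀ hK]; linarith
  linarith

lemma hasDerivAt_F {K t : ℝ} (hK : 0 < K) (ht : -K < t) :
    HasDerivAt (fun t : ℝ => K * Real.log (1 + t / K)) (K / (K + t)) t := by
  have h1 : HasDerivAt (fun t : ℝ => 1 + t / K) (1 / K) t :=
    ((hasDerivAt_id t).div_const K).const_add 1
  have hne : 1 + t / K ≠ 0 := (one_add_pos hK ht).ne'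
  have h2 := (h1.log hne).const_mul K
  have hkt : K + t ≠ 0 := by linarith
  have e : K / (K + t) = K * (1 / K / (1 + t / K)) := by
    field_simp
  rw [e]
  exact h2

lemma deriv2_F {K t : ℝ} (hK : 0 < K) (ht : -K < t) :
    deriv (deriv (fun t : ℝ => K * Real.log (1 + t / K))) t = - (K / (K + t) ^ 2) := by
  have he : deriv (fun t : ℝ => K * Real.log (1 + t / K)) =ᶠ[𝓝 t] fun t => K / (K + t) := by
    filter_upwards [Ioi_mem_nhds ht] with r hr using (hasDerivAt_F hK hr).deriv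
  rw [he.deriv_eq]
  have h1 : HasDerivAt (fun t : ℝ => K + t) 1 t := (hasDerivAt_id t).const_add K
  have hkt : K + t ≠ 0 := by linarith
  have h2 := (h1.fun_inv hkt).const_mul K
  have h3 : HasDerivAt (fun t : ℝ => K / (K + t)) (- (K / (K + t) ^ 2)) t := by
    have e1 : (fun t : ℝ => K / (K + t)) = fun t => K * (K + t)⁻¹ := by
      funext r; rw [div_eq_mul_inv]
    have e2 : - (K / (K + t) ^ 2) = K * (-1 / (K + t) ^ 2) := by ring
    rw [e1, e2]
    exact h2
  exact h3.deriv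

lemma F_contDiffOn {K : ℝ} (hK : 0 < K) :
    ContDiffOn ℝ ∞ (fun t : ℝ => K * Real.log (1 + t / K)) (Ioi (-K)) := by
  refine contDiffOn_const.mul (ContDiffOn.log ?_ ?_)
  · exact contDiffOn_const.add (contDiffOn_id.div_const K)
  · intro t ht
    exact (one_add_pos hK ht).ne'

/-- the function `W_K = K log (1 + u / K)`, `u = |∂f|^2` -/
noncomputable def WK (D : Reg) (f : D.X → ℝ) (K : ℝ) : D.X → ℝ :=
  fun x => K * Real.log (1 + D.gr f f x / K)

lemma WK_range (hC : D.Calculus) {f : D.X → ℝ} (hf : f ∈ D.sm) {K : ℝ} (hK : 0 < K) (x : D.X) :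
    D.gr f f x ∈ Ioi (-K) := by
  have := hC.gr_nonneg f hf x
  show -K < _
  linarith

lemma WK_sm (hC : D.Calculus) {f : D.X → ℝ} (hf : f ∈ D.sm) {K : ℝ} (hK : 0 < K) :
    D.WK f K ∈ D.sm :=
  hC.comp (Ioi (-K)) _ isOpen_Ioi (F_contDiffOn hK) _ (hC.gr_sm f hf f hf) (WK_range hC hf hK)

lemma lap_u (hC : D.Calculus) {f : D.X → ℝ} (hf : f ∈ D.sm) {l : ℝ}
    (hl : ∀ x, D.lap f x = - l * f x) (x : D.X) :
    D.lap (D.gr f f) x = D.h20 f x + D.h11 f x - 2 * l * D.gr f f x := by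
  have e : D.lap f = fun z => -l * f z := funext hl
  rw [hC.bochner f hf x, e, hC.gr_smul f hf f hf]
  ring

lemma lap_WK (hC : D.Calculus) {f : D.X → ℝ} (hf : f ∈ D.sm) {l : ℝ}
    (hl : ∀ x, D.lap f x = - l * f x) {K : ℝ} (hK : 0 < K) (x : D.X) :
    1 / 2 * (D.h20 f x * (K / (K + D.gr f f x)) ^ 2) ≤
      D.lap (D.WK f K) x + 2 * D.h11 f x + 2 * |l| * D.gr f f x := by
  have hu := hC.gr_nonneg f hf x
  have hA := hC.h20_nonneg f hf x
  have hB := hC.h11_nonneg f hf x
  have e := hC.lap_comp (Ioi (-K)) _ isOpen_Ioi (F_contDiffOn hK) _ (hC.gr_sm f hf f hf)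
    (WK_range hC hf hK) x
  have e' : D.lap (D.WK f K) x = _ := e
  rw [(hasDerivAt_F hK (WK_range hC hf hK x)).deriv, deriv2_F hK (WK_range hC hf hK x),
    lap_u hC hf hl] at e'
  have hk := hC.kato f hf x
  rw [e']
  set u := D.gr f f x
  set A := D.h20 f x
  set B := D.h11 f x
  set G := D.gr (D.gr f f) (D.gr f f) x
  have hKu : 0 < K + u := by linarith
  set a := Real.sqrt A
  set b := Real.sqrt B
  have ha : a ^ 2 = A := Real.sq_sqrt hA
  have hb : b ^ 2 = B := Real.sq_sqrt hB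
  have ha0 : 0 ≤ a := Real.sqrt_nonneg _
  have hb0 : 0 ≤ b := Real.sqrt_nonneg _
  have h1 : K / (K + u) ≤ 1 := by rw [div_le_one hKu]; linarith
  have h10 : 0 ≤ K / (K + u) := (div_pos hK hKu).le
  have h2 : -(2 * |l| * u) ≤ K / (K + u) * (-(2 * l * u)) := by
    have hl1 : l ≤ |l| := le_abs_self l
    have hl2 : -|l| ≤ l := neg_abs_le l
    have hlu : K / (K + u) * (2 * l * u) ≤ 2 * |l| * u := by
      calc K / (K + u) * (2 * l * u) ≤ K / (K + u) * (2 * |l| * u) := by gcongr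
        _ ≤ 1 * (2 * |l| * u) := by gcongr
        _ = 2 * |l| * u := one_mul _
    linarith
  have h3 : 1 / 2 * (A * (K / (K + u)) ^ 2) ≤
      K / (K + u) * (A + B) + -(K / (K + u) ^ 2) * G + 2 * B := by
    have h4 : K / (K + u) ^ 2 * G ≤ K / (K + u) ^ 2 * ((a + b) ^ 2 * u) :=
      mul_le_mul_of_nonneg_left hk (by positivity)
    have h5 : 1 / 2 * (A * (K / (K + u)) ^ 2) ≤
        K / (K + u) * (A + B) - (K / (K + u) ^ 2) * ((a + b) ^ 2 * u) + 2 * B := by
      have h6 : K / (K + u) * (A + B) - (K / (K + u) ^ 2) * ((a + b) ^ 2 * u) + 2 * B -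
          1 / 2 * (A * (K / (K + u)) ^ 2) =
          (K * (K + u) * (A + B) - K * (a + b) ^ 2 * u + 2 * B * (K + u) ^ 2 -
            1 / 2 * A * K ^ 2) / (K + u) ^ 2 := by
        field_simp
      have h7 : 0 ≤ K * (K + u) * (A + B) - K * (a + b) ^ 2 * u + 2 * B * (K + u) ^ 2 -
            1 / 2 * A * K ^ 2 := by
        rw [← ha, ← hb]
        have : K * (K + u) * (a ^ 2 + b ^ 2) - K * (a + b) ^ 2 * u + 2 * b ^ 2 * (K + u) ^ 2 -
            1 / 2 * a ^ 2 * K ^ 2 =
            1 / 2 * (K * a - 2 * u * b) ^ 2 + K ^ 2 * b ^ 2 + 2 * b ^ 2 * (K + u) ^ 2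
              - 2 * u ^ 2 * b ^ 2 := by ring
        rw [this]
        nlinarith [sq_nonneg (K * a - 2 * u * b), mul_nonneg hK.le hu, sq_nonneg b,
          mul_nonneg (mul_nonneg hK.le hu) (sq_nonneg b), mul_nonneg (sq_nonneg K) (sq_nonneg b)]
      have h8 : 0 ≤ (K * (K + u) * (A + B) - K * (a + b) ^ 2 * u + 2 * B * (K + u) ^ 2 -
            1 / 2 * A * K ^ 2) / (K + u) ^ 2 := div_nonneg h7 (by positivity)
      linarith
    linarith
  calc 1 / 2 * (A * (K / (K + u)) ^ 2) ≤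
        K / (K + u) * (A + B) + -(K / (K + u) ^ 2) * G + 2 * B := h3
    _ ≤ K / (K + u) * (A + B) + -(K / (K + u) ^ 2) * G + 2 * B +
        (K / (K + u) * (-(2 * l * u)) + 2 * |l| * u) := by linarith
    _ = K / (K + u) * (A + B - 2 * l * u) + -(K / (K + u) ^ 2) * G + 2 * B + 2 * |l| * u := by
        ring

lemma WK_growth (hC : D.Calculus) (hP : D.Pole φ) {f : D.X → ℝ} (hf : f ∈ D.sm) {M l : ℝ}
    (hM : ∀ x, |f x| ≤ M) (hl : ∀ x, D.lap f x = - l * f x) {K : ℝ} (hK : 0 < K) :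
    ∃ C : ℝ, ∀ x, |D.WK f K x| ≤ C * |φ x| := by
  obtain ⟨C, hCg⟩ := hP.growth f hf l ⟨M, hM⟩ hl
  refine ⟨K * (Real.log (1 + 1 / K) + |C|), fun x => ?_⟩
  have hu := hC.gr_nonneg f hf x
  have hφ := hP.le x
  have h1 : 1 ≤ |φ x| := by rw [abs_of_neg (hP.neg x)]; linarith
  have hpos : 0 ≤ Real.log (1 + D.gr f f x / K) :=
    Real.log_nonneg (by have := div_nonneg hu hK.le; linarith)
  have hK1 : 0 < 1 + 1 / K := by positivity
  have h2 : 1 + D.gr f f x / K ≤ (1 + 1 / K) * Real.exp (|C| * |φ x|) := by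
    have h3 : D.gr f f x ≤ Real.exp (|C| * |φ x|) := by
      refine (hCg x).trans (Real.exp_le_exp.2 ?_)
      rw [← abs_mul]
      exact (neg_le_abs _)
    have h4 : 1 ≤ Real.exp (|C| * |φ x|) := Real.one_le_exp (by positivity)
    calc 1 + D.gr f f x / K ≤ Real.exp (|C| * |φ x|) + Real.exp (|C| * |φ x|) / K := by gcongr
      _ = (1 + 1 / K) * Real.exp (|C| * |φ x|) := by ring
  have h5 : Real.log (1 + D.gr f f x / K) ≤ Real.log (1 + 1 / K) + |C| * |φ x| := by
    refine (Real.log_le_log (by have := div_nonneg hu hK.le; linarith) h2).trans ?_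
    rw [Real.log_mul hK1.ne' (Real.exp_ne_zero _), Real.log_exp]
  have h6 : 0 ≤ Real.log (1 + 1 / K) :=
    Real.log_nonneg (by have : 0 < 1 / K := by positivity
                        linarith)
  show |K * Real.log (1 + D.gr f f x / K)| ≤ _
  rw [abs_of_nonneg (mul_nonneg hK.le hpos), mul_assoc]
  refine mul_le_mul_of_nonneg_left (h5.trans ?_) hK.le
  nlinarith [abs_nonneg C]

/-- Step 4: the whole Hessian is square integrable -/
theorem h20_int (hC : D.Calculus) (hP : D.Pole φ) (hA : D.Approx) {f : D.X → ℝ} (hf : f ∈ D.sm)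
    {M l : ℝ} (hM : ∀ x, |f x| ≤ M) (hl : ∀ x, D.lap f x = - l * f x) :
    Integrable (D.h20 f) D.vol := by
  have hu := eigen_energy hC hP hf hM hl
  have hB := h11_int hC hP hA hf hM hl
  have huc : Continuous (D.gr f f) := hC.sm_cont _ (hC.gr_sm f hf f hf)
  have hBc := hC.h11_cont f hf
  have hAc := hC.h20_cont f hf
  set R : ℝ := 4 * (∫ x, D.h11 f x ∂D.vol) + 4 * |l| * ∫ x, D.gr f f x ∂D.vol with hR
  have step : ∀ K : ℝ, 0 < K → Integrable (fun x => D.h20 f x * (K / (K + D.gr f f x)) ^ 2) D.vol ∧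
      ∫ x, D.h20 f x * (K / (K + D.gr f f x)) ^ 2 ∂D.vol ≤ R := by
    intro K hK
    obtain ⟨C, hCW⟩ := WK_growth hC hP hf hM hl hK
    have hW := WK_sm hC hf hK
    have h1 := lap_cut_tendsto hC hP hW hCW
    have h2 := cut_tendsto_integral hC hP hBc hB
    have h3 := cut_tendsto_integral hC hP huc hu
    have hlim := ((h1.const_mul 2).add (h2.const_mul 4)).add (h3.const_mul (4 * |l|))
    rw [mul_zero, zero_add] at hlim
    have hKu : Continuous (fun x => K + D.gr f f x) := continuous_const.add huc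
    have hcont : Continuous (fun x => D.h20 f x * (K / (K + D.gr f f x)) ^ 2) := by
      refine hAc.mul ((continuous_const.div hKu fun x => ?_).pow 2)
      have := hC.gr_nonneg f hf x
      linarith
    refine fatou_cut hC hP hcont (fun x => mul_nonneg (hC.h20_nonneg f hf x) (sq_nonneg _)) hlim
      (fun j => ?_)
    have i1 : Integrable (fun x => cut φ j x * D.lap (D.WK f K) x) D.vol :=
      hC.cs_int _ (cut_cs hP j) _ (hC.sm_cont _ (hC.lap_sm _ hW))
    have i2 := hC.cs_int _ (cut_cs hP j) _ hBc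
    have i3 := hC.cs_int _ (cut_cs hP j) _ huc
    have i0 := hC.cs_int _ (cut_cs hP j) _ hcont
    have i4 : Integrable (fun x => 2 * (cut φ j x * D.lap (D.WK f K) x) +
        4 * (cut φ j x * D.h11 f x)) D.vol := (i1.const_mul _).add (i2.const_mul _)
    have i5 : Integrable (fun x => 2 * (cut φ j x * D.lap (D.WK f K) x) +
        4 * (cut φ j x * D.h11 f x) + 4 * |l| * (cut φ j x * D.gr f f x)) D.vol :=
      i4.add (i3.const_mul _)
    rw [← integral_const_mul, ← integral_const_mul, ← integral_const_mul,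
      ← integral_add (i1.const_mul _) (i2.const_mul _),
      ← integral_add i4 (i3.const_mul _)]
    refine integral_mono i0 i5 (fun x => ?_)
    have hx := lap_WK hC hf hl hK x
    have hc := cut_nonneg (φ := φ) j x
    have hx' := mul_le_mul_of_nonneg_left hx hc
    show cut φ j x * (D.h20 f x * (K / (K + D.gr f f x)) ^ 2) ≤
      2 * (cut φ j x * D.lap (D.WK f K) x) + 4 * (cut φ j x * D.h11 f x) +
        4 * |l| * (cut φ j x * D.gr f f x)
    nlinarith [hx']
  refine (fatou (G := fun (j : ℕ) x => D.h20 f x * (((j : ℝ) + 1) /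
    (((j : ℝ) + 1) + D.gr f f x)) ^ 2) (fun j => (step _ (by positivity)).1)
    (fun j x => mul_nonneg (hC.h20_nonneg f hf x) (sq_nonneg _)) hAc.aestronglyMeasurable
    (fun x => ?_) (tendsto_const_nhds (x := R)) (fun j => (step _ (by positivity)).2)).1
  have h1 : Tendsto (fun j : ℕ => (j : ℝ) + 1) atTop atTop :=
    tendsto_atTop_add_const_right _ _ tendsto_natCast_atTop_atTop
  have h2 : Tendsto (fun j : ℕ => ((j : ℝ) + 1) / (((j : ℝ) + 1) + D.gr f f x)) atTop (𝓝 1) := by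
    have h3 : Tendsto (fun j : ℕ => D.gr f f x / (((j : ℝ) + 1) + D.gr f f x)) atTop (𝓝 0) :=
      (tendsto_atTop_add_const_right _ _ h1).const_div_atTop _
    have h4 := h3.const_sub 1
    rw [sub_zero] at h4
    refine h4.congr (fun j => ?_)
    have hu0 := hC.gr_nonneg f hf x
    have : (0 : ℝ) < ((j : ℝ) + 1) + D.gr f f x := by positivity
    field_simp
    ring
  simpa using (h2.pow 2).const_mul (D.h20 f x)

/-! ### Step 5 -/

lemma hasDerivAt_S {t : ℝ} (ht : -1 < t) :
    HasDerivAt (fun t : ℝ => Real.sqrt (1 + t)) (1 / (2 * Real.sqrt (1 + t))) t := by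
  have h1 : HasDerivAt (fun t : ℝ => 1 + t) 1 t := (hasDerivAt_id t).const_add 1
  exact h1.sqrt (by linarith)

lemma deriv2_S {t : ℝ} (ht : -1 < t) :
    deriv (deriv (fun t : ℝ => Real.sqrt (1 + t))) t =
      - (1 / (4 * (1 + t) * Real.sqrt (1 + t))) := by
  have hpos : 0 < 1 + t := by linarith
  have he : deriv (fun t : ℝ => Real.sqrt (1 + t)) =ᶠ[𝓝 t]
      fun t => (2 * Real.sqrt (1 + t))⁻¹ := by
    filter_upwards [Ioi_mem_nhds ht] with r hr
    rw [(hasDerivAt_S hr).deriv, one_div]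
  rw [he.deriv_eq]
  have hs : 0 < Real.sqrt (1 + t) := Real.sqrt_pos.2 hpos
  have h2 := ((hasDerivAt_S ht).const_mul 2).fun_inv (by positivity : 2 * Real.sqrt (1 + t) ≠ 0)
  rw [h2.deriv]
  have hsq : Real.sqrt (1 + t) ^ 2 = 1 + t := Real.sq_sqrt hpos.le
  rw [mul_pow, hsq]
  field_simp
  ring

lemma S_contDiffOn : ContDiffOn ℝ ∞ (fun t : ℝ => Real.sqrt (1 + t)) (Ioi (-1)) := by
  refine ContDiffOn.sqrt (contDiffOn_const.add contDiffOn_id) (fun t ht => ?_)
  have : -1 < t := ht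
  have : 0 < 1 + t := by linarith
  exact this.ne'

/-- **Bounded eigenfunctions have bounded gradient.** -/
theorem lipschitz (hC : D.Calculus) (hP : D.Pole φ) (hA : D.Approx) (hMo : D.Moser)
    {f : D.X → ℝ} (hf : f ∈ D.sm) {M l : ℝ} (hM : ∀ x, |f x| ≤ M)
    (hl : ∀ x, D.lap f x = - l * f x) : ∃ K, ∀ x, D.gr f f x ≤ K := by
  have hu := eigen_energy hC hP hf hM hl
  have hB := h11_int hC hP hA hf hM hl
  have hAi := h20_int hC hP hA hf hM hl
  have hus : D.gr f f ∈ D.sm := hC.gr_sm f hf f hf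
  have hr : ∀ x, D.gr f f x ∈ Ioi (-1 : ℝ) := fun x => by
    have := hC.gr_nonneg f hf x
    rw [mem_Ioi]
    linarith
  set v : D.X → ℝ := fun x => Real.sqrt (1 + D.gr f f x) with hv
  have hvs : v ∈ D.sm := hC.comp (Ioi (-1)) _ isOpen_Ioi S_contDiffOn _ hus hr
  have hvsq : ∀ x, v x ^ 2 = 1 + D.gr f f x := fun x => by
    have := hC.gr_nonneg f hf x
    exact Real.sq_sqrt (by linarith)
  have hvpos : ∀ x, 0 < v x := fun x => by
    have := hC.gr_nonneg f hf x
    exact Real.sqrt_pos.2 (by linarith)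
  have hk : ∀ x, D.gr (D.gr f f) (D.gr f f) x ≤
      2 * (D.h20 f x + D.h11 f x) * D.gr f f x := fun x => by
    refine (hC.kato f hf x).trans ?_
    refine mul_le_mul_of_nonneg_right ?_ (hC.gr_nonneg f hf x)
    have h1 := Real.sq_sqrt (hC.h20_nonneg f hf x)
    have h2 := Real.sq_sqrt (hC.h11_nonneg f hf x)
    nlinarith [sq_nonneg (Real.sqrt (D.h20 f x) - Real.sqrt (D.h11 f x))]
  have hfin := hC.fin
  -- the energy of `v`
  have hgv : ∀ x, D.gr v v x =
      (1 / (2 * v x)) ^ 2 * D.gr (D.gr f f) (D.gr f f) x := fun x => by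
    have e1 := (hC.gr_comp (Ioi (-1)) _ isOpen_Ioi S_contDiffOn _ hus hr v hvs x).1
    have e2 := (hC.gr_comp (Ioi (-1)) _ isOpen_Ioi S_contDiffOn _ hus hr _ hus x).2
    rw [(hasDerivAt_S (hr x)).deriv] at e1 e2
    have e1' : D.gr v v x = 1 / (2 * v x) * D.gr (D.gr f f) v x := e1
    have e2' : D.gr (D.gr f f) v x = 1 / (2 * v x) * D.gr (D.gr f f) (D.gr f f) x := e2
    rw [e1', e2']
    ring
  have hgvi : Integrable (D.gr v v) D.vol := by
    refine Integrable.mono' ((hAi.add hB).const_mul (1 / 2))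
      (hC.sm_cont _ (hC.gr_sm v hvs v hvs)).aestronglyMeasurable
      (Eventually.of_forall fun x => ?_)
    rw [Real.norm_eq_abs, abs_of_nonneg (hC.gr_nonneg v hvs x), hgv]
    have hu0 := hC.gr_nonneg f hf x
    have h1 : (1 / (2 * v x)) ^ 2 = 1 / (4 * (1 + D.gr f f x)) := by
      rw [div_pow, mul_pow, hvsq]; norm_num
    rw [h1]
    calc 1 / (4 * (1 + D.gr f f x)) * D.gr (D.gr f f) (D.gr f f) x
        ≤ 1 / (4 * (1 + D.gr f f x)) * (2 * (D.h20 f x + D.h11 f x) * D.gr f f x) :=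
          mul_le_mul_of_nonneg_left (hk x) (by positivity)
      _ = 1 / 2 * (D.h20 f x + D.h11 f x) * (D.gr f f x / (1 + D.gr f f x)) := by
          field_simp
          ring
      _ ≤ 1 / 2 * (D.h20 f x + D.h11 f x) * 1 := by
          have := hC.h20_nonneg f hf x
          have := hC.h11_nonneg f hf x
          refine mul_le_mul_of_nonneg_left ?_ (by positivity)
          rw [div_le_one (by linarith)]
          linarith
      _ = 1 / 2 * (D.h20 f x + D.h11 f x) := mul_one _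
  have hv2i : Integrable (fun x => v x ^ 2) D.vol := by
    simp_rw [hvsq]
    exact (integrable_const 1).add hu
  have hvlap : ∀ x, - (|l| * v x) ≤ D.lap v x := fun x => by
    have e := hC.lap_comp (Ioi (-1)) _ isOpen_Ioi S_contDiffOn _ hus hr x
    rw [(hasDerivAt_S (hr x)).deriv, deriv2_S (hr x), lap_u hC hf hl] at e
    have e' : D.lap v x = 1 / (2 * v x) * (D.h20 f x + D.h11 f x - 2 * l * D.gr f f x) +
      - (1 / (4 * (1 + D.gr f f x) * v x)) * D.gr (D.gr f f) (D.gr f f) x := e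
    rw [e']
    have hu0 := hC.gr_nonneg f hf x
    have ha0 := hC.h20_nonneg f hf x
    have hb0 := hC.h11_nonneg f hf x
    have hk' := hk x
    have hv0 := hvpos x
    have hq := hvsq x
    set u := D.gr f f x
    set A := D.h20 f x
    set B := D.h11 f x
    set G := D.gr (D.gr f f) (D.gr f f) x
    set w := v x
    have h1 : 1 / (4 * (1 + u) * w) * G ≤ 1 / (4 * (1 + u) * w) * (2 * (A + B) * u) :=
      mul_le_mul_of_nonneg_left hk' (by positivity)
    have h2 : 1 / (4 * (1 + u) * w) * (2 * (A + B) * u) ≤ 1 / (2 * w) * (A + B) := by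
      have : 1 / (4 * (1 + u) * w) * (2 * (A + B) * u) =
          1 / (2 * w) * (A + B) * (u / (1 + u)) := by
        field_simp
        ring
      rw [this]
      have h3 : u / (1 + u) ≤ 1 := by rw [div_le_one (by linarith)]; linarith
      calc 1 / (2 * w) * (A + B) * (u / (1 + u)) ≤ 1 / (2 * w) * (A + B) * 1 :=
            mul_le_mul_of_nonneg_left h3 (by positivity)
        _ = 1 / (2 * w) * (A + B) := mul_one _
    have h4 : 1 / (2 * w) * (2 * l * u) ≤ |l| * w := by
      have h5 : 1 / (2 * w) * (2 * l * u) = l * u / w := by field_simp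
      rw [h5, div_le_iff₀ hv0]
      have h6 : l * u ≤ |l| * u := mul_le_mul_of_nonneg_right (le_abs_self l) hu0
      have h7 : |l| * u ≤ |l| * w ^ 2 :=
        mul_le_mul_of_nonneg_left (by rw [hq]; linarith) (abs_nonneg l)
      nlinarith
    have h8 : 1 / (2 * w) * (A + B - 2 * l * u) =
        1 / (2 * w) * (A + B) - 1 / (2 * w) * (2 * l * u) := by ring
    rw [h8]
    linarith
  obtain ⟨C, hCv⟩ := hMo v hvs (fun x => (hvpos x).le) hv2i hgvi ⟨|l|, hvlap⟩
  refine ⟨C ^ 2, fun x => ?_⟩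
  have h1 := hvsq x
  have h2 : v x ^ 2 ≤ C ^ 2 := pow_le_pow_left₀ (hvpos x).le (hCv x) 2
  linarith

end Reg

end Pool.Agent.SYM
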